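import Pool.Agent.Lib.H59V.Defs
import Pool.Agent.Lib.H96G.A1

/-!
# Project H59V, chunk A1 (S/M): elementary bounds for the cross kernels
-/

open Finset

namespace Pool.Agent.Lib.H59V

open Pool.Agent.Lib.H68T (lp)
open Pool.Agent.Lib.GoldbachGraph (hadj hadj_comm)
open Pool.Agent.Lib.H96G

/-- Proof. `a1_lp_nonneg` of `H96G`. -/
theorem a1_kpC_nonneg (x y : ℕ) : 0 ≤ kpC x y := by
  unfold kpC
  split_ifs
  · exact mul_nonneg (a1_lp_nonneg _) (a1_lp_nonneg _)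
  · exact le_refl 0

/-- Proof. As `a1_kp_le` (`H96G/A1`): `x + y < 4 X ≤ 4 n`, `(x - y)/3 ≤ 4 n`. -/
theorem a1_kpC_le {n M : ℕ} {B : ℝ} {X Z : ℕ} (hn : 1 ≤ n) (h : Sc n M B X Z) {x y : ℕ}
    (hx : x ∈ Ico (2 * X) (3 * X)) (hy : y ∈ Ico Z (2 * Z)) :
    kpC x y ≤ (Real.log (8 * n)) ^ 2 := by
  have h1 := Finset.mem_Ico.1 hx
  have h2 := Finset.mem_Ico.1 hy
  have h3 := h.le
  have h4 := h.hi
  unfold kpC
  split_ifs with hd
  · have k1 := a1_lp_le n hn ((x : ℤ) + y) (by omega)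
    have k2 := a1_lp_le n hn (((x : ℤ) - y) / 3) (by omega)
    rw [sq]
    exact mul_le_mul k1 k2 (a1_lp_nonneg _) ((a1_lp_nonneg _).trans k1)
  · exact sq_nonneg _

/-- Proof. `x + y ∈ [X, 4X]` (field `bd`); if `3 ∣ x - y` then `(x - y)/3 ∈ [X/3, 4 (X/3)]` because `3 ∣ M ∣ X` and
`X ≤ x - y ≤ 4X` (field `bd3`); `n^b * n^b = n^(2b)`. -/
theorem a1_kmC_abs {n M : ℕ} {L : ℕ → ℤ → ℝ} {c B b : ℝ} (hN : Nm n b) (h : GC n M L c B b)
    {X Z : ℕ} (hs : Sc n M B X Z) {x y : ℕ}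
    (hx : x ∈ Ico (2 * X) (3 * X)) (hy : y ∈ Ico Z (2 * Z)) :
    |kmC (L X) (L (X / 3)) x y| ≤ (n : ℝ) ^ (2 * b) := by
  have h1 := Finset.mem_Ico.1 hx
  have h2 := Finset.mem_Ico.1 hy
  have h3 := hs.le
  have h4 := hs.hi
  have h5 : 3 ∣ X := dvd_trans h.M3 hs.dX
  unfold kmC
  split_ifs with hd
  · have k1 := h.bd X Z hs ((x : ℤ) + y) (by omega) (by omega)
    have k2 := h.bd3 X Z hs (((x : ℤ) - y) / 3) (by omega) (by omega)
    rw [abs_mul, two_mul, ← hN.mul]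
    exact mul_le_mul k1 k2 (abs_nonneg _) (hN.ppos b).le
  · rw [abs_zero]
    exact (hN.ppos _).le

/-- Proof. As `a1_kp_hadj`: `x + y` and `q = (x - y)/3` are primes; `x + y ≥ 2 X + Z > 2` is odd, so `x - y = 3 q` is odd
and `q` is odd. (`Z ≥ 1`, `2 Z ≤ X`; `Nat.dist x y = x - y`.) -/
theorem a1_kpC_cadj {n M : ℕ} {B : ℝ} {X Z : ℕ} (hn : 1 ≤ n) (h : Sc n M B X Z) {x y : ℕ}
    (hx : x ∈ Ico (2 * X) (3 * X)) (hy : y ∈ Ico Z (2 * Z)) (hk : kpC x y ≠ 0) : cadj x y := by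
  have h1 := Finset.mem_Ico.1 hx
  have h2 := Finset.mem_Ico.1 hy
  have h3 := h.le
  have h4 : 1 ≤ Z := a1_Z_pos hn h
  unfold kpC at hk
  by_cases hd : (3:ℤ) ∣ (x:ℤ) - y
  · rw [if_pos hd] at hk
    have k1 := left_ne_zero_of_mul hk
    have k2 := right_ne_zero_of_mul hk
    have e1 : ((x : ℤ) + y).toNat = x + y := by omega
    have p1 : (x + y).Prime := by
      by_contra hc
      apply k1
      unfold Pool.Agent.Lib.H68T.lp
      rw [e1, if_neg hc]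
    have p2 : ((((x : ℤ) - y) / 3).toNat).Prime := by
      by_contra hc
      apply k2
      unfold Pool.Agent.Lib.H68T.lp
      rw [if_neg hc]
    have o1 : Odd (x + y) := p1.odd_of_ne_two (by omega)
    obtain ⟨q, hq⟩ : ∃ q : ℕ, q = (((x : ℤ) - y) / 3).toNat := ⟨_, rfl⟩
    have hxy : x - y = 3 * q := by omega
    have e3 : Nat.dist x y = x - y := Nat.dist_eq_sub_of_le_right (by omega)
    refine ⟨p1, o1, q, by rw [hq]; exact p2, ?_, by rw [e3, hxy]⟩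
    rw [Nat.odd_iff] at o1 ⊢
    omega
  · rw [if_neg hd] at hk
    exact absurd rfl hk

end Pool.Agent.Lib.H59V
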