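import Pool.Agent.Lib.H59V.A1

/-!
# Project H59V, chunk A2 (S/M): the operator bound for the cross kernel, scaled and on sets
-/

open Finset

namespace Pool.Agent.Lib.H59V

open Pool.Agent.Lib.H96G

/-- Proof. As `A0_scale` (`H96G/A0.lean`), with the field `opC`. -/
theorem A2_scale {n M : ℕ} {L : ℕ → ℤ → ℝ} {c B b : ℝ} (h : GC n M L c B b) {X Z : ℕ}
    (hs : Sc n M B X Z) (f g : ℕ → ℝ) (F G : ℝ) (hF : 0 < F) (hG : 0 < G)
    (hf : ∀ x ∈ Ico (2 * X) (3 * X), |f x| ≤ F) (hg : ∀ y ∈ Ico Z (2 * Z), |g y| ≤ G) :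
    |∑ x ∈ Ico (2 * X) (3 * X), ∑ y ∈ Ico Z (2 * Z),
      f x * g y * (kpC x y - kmC (L X) (L (X / 3)) x y)| ≤ F * G * (n : ℝ) ^ (2 - c) := by
  classical
  have h1 := h.opC X Z hs (fun x => if x ∈ Ico (2 * X) (3 * X) then f x / F else 0)
    (fun y => if y ∈ Ico Z (2 * Z) then g y / G else 0)
    (fun x => by
      by_cases hx : x ∈ Ico (2 * X) (3 * X)
      · simp only [if_pos hx]
        rw [abs_div, abs_of_pos hF, div_le_one hF]
        exact hf x hx
      · simp only [if_neg hx]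
        rw [abs_zero]
        exact zero_le_one)
    (fun y => by
      by_cases hy : y ∈ Ico Z (2 * Z)
      · simp only [if_pos hy]
        rw [abs_div, abs_of_pos hG, div_le_one hG]
        exact hg y hy
      · simp only [if_neg hy]
        rw [abs_zero]
        exact zero_le_one)
  have e1 : ∑ x ∈ Ico (2 * X) (3 * X), ∑ y ∈ Ico Z (2 * Z),
        f x * g y * (kpC x y - kmC (L X) (L (X / 3)) x y) =
      F * G * ∑ x ∈ Ico (2 * X) (3 * X), ∑ y ∈ Ico Z (2 * Z),
        (if x ∈ Ico (2 * X) (3 * X) then f x / F else 0) *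
        (if y ∈ Ico Z (2 * Z) then g y / G else 0) * (kpC x y - kmC (L X) (L (X / 3)) x y) := by
    rw [Finset.mul_sum]
    refine Finset.sum_congr rfl fun x hx => ?_
    rw [Finset.mul_sum]
    refine Finset.sum_congr rfl fun y hy => ?_
    rw [if_pos hx, if_pos hy]
    field_simp
  rw [e1, abs_mul, abs_of_pos (mul_pos hF hG)]
  exact mul_le_mul_of_nonneg_left h1 (mul_pos hF hG).le

/-- Proof. As `a7_set` (`H96G/A7.lean`), with `A2_scale`. -/
theorem A2_set {n M : ℕ} {L : ℕ → ℤ → ℝ} {c B b : ℝ} (h : GC n M L c B b) {X Z : ℕ}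
    (hs : Sc n M B X Z) {A : Finset ℕ} (hA : A ⊆ Ico (2 * X) (3 * X)) (g : ℕ → ℝ) (G : ℝ)
    (hG : 0 < G) (hg : ∀ y ∈ Ico Z (2 * Z), |g y| ≤ G) :
    |∑ x ∈ A, ∑ y ∈ Ico Z (2 * Z), g y * (kpC x y - kmC (L X) (L (X / 3)) x y)| ≤
      G * (n : ℝ) ^ (2 - c) := by
  classical
  have e := A2_scale h hs (fun x => if x ∈ A then 1 else 0) g 1 G one_pos hG
    (fun x _ => by
      split_ifs
      · rw [abs_one]
      · rw [abs_zero]; exact zero_le_one) hg
  have e2 : ∑ x ∈ Ico (2 * X) (3 * X), ∑ y ∈ Ico Z (2 * Z),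
      (fun x => if x ∈ A then (1 : ℝ) else 0) x * g y * (kpC x y - kmC (L X) (L (X / 3)) x y) =
      ∑ x ∈ A, ∑ y ∈ Ico Z (2 * Z), g y * (kpC x y - kmC (L X) (L (X / 3)) x y) := by
    rw [← sum_subset hA]
    · refine sum_congr rfl fun x hx => sum_congr rfl fun y _ => ?_
      dsimp only
      rw [if_pos hx, one_mul]
    · intro x _ hx
      refine sum_eq_zero fun y _ => ?_
      dsimp only
      rw [if_neg hx, zero_mul, zero_mul]
  rw [e2, one_mul] at e
  exact e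

end Pool.Agent.Lib.H59V
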