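import Pool.Agent.Lib.H59V.A2
import Pool.Agent.Lib.H96G.A7

/-!
# Project H59V, chunk A3 (M): few pairs of a box have no mixed common neighbour
-/

open Finset

namespace Pool.Agent.Lib.H59V

open Pool.Agent.Lib.GoldbachGraph (hadj hadj_comm)
open Pool.Agent.Lib.H96G

open Classical in
theorem a3_fib (P : Finset (ℕ × ℕ)) (I J : Finset ℕ) (hP : P ⊆ I ×ˢ J) (f : ℕ → ℕ → ℝ) :
    ∑ p ∈ P, f p.1 p.2 = ∑ x ∈ I, ∑ x' ∈ J.filter (fun x' => (x, x') ∈ P), f x x' := by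
  have h1 : P = (I ×ˢ J).filter (fun p => p ∈ P) := by
    ext p
    rw [mem_filter]
    exact ⟨fun h => ⟨hP h, h⟩, fun h => h.2⟩
  calc ∑ p ∈ P, f p.1 p.2 = ∑ p ∈ (I ×ˢ J).filter (fun p => p ∈ P), f p.1 p.2 := by rw [← h1]
    _ = ∑ p ∈ I ×ˢ J, if p ∈ P then f p.1 p.2 else 0 := by rw [sum_filter]
    _ = ∑ x ∈ I, ∑ x' ∈ J, if (x, x') ∈ P then f x x' else 0 := by rw [sum_product]
    _ = _ := sum_congr rfl fun x _ => by rw [sum_filter]

open Classical in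
theorem a3_fib' (P : Finset (ℕ × ℕ)) (I J : Finset ℕ) (hP : P ⊆ I ×ˢ J) (f : ℕ → ℕ → ℝ) :
    ∑ p ∈ P, f p.1 p.2 = ∑ x' ∈ J, ∑ x ∈ I.filter (fun x => (x, x') ∈ P), f x x' := by
  have h1 : P = (I ×ˢ J).filter (fun p => p ∈ P) := by
    ext p
    rw [mem_filter]
    exact ⟨fun h => ⟨hP h, h⟩, fun h => h.2⟩
  calc ∑ p ∈ P, f p.1 p.2 = ∑ p ∈ (I ×ˢ J).filter (fun p => p ∈ P), f p.1 p.2 := by rw [← h1]
    _ = ∑ p ∈ I ×ˢ J, if p ∈ P then f p.1 p.2 else 0 := by rw [sum_filter]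
    _ = ∑ x' ∈ J, ∑ x ∈ I, if (x, x') ∈ P then f x x' else 0 := by rw [sum_product_right]
    _ = _ := sum_congr rfl fun x _ => by rw [sum_filter]

open Classical in
/-- The mixed correlations over a set `P` of pairs without mixed common neighbour. Proof. Compare the proof of `A7`
(`H96G/A7.lean`), here with fibres of `P` instead of products. `l = log (8n)`, `W x = {x' : (x, x') ∈ P}`,
`W' x' = {x : (x, x') ∈ P}`. For `(x, x') ∈ P` and `y ∈ [Z, 2Z)`: `kp x y * kpC x' y = 0` (`a1_kp_hadj`, `a1_kpC_cadj`,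
definition of `FC`).
(1) For fixed `x`: `A2_set` at the scale `X'`, `A = W x`, `g y = kp x y` (`|g| ≤ l²`, `a1_kp_le`, `a1_kp_nonneg`):
`|∑_{x' ∈ W x} ∑_y kp x y * kmC x' y| ≤ l² n^(2-c)`. At most `X ≤ n` values of `x`:
`|∑_P ∑_y kp x y * kmC x' y| ≤ l² n^(3-c)`.
(2) For fixed `x'`: `a7_set` at the scale `X`, `A = W' x'`, `g y = kmC x' y` (`|g| ≤ n^(2b)`, `a1_kmC_abs`):
`|∑_{x ∈ W' x'} ∑_y kmC x' y * (kp x y - km x y)| ≤ n^(2b) n^(2-c)`, in total `≤ n^(2b) n^(3-c)`.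
The difference of the two sums over `P` is the sum to be estimated. (Sums over `P` fibrewise: `Finset.sum_fiberwise_of_maps_to`,
or write the sum over `P` as the sum over the product of the intervals with an indicator function,
`Finset.sum_product`, `Finset.sum_product_right`.) -/
theorem A3_sum {n M : ℕ} {L : ℕ → ℤ → ℝ} {c B b : ℝ} (hN : Nm n b) (h : GC n M L c B b)
    {X X' Z : ℕ} (hs : Sc n M B X Z) (hs' : Sc n M B X' Z) (P : Finset (ℕ × ℕ))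
    (hP : P ⊆ Ico (2 * X) (3 * X) ×ˢ Ico (2 * X') (3 * X')) (hFC : ∀ p ∈ P, FC Z p.1 p.2) :
    ∑ p ∈ P, ∑ y ∈ Ico Z (2 * Z), km (L X) p.1 y * kmC (L X') (L (X' / 3)) p.2 y ≤
      (Real.log (8 * n)) ^ 2 * (n : ℝ) ^ (3 - c) + (n : ℝ) ^ (3 - c + 2 * b) := by
  have hn1 : 1 ≤ n := hN.n_pos
  have hnp := hN.pos
  obtain ⟨l, hl⟩ : ∃ l, l = Real.log (8 * n) := ⟨_, rfl⟩
  have hl1 : 1 ≤ l := by rw [hl]; exact hN.ell
  obtain ⟨S1, hS1⟩ : ∃ S : ℝ, S = ∑ p ∈ P, ∑ y ∈ Ico Z (2 * Z),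
      kp p.1 y * (kpC p.2 y - kmC (L X') (L (X' / 3)) p.2 y) := ⟨_, rfl⟩
  obtain ⟨S2, hS2⟩ : ∃ S : ℝ, S = ∑ p ∈ P, ∑ y ∈ Ico Z (2 * Z),
      kmC (L X') (L (X' / 3)) p.2 y * (kp p.1 y - km (L X) p.1 y) := ⟨_, rfl⟩
  have hcard : ∀ {X : ℕ}, Sc n M B X Z → ((Ico (2 * X) (3 * X)).card : ℝ) ≤ n := by
    intro X hs
    rw [Nat.card_Ico]
    have g2 := hs.hi
    exact_mod_cast (by omega : 3 * X - 2 * X ≤ n)
  have e0 : ∑ p ∈ P, ∑ y ∈ Ico Z (2 * Z), km (L X) p.1 y * kmC (L X') (L (X' / 3)) p.2 y =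
      -S1 - S2 := by
    rw [hS1, hS2, ← sum_neg_distrib, ← sum_sub_distrib]
    refine sum_congr rfl fun p hp => ?_
    rw [← sum_neg_distrib, ← sum_sub_distrib]
    refine sum_congr rfl fun y hy => ?_
    have g1 : kp p.1 y * kpC p.2 y = 0 := by
      by_contra hne
      have g1 := left_ne_zero_of_mul hne
      have g2 := right_ne_zero_of_mul hne
      have g3 := mem_product.mp (hP hp)
      exact (hFC p hp).2 ⟨y, hy, a1_kp_hadj hn1 hs g3.1 hy g1, a1_kpC_cadj hn1 hs' g3.2 hy g2⟩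
    linear_combination g1
  have e1 : |S1| ≤ n * (l ^ 2 * (n : ℝ) ^ (2 - c)) := by
    rw [hS1, a3_fib P _ _ hP (fun x x' => ∑ y ∈ Ico Z (2 * Z),
      kp x y * (kpC x' y - kmC (L X') (L (X' / 3)) x' y))]
    calc _ ≤ ∑ x ∈ Ico (2 * X) (3 * X), |∑ x' ∈ (Ico (2 * X') (3 * X')).filter (fun x' => (x, x') ∈ P),
          ∑ y ∈ Ico Z (2 * Z), kp x y * (kpC x' y - kmC (L X') (L (X' / 3)) x' y)| :=
            abs_sum_le_sum_abs _ _
      _ ≤ ∑ x ∈ Ico (2 * X) (3 * X), l ^ 2 * (n : ℝ) ^ (2 - c) := by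
          refine sum_le_sum fun x hx => ?_
          refine A2_set h hs' (filter_subset _ _) (fun y => kp x y) (l ^ 2) (by positivity) fun y hy => ?_
          rw [abs_of_nonneg (a1_kp_nonneg x y), hl]
          exact a1_kp_le hn1 hs hx hy
      _ = (Ico (2 * X) (3 * X)).card * (l ^ 2 * (n : ℝ) ^ (2 - c)) := by
          rw [sum_const, nsmul_eq_mul]
      _ ≤ n * (l ^ 2 * (n : ℝ) ^ (2 - c)) :=
          mul_le_mul_of_nonneg_right (hcard hs) (mul_nonneg (by positivity) (hN.ppos _).le)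
  have e2 : |S2| ≤ n * ((n : ℝ) ^ (2 * b) * (n : ℝ) ^ (2 - c)) := by
    rw [hS2, a3_fib' P _ _ hP (fun x x' => ∑ y ∈ Ico Z (2 * Z),
      kmC (L X') (L (X' / 3)) x' y * (kp x y - km (L X) x y))]
    calc _ ≤ ∑ x' ∈ Ico (2 * X') (3 * X'), |∑ x ∈ (Ico (2 * X) (3 * X)).filter (fun x => (x, x') ∈ P),
          ∑ y ∈ Ico Z (2 * Z), kmC (L X') (L (X' / 3)) x' y * (kp x y - km (L X) x y)| :=
            abs_sum_le_sum_abs _ _
      _ ≤ ∑ x' ∈ Ico (2 * X') (3 * X'), (n : ℝ) ^ (2 * b) * (n : ℝ) ^ (2 - c) := by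
          refine sum_le_sum fun x' hx' => ?_
          exact a7_set h.toGIn hs (filter_subset _ _) (fun y => kmC (L X') (L (X' / 3)) x' y)
            ((n : ℝ) ^ (2 * b)) (hN.ppos _) fun y hy => a1_kmC_abs hN h hs' hx' hy
      _ = (Ico (2 * X') (3 * X')).card * ((n : ℝ) ^ (2 * b) * (n : ℝ) ^ (2 - c)) := by
          rw [sum_const, nsmul_eq_mul]
      _ ≤ n * ((n : ℝ) ^ (2 * b) * (n : ℝ) ^ (2 - c)) :=
          mul_le_mul_of_nonneg_right (hcard hs') (mul_nonneg (hN.ppos _).le (hN.ppos _).le)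
  have k1 : n * (l ^ 2 * (n : ℝ) ^ (2 - c)) = l ^ 2 * (n : ℝ) ^ (3 - c) := by
    have : (n : ℝ) ^ (3 - c) = (n : ℝ) ^ (1 : ℝ) * (n : ℝ) ^ (2 - c) := by
      rw [hN.mul]
      congr 1
      ring
    rw [this, Real.rpow_one]
    ring
  have k2 : n * ((n : ℝ) ^ (2 * b) * (n : ℝ) ^ (2 - c)) = (n : ℝ) ^ (3 - c + 2 * b) := by
    have : (n : ℝ) ^ (3 - c + 2 * b) = (n : ℝ) ^ (1 : ℝ) * ((n : ℝ) ^ (2 * b) * (n : ℝ) ^ (2 - c)) := by
      rw [hN.mul, hN.mul]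
      congr 1
      ring
    rw [this, Real.rpow_one]
  rw [e0, ← hl]
  rw [k1] at e1
  rw [k2] at e2
  have g1 := (abs_le.mp e1).1
  have g2 := (abs_le.mp e2).1
  linarith

open Classical in
/-- **A3.** Proof. `P` = the set in question, `A3_sum`. The pairs of `P` outside of the exceptional set of the field `m4C`
(at most `n^(2-c)` pairs; the pairs of `P` satisfy `MX`) have inner sum `≥ Z n^(-b)`, the others `≥ - Z n^(4b)`
(`a1_km_abs`, `a1_kmC_abs`), so `P.card * Z n^(-b) ≤ l² n^(3-c) + n^(3-c+2b) + n^(2-c) (Z n^(-b) + Z n^(4b))`. Divide by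
`Z n^(-b)`, `Z ≥ n^(1-B)`: `P.card ≤ l² n^(2-c+B+b) + n^(2-c+B+3b) + n^(2-c) + n^(2-c+5b) ≤ n^(2-c/2)` (`Nm.lg`,
`Nm.cst`; `c ≥ 100 B`, `B ≥ 100 b`). -/
theorem A3_pairs {n M : ℕ} {L : ℕ → ℤ → ℝ} {c B b : ℝ} (hN : Nm n b) (h : GC n M L c B b)
    {X X' Z : ℕ} (hs : Sc n M B X Z) (hs' : Sc n M B X' Z) :
    (((Ico (2 * X) (3 * X) ×ˢ Ico (2 * X') (3 * X')).filter fun p => FC Z p.1 p.2).card : ℝ) ≤
      (n : ℝ) ^ (2 - c / 2) := by
  have hn1 : 1 ≤ n := hN.n_pos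
  have hnp := hN.pos
  obtain ⟨l, hl⟩ : ∃ l, l = Real.log (8 * n) := ⟨_, rfl⟩
  have hl1 : 1 ≤ l := by rw [hl]; exact hN.ell
  obtain ⟨P, hPd⟩ : ∃ P : Finset (ℕ × ℕ), P = (Ico (2 * X) (3 * X) ×ˢ Ico (2 * X') (3 * X')).filter
    fun p => FC Z p.1 p.2 := ⟨_, rfl⟩
  rw [← hPd]
  have hP : P ⊆ Ico (2 * X) (3 * X) ×ˢ Ico (2 * X') (3 * X') := by
    rw [hPd]
    exact filter_subset _ _
  have hFC : ∀ p ∈ P, FC Z p.1 p.2 := by
    intro p hp
    rw [hPd, mem_filter] at hp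
    exact hp.2
  have e3 := A3_sum hN h hs hs' P hP hFC
  rw [← hl] at e3
  obtain ⟨s, hsd⟩ : ∃ s : ℕ × ℕ → ℝ, ∀ p, s p =
      ∑ y ∈ Ico Z (2 * Z), km (L X) p.1 y * kmC (L X') (L (X' / 3)) p.2 y := ⟨_, fun _ => rfl⟩
  have e4 : ∑ p ∈ P, s p ≤ l ^ 2 * (n : ℝ) ^ (3 - c) + (n : ℝ) ^ (3 - c + 2 * b) := by
    rw [sum_congr rfl fun p _ => hsd p]
    exact e3
  have hZn : (Z : ℝ) ≤ n := by
    have g1 := hs.le
    have g2 := hs.hi
    exact_mod_cast (by omega : Z ≤ n)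
  have hZ0 : (0 : ℝ) ≤ Z := Nat.cast_nonneg _
  have hZp : (0 : ℝ) < Z := lt_of_lt_of_le (hN.ppos _) hs.lo
  have key : ∀ E : Finset (ℕ × ℕ), (∀ p, p ∈ E ↔ p ∈ Ico (2 * X) (3 * X) ×ˢ Ico (2 * X') (3 * X') ∧
      (MX p.1 p.2 ∧ ∑ y ∈ Ico Z (2 * Z), km (L X) p.1 y * kmC (L X') (L (X' / 3)) p.2 y <
        Z * (n : ℝ) ^ (-b))) →
      (E.card : ℝ) ≤ (n : ℝ) ^ (2 - c) → (P.card : ℝ) ≤ (n : ℝ) ^ (2 - c / 2) := by
    intro E hE hEc
    obtain ⟨W, hW⟩ : ∃ W : ℝ, W = Z * (n : ℝ) ^ (-b) + Z * (n : ℝ) ^ (4 * b) := ⟨_, rfl⟩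
    have hW0 : 0 ≤ W := by
      rw [hW]
      exact add_nonneg (mul_nonneg hZ0 (hN.ppos _).le) (mul_nonneg hZ0 (hN.ppos _).le)
    have g1 : ∀ p ∈ P, Z * (n : ℝ) ^ (-b) - (if p ∈ E then W else 0) ≤ s p := by
      intro p hp
      have hp2 := mem_product.mp (hP hp)
      split_ifs with hpE
      · rw [hW, hsd]
        have g2 : |∑ y ∈ Ico Z (2 * Z), km (L X) p.1 y * kmC (L X') (L (X' / 3)) p.2 y| ≤
            Z * (n : ℝ) ^ (4 * b) := by
          calc |∑ y ∈ Ico Z (2 * Z), km (L X) p.1 y * kmC (L X') (L (X' / 3)) p.2 y|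
              ≤ ∑ y ∈ Ico Z (2 * Z), |km (L X) p.1 y * kmC (L X') (L (X' / 3)) p.2 y| :=
                abs_sum_le_sum_abs _ _
            _ ≤ ∑ y ∈ Ico Z (2 * Z), (n : ℝ) ^ (4 * b) := by
                refine sum_le_sum fun y hy => ?_
                rw [abs_mul]
                calc |km (L X) p.1 y| * |kmC (L X') (L (X' / 3)) p.2 y| ≤
                      (n : ℝ) ^ (2 * b) * (n : ℝ) ^ (2 * b) :=
                      mul_le_mul (a1_km_abs hN h.toGIn hs hp2.1 hy) (a1_kmC_abs hN h hs' hp2.2 hy)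
                        (abs_nonneg _) (hN.ppos _).le
                  _ = (n : ℝ) ^ (4 * b) := by rw [hN.mul]; congr 1; ring
            _ = Z * (n : ℝ) ^ (4 * b) := by
                rw [sum_const, nsmul_eq_mul, Nat.card_Ico]
                congr 2
                omega
        have g3 := (abs_le.mp g2).1
        linarith
      · rw [sub_zero]
        by_contra hlt
        push Not at hlt
        apply hpE
        rw [hE]
        refine ⟨hP hp, (hFC p hp).1, ?_⟩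
        rw [← hsd]
        exact hlt
    have g2 := sum_le_sum g1
    rw [sum_sub_distrib, sum_const, nsmul_eq_mul] at g2
    have g3 : ∑ p ∈ P, (if p ∈ E then W else 0) ≤ (n : ℝ) ^ (2 - c) * W := by
      rw [← sum_filter, sum_const, nsmul_eq_mul]
      refine mul_le_mul_of_nonneg_right (le_trans ?_ hEc) hW0
      exact_mod_cast card_le_card fun p hp => (mem_filter.mp hp).2
    have g5 : (n : ℝ) ^ (2 - c) * W ≤ (n : ℝ) ^ (3 - c - b) + (n : ℝ) ^ (3 - c + 4 * b) := by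
      rw [hW, mul_add]
      have g6 : ∀ t : ℝ, (n : ℝ) ^ (2 - c) * (Z * (n : ℝ) ^ t) ≤ (n : ℝ) ^ (3 - c + t) := by
        intro t
        calc (n : ℝ) ^ (2 - c) * (Z * (n : ℝ) ^ t) ≤ (n : ℝ) ^ (2 - c) * ((n : ℝ) ^ (1 : ℝ) * (n : ℝ) ^ t) := by
              refine mul_le_mul_of_nonneg_left (mul_le_mul_of_nonneg_right ?_ (hN.ppos _).le) (hN.ppos _).le
              rw [Real.rpow_one]
              exact hZn
          _ = (n : ℝ) ^ (3 - c + t) := by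
              rw [hN.mul, hN.mul]
              congr 1
              ring
      have g7 := g6 (-b)
      have g8 := g6 (4 * b)
      rw [← sub_eq_add_neg] at g7
      linarith
    have hbB := h.hb
    have hBc := h.hB
    have hb0 := h.b_pos
    have k1 : 8 * (n : ℝ) ^ (3 - c - b) ≤ (n : ℝ) ^ (3 - c / 2 - B - b) :=
      hN.cst (by norm_num) (by linarith)
    have k2 : 8 * (n : ℝ) ^ (3 - c + 4 * b) ≤ (n : ℝ) ^ (3 - c / 2 - B - b) :=
      hN.cst (by norm_num) (by linarith)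
    have k3 : 8 * l ^ 2 * (n : ℝ) ^ (3 - c) ≤ (n : ℝ) ^ (3 - c / 2 - B - b) := by
      rw [hl]
      exact hN.lg (by norm_num) (by norm_num) (by linarith)
    have k4 : 8 * (n : ℝ) ^ (3 - c + 2 * b) ≤ (n : ℝ) ^ (3 - c / 2 - B - b) :=
      hN.cst (by norm_num) (by linarith)
    have k7 := hN.ppos (3 - c / 2 - B - b)
    have k8 : (n : ℝ) ^ (3 - c / 2 - B - b) ≤ (n : ℝ) ^ (2 - c / 2) * (Z * (n : ℝ) ^ (-b)) := by
      calc (n : ℝ) ^ (3 - c / 2 - B - b) =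
            (n : ℝ) ^ (2 - c / 2) * ((n : ℝ) ^ (1 - B) * (n : ℝ) ^ (-b)) := by
            rw [hN.mul, hN.mul]
            congr 1
            ring
        _ ≤ _ := by
            refine mul_le_mul_of_nonneg_left (mul_le_mul_of_nonneg_right hs.lo (hN.ppos _).le) (hN.ppos _).le
    have k9 : 0 < Z * (n : ℝ) ^ (-b) := mul_pos hZp (hN.ppos _)
    refine le_of_mul_le_mul_right ?_ k9
    refine le_trans ?_ k8
    linarith
  refine key _ (fun p => mem_filter) (h.m4C X X' Z hs hs')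

end Pool.Agent.Lib.H59V
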