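import Pool.Agent.Lib.H59V.A3
import Pool.Agent.Lib.H96G.B2

/-!
# Project H59V, chunk A4 (S/M): few pairs without mixed common neighbour
-/

open Finset

namespace Pool.Agent.Lib.H59V

open Pool.Agent.Lib.H96G

theorem a4_card {α : Type*} [DecidableEq α] {S : Finset ℕ} {f : ℕ → Finset α} {l K : ℝ}
    (hS : (S.card : ℝ) ≤ l) (hK : 0 ≤ K)
    (hf : ∀ X ∈ S, ((f X).card : ℝ) ≤ K) : ((S.biUnion f).card : ℝ) ≤ l * K := by
  have h1 : ((S.biUnion f).card : ℝ) ≤ ∑ X ∈ S, ((f X).card : ℝ) := by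
    have := card_biUnion_le (s := S) (t := f)
    exact_mod_cast this
  have h2 : ∑ X ∈ S, ((f X).card : ℝ) ≤ ∑ _X ∈ S, K := sum_le_sum hf
  rw [sum_const, nsmul_eq_mul] at h2
  exact (h1.trans h2).trans (mul_le_mul_of_nonneg_right hS hK)

open Classical in
/-- **A4.** Proof. `8 M ≤ Z` as in `B2` of `H96G`; the scales `S` from `B1` of `H96G` (at most `5 log (8n)` of them, all
with `Sc n M B X Z`). The set is contained in the union over `X, X' ∈ S` of the sets of `A3_pairs` (the intervals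
`Ico (2X) (3X)` cover `Icc (4Z) n`): at most `25 (log (8n))² n^(2-c/2) ≤ n^(2-c/3)` (`Nm.lg`). -/
theorem A4_pairs {n M : ℕ} {L : ℕ → ℤ → ℝ} {c B b : ℝ} (hN : Nm n b) (h : GC n M L c B b)
    {Z : ℕ} (hZ : M ∣ Z) (hlo : (n : ℝ) ^ (1 - B) ≤ Z) :
    (((Icc (4 * Z) n ×ˢ Icc (4 * Z) n).filter fun p => FC Z p.1 p.2).card : ℝ) ≤
      (n : ℝ) ^ (2 - c / 3) := by
  have hb := h.hb
  have hB := h.hB
  have hc := h.hc
  have hb0 := h.b_pos
  have hl := hN.ell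
  have hl0 : 0 ≤ Real.log (8 * n) := by linarith
  have h8 : 8 * M ≤ Z := by
    have h1 : 8 * (n : ℝ) ^ (1 / 2 : ℝ) ≤ (n : ℝ) ^ (1 - B) := hN.cst (by norm_num) (by linarith)
    have h2 : (8 : ℝ) * M ≤ Z := by linarith [h.Mn]
    exact_mod_cast h2
  obtain ⟨S, hS1, hS2, hS3⟩ := B1 n M Z h.M1 hZ h8
  have hSc : ∀ X ∈ S, Sc n M B X Z := fun X hX => ⟨(hS1 X hX).1, hZ, hlo, (hS1 X hX).2.1, (hS1 X hX).2.2⟩
  have hp1 := hN.ppos (2 - c / 2)
  obtain ⟨f, hf⟩ : ∃ f : ℕ → ℕ → Finset (ℕ × ℕ), f = fun X X' =>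
      (Ico (2 * X) (3 * X) ×ˢ Ico (2 * X') (3 * X')).filter fun p => FC Z p.1 p.2 := ⟨_, rfl⟩
  have hsub : ((Icc (4 * Z) n ×ˢ Icc (4 * Z) n).filter fun p => FC Z p.1 p.2) ⊆
      S.biUnion fun X => S.biUnion (f X) := by
    intro p hp
    rw [mem_filter, mem_product, mem_Icc, mem_Icc] at hp
    obtain ⟨⟨h1, h2⟩, h3⟩ := hp
    obtain ⟨X, hX, hX2⟩ := hS3 _ h1.1 h1.2
    obtain ⟨X', hX', hX2'⟩ := hS3 _ h2.1 h2.2
    rw [mem_biUnion]
    refine ⟨X, hX, ?_⟩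
    rw [mem_biUnion]
    refine ⟨X', hX', ?_⟩
    rw [hf]
    simp only [mem_filter, mem_product]
    exact ⟨⟨hX2, hX2'⟩, h3⟩
  have h2 : ((S.biUnion fun X => S.biUnion (f X)).card : ℝ) ≤
      5 * Real.log (8 * n) * (5 * Real.log (8 * n) * (n : ℝ) ^ (2 - c / 2)) := by
    refine a4_card hS2 (by positivity) fun X hX => a4_card hS2 hp1.le fun X' hX' => ?_
    rw [hf]
    exact A3_pairs hN h (hSc X hX) (hSc X' hX')
  have h1 : (((Icc (4 * Z) n ×ˢ Icc (4 * Z) n).filter fun p => FC Z p.1 p.2).card : ℝ) ≤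
      (S.biUnion fun X => S.biUnion (f X)).card := by
    exact_mod_cast card_le_card hsub
  have h3 : 25 * (Real.log (8 * n)) ^ 2 * (n : ℝ) ^ (2 - c / 2) ≤ (n : ℝ) ^ (2 - c / 3) :=
    hN.lg (by norm_num) (by norm_num) (by linarith)
  have h4 : 5 * Real.log (8 * n) * (5 * Real.log (8 * n) * (n : ℝ) ^ (2 - c / 2)) =
      25 * (Real.log (8 * n)) ^ 2 * (n : ℝ) ^ (2 - c / 2) := by ring
  rw [h4] at h2
  exact (h1.trans h2).trans h3

open Classical in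
/-- Markov's inequality. Proof. Double counting (`Finset.card_filter`, `Finset.sum_product`): the number of `x ∈ I` with more
than `K` partners times `K` is at most the number of pairs. -/
theorem A4_markov (I : Finset ℕ) (R : ℕ → ℕ → Prop) (T K : ℝ) (hK : 0 < K)
    (h : (((I ×ˢ I).filter fun p => R p.1 p.2).card : ℝ) ≤ T) :
    ((I.filter fun x => ¬ ((I.filter fun x' => R x x').card : ℝ) ≤ K).card : ℝ) ≤ T / K := by
  obtain ⟨G, hG⟩ : ∃ G : Finset ℕ, G = I.filter fun x => ¬ ((I.filter fun x' => R x x').card : ℝ) ≤ K :=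
    ⟨_, rfl⟩
  rw [← hG, le_div_iff₀ hK]
  refine le_trans ?_ h
  have h1 : ((I ×ˢ I).filter fun p => R p.1 p.2).card = ∑ x ∈ I, (I.filter fun x' => R x x').card := by
    rw [card_filter, sum_product]
    exact sum_congr rfl fun x _ => by rw [card_filter]
  rw [h1]
  push_cast
  have h2 : ∑ x ∈ G, ((I.filter fun x' => R x x').card : ℝ) ≤
      ∑ x ∈ I, ((I.filter fun x' => R x x').card : ℝ) := by
    refine sum_le_sum_of_subset_of_nonneg ?_ fun x _ _ => Nat.cast_nonneg _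
    rw [hG]
    exact filter_subset _ _
  refine le_trans ?_ h2
  have h3 : ∑ _x ∈ G, K ≤ ∑ x ∈ G, ((I.filter fun x' => R x x').card : ℝ) := by
    refine sum_le_sum fun x hx => ?_
    rw [hG, mem_filter] at hx
    exact (not_le.mp hx.2).le
  rw [sum_const, nsmul_eq_mul] at h3
  exact h3

/-- **Generic vertices for the mixed relation.** Proof. `A4_pairs`; `A4_markov` with `I = Icc (4Z) n`, `T = n^(2-c/3)`,
`K = n^(1-c/6)`, for `R = FC Z` and for the transposed relation: `Γ` = the `x ∈ I` with at most `n^(1-c/6)` partners on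
both sides, `(I \ Γ).card ≤ 2 n^(1-c/6) ≤ n^(1-c/7)` (`Nm.cst`; `c/6 - c/7 = c/42 ≥ b/2`). -/
theorem A4_gen {n M : ℕ} {L : ℕ → ℤ → ℝ} {c B b : ℝ} (hN : Nm n b) (h : GC n M L c B b)
    {Z : ℕ} (hZ : M ∣ Z) (hlo : (n : ℝ) ^ (1 - B) ≤ Z) :
    ∃ Γ : Finset ℕ, PC n Z ((n : ℝ) ^ (1 - c / 7)) Γ := by
  classical
  have hb := h.hb
  have hB := h.hB
  have hc := h.hc
  have hb0 := h.b_pos
  have e1 := A4_pairs hN h hZ hlo
  have e2 : (((Icc (4 * Z) n ×ˢ Icc (4 * Z) n).filter fun p : ℕ × ℕ => FC Z p.2 p.1).card : ℝ) ≤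
      (n : ℝ) ^ (2 - c / 3) := by
    refine le_trans ?_ e1
    have : ((Icc (4 * Z) n ×ˢ Icc (4 * Z) n).filter fun p : ℕ × ℕ => FC Z p.2 p.1).card ≤
        ((Icc (4 * Z) n ×ˢ Icc (4 * Z) n).filter fun p : ℕ × ℕ => FC Z p.1 p.2).card := by
      refine card_le_card_of_injOn Prod.swap ?_ Prod.swap_injective.injOn
      intro p hp
      rw [mem_coe, mem_filter, mem_product] at hp
      rw [mem_coe, mem_filter, mem_product]
      exact ⟨⟨hp.1.2, hp.1.1⟩, hp.2⟩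
    exact_mod_cast this
  have hK := hN.ppos (1 - c / 6)
  have m1 := A4_markov (Icc (4 * Z) n) (FC Z) _ _ hK e1
  have m2 := A4_markov (Icc (4 * Z) n) (fun x x' => FC Z x' x) _ _ hK e2
  have hq : (n : ℝ) ^ (2 - c / 3) / (n : ℝ) ^ (1 - c / 6) = (n : ℝ) ^ (1 - c / 6) := by
    rw [div_eq_iff hK.ne', hN.mul]
    congr 1
    ring
  rw [hq] at m1 m2
  have hn : (n : ℝ) ^ (1 - c / 6) ≤ (n : ℝ) ^ (1 - c / 7) := hN.mono (by linarith)
  have hn2 : 2 * (n : ℝ) ^ (1 - c / 6) ≤ (n : ℝ) ^ (1 - c / 7) := hN.cst (by norm_num) (by linarith)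
  refine ⟨(Icc (4 * Z) n).filter fun x =>
    (((Icc (4 * Z) n).filter fun x' => FC Z x x').card : ℝ) ≤ (n : ℝ) ^ (1 - c / 6) ∧
    (((Icc (4 * Z) n).filter fun x' => FC Z x' x).card : ℝ) ≤ (n : ℝ) ^ (1 - c / 6), ?_, ?_, ?_, ?_⟩
  · exact filter_subset _ _
  · have hsub : (Icc (4 * Z) n) \ ((Icc (4 * Z) n).filter fun x =>
        (((Icc (4 * Z) n).filter fun x' => FC Z x x').card : ℝ) ≤ (n : ℝ) ^ (1 - c / 6) ∧
        (((Icc (4 * Z) n).filter fun x' => FC Z x' x).card : ℝ) ≤ (n : ℝ) ^ (1 - c / 6)) ⊆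
        ((Icc (4 * Z) n).filter fun x => ¬ (((Icc (4 * Z) n).filter fun x' => FC Z x x').card : ℝ) ≤
          (n : ℝ) ^ (1 - c / 6)) ∪
        ((Icc (4 * Z) n).filter fun x => ¬ (((Icc (4 * Z) n).filter fun x' => FC Z x' x).card : ℝ) ≤
          (n : ℝ) ^ (1 - c / 6)) := by
      intro u hu
      rw [mem_sdiff, mem_filter] at hu
      obtain ⟨hu1, hu2⟩ := hu
      rw [mem_union, mem_filter, mem_filter]
      by_cases hc1 : (((Icc (4 * Z) n).filter fun x' => FC Z u x').card : ℝ) ≤ (n : ℝ) ^ (1 - c / 6)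
      · right
        exact ⟨hu1, fun hc2 => hu2 ⟨hu1, hc1, hc2⟩⟩
      · left
        exact ⟨hu1, hc1⟩
    have h1 := (card_le_card hsub).trans (card_union_le _ _)
    have h2 : (((Icc (4 * Z) n) \ ((Icc (4 * Z) n).filter fun x =>
        (((Icc (4 * Z) n).filter fun x' => FC Z x x').card : ℝ) ≤ (n : ℝ) ^ (1 - c / 6) ∧
        (((Icc (4 * Z) n).filter fun x' => FC Z x' x).card : ℝ) ≤ (n : ℝ) ^ (1 - c / 6))).card : ℝ) ≤
        (((Icc (4 * Z) n).filter fun x => ¬ (((Icc (4 * Z) n).filter fun x' => FC Z x x').card : ℝ) ≤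
          (n : ℝ) ^ (1 - c / 6)).card : ℝ) +
        (((Icc (4 * Z) n).filter fun x => ¬ (((Icc (4 * Z) n).filter fun x' => FC Z x' x).card : ℝ) ≤
          (n : ℝ) ^ (1 - c / 6)).card : ℝ) := by exact_mod_cast h1
    linarith
  · intro x hx
    rw [mem_filter] at hx
    exact hx.2.1.trans hn
  · intro x hx
    rw [mem_filter] at hx
    exact hx.2.2.trans hn

end Pool.Agent.Lib.H59V
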