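import Pool.Agent.Lib.H59V.X5
import Pool.Agent.Lib.H24Q.M9

/-!
# Project H59V, chunk X6 (M): the main terms at one level
-/

open Finset

namespace Pool.Agent.Lib.H59V

open Pool.Agent.Lib.H68T Pool.Agent.Lib.H18Q Pool.Agent.Lib.H59P Pool.Agent.Lib.H24P
  Pool.Agent.Lib.H24Q

/-- **D7 with the mixed forms.** Proof. Copy of `main_terms` (`H24Q/D7.lean`) with one more pair of hypotheses, `X5_A` and
`X5_B`, treated exactly as `A4` and `B4` there (constants `a4, k4`, `b4, l4`, `c = 1/36`): `K` is the maximum of all the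
constants `k`, `l`, `c1` the minimum of `cb` and of all the constants `a`, `b`, `cs` the minimum of `c4, c2, c3, 1/36`; losses
`4 c6 + 2 ε`; `X5_mono` for `LowF_mono`. -/
theorem X6_terms (C4 c4 C2 c2 : ℝ) (B : ℕ) (hC4 : 1 ≤ C4) (hc4 : 0 < c4) (hC2 : 1 ≤ C2)
    (hc2 : 0 < c2) (h4 : HF C4 c4 B L4) (h2 : HF C2 c2 B L2) (hA : Thm3A) (hB : Thm3B)
    (K0 : ℝ) (hK0 : 1 ≤ K0) : ∃ Cr : ℝ, 1 ≤ Cr ∧ ∀ ρ cb : ℝ, 0 < ρ → 0 < cb →
    ∃ c0 : ℝ, 0 < c0 ∧ ∃ N0 : ℕ, ∀ N : ℕ, N0 ≤ N → ∃ Q : ℕ, K0 * Real.log Q ≤ Real.log N ∧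
      Real.log N ≤ Cr * Real.log Q ∧
      (∀ Y : ℕ, N ≤ Y ^ 2 → Y ≤ N ^ 2 → RegP K0 Q Y) ∧
      ∃ c : ℝ, c0 ≤ c ∧ c ≤ cb ∧ MT Q N c (ρ * c) ∧ MixLow Q N c (ρ * c) := by
  obtain ⟨a1, k1, ha1, hk1, A4⟩ := D4_A 4 2 B (by norm_num) L4 C4 c4 hC4 hc4 h4
  obtain ⟨a2, k2, ha2, hk2, A2⟩ := D4_A 2 1 B (by norm_num) L2 C2 c2 hC2 hc2 h2
  obtain ⟨a3, k3, ha3, hk3, A3⟩ := hA
  obtain ⟨b1, l1, hb1, hl1, B4⟩ := D4_B 4 2 B (by norm_num) L4 C4 c4 hC4 hc4 h4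
  obtain ⟨b2, l2, hb2, hl2, B2⟩ := D4_B 2 1 B (by norm_num) L2 C2 c2 hC2 hc2 h2
  obtain ⟨b3, c3, l3, hb3, hc3, hl3, B3⟩ := hB
  obtain ⟨a4, k4, ha4, hk4, A5⟩ := X5_A
  obtain ⟨b4, l4, hb4, hl4, B5⟩ := X5_B
  obtain ⟨K', hKd⟩ : ∃ K : ℝ, K = max K0 (max (max k1 (max k2 k3)) (max l1 (max l2 l3))) := ⟨_, rfl⟩
  obtain ⟨K, hKd'⟩ : ∃ K : ℝ, K = max K' (max k4 l4) := ⟨_, rfl⟩
  have hKK : K' ≤ K := by rw [hKd']; exact le_max_left _ _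
  have hk4K : k4 ≤ K := by rw [hKd']; exact le_max_of_le_right (le_max_left _ _)
  have hl4K : l4 ≤ K := by rw [hKd']; exact le_max_of_le_right (le_max_right _ _)
  have hK1 : K0 ≤ K := by refine le_trans ?_ hKK; rw [hKd]; exact le_max_left _ _
  have hk1K : k1 ≤ K := by
    refine le_trans ?_ hKK
    rw [hKd]; exact le_max_of_le_right (le_max_of_le_left (le_max_left _ _))
  have hk2K : k2 ≤ K := by
    refine le_trans ?_ hKK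
    rw [hKd]; exact le_max_of_le_right (le_max_of_le_left (le_max_of_le_right (le_max_left _ _)))
  have hk3K : k3 ≤ K := by
    refine le_trans ?_ hKK
    rw [hKd]; exact le_max_of_le_right (le_max_of_le_left (le_max_of_le_right (le_max_right _ _)))
  have hl1K : l1 ≤ K := by
    refine le_trans ?_ hKK
    rw [hKd]; exact le_max_of_le_right (le_max_of_le_right (le_max_left _ _))
  have hl2K : l2 ≤ K := by
    refine le_trans ?_ hKK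
    rw [hKd]; exact le_max_of_le_right (le_max_of_le_right (le_max_of_le_right (le_max_left _ _)))
  have hl3K : l3 ≤ K := by
    refine le_trans ?_ hKK
    rw [hKd]; exact le_max_of_le_right (le_max_of_le_right (le_max_of_le_right (le_max_right _ _)))
  have hK : 1 ≤ K := hK0.trans hK1
  obtain ⟨Cr, hCr, X0, hlev⟩ := L_levels 1 (1 / 16) K (by norm_num) hK
  refine ⟨Cr, hCr, fun ρ cb hρ hcb => ?_⟩
  -- the parameters
  obtain ⟨ρ1, hρ1⟩ : ∃ ρ1 : ℝ, ρ1 = min ρ 1 := ⟨_, rfl⟩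
  have hρ10 : 0 < ρ1 := by rw [hρ1]; exact lt_min hρ one_pos
  have hρ1ρ : ρ1 ≤ ρ := by rw [hρ1]; exact min_le_left _ _
  have hρ11 : ρ1 ≤ 1 := by rw [hρ1]; exact min_le_right _ _
  obtain ⟨c1', hc1', hc1cb', hca1', hca2', hca3', hcb1', hcb2', hcb3'⟩ : ∃ c1 : ℝ, 0 < c1 ∧ c1 ≤ cb ∧ c1 ≤ a1 ∧
      c1 ≤ a2 ∧ c1 ≤ a3 ∧ c1 ≤ b1 ∧ c1 ≤ b2 ∧ c1 ≤ b3 :=
    ⟨min cb (min (min a1 (min a2 a3)) (min b1 (min b2 b3))),
      lt_min hcb (lt_min (lt_min ha1 (lt_min ha2 ha3)) (lt_min hb1 (lt_min hb2 hb3))),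
      min_le_left _ _,
      (min_le_right _ _).trans ((min_le_left _ _).trans (min_le_left _ _)),
      (min_le_right _ _).trans ((min_le_left _ _).trans ((min_le_right _ _).trans (min_le_left _ _))),
      (min_le_right _ _).trans ((min_le_left _ _).trans ((min_le_right _ _).trans (min_le_right _ _))),
      (min_le_right _ _).trans ((min_le_right _ _).trans (min_le_left _ _)),
      (min_le_right _ _).trans ((min_le_right _ _).trans ((min_le_right _ _).trans (min_le_left _ _))),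
      (min_le_right _ _).trans ((min_le_right _ _).trans ((min_le_right _ _).trans (min_le_right _ _)))⟩
  obtain ⟨c1, hc1, hc1c, hca4, hcb4⟩ : ∃ c1 : ℝ, 0 < c1 ∧ c1 ≤ c1' ∧ c1 ≤ a4 ∧ c1 ≤ b4 :=
    ⟨min c1' (min a4 b4), lt_min hc1' (lt_min ha4 hb4), min_le_left _ _,
      (min_le_right _ _).trans (min_le_left _ _), (min_le_right _ _).trans (min_le_right _ _)⟩
  have hc1cb := hc1c.trans hc1cb'
  have hca1 := hc1c.trans hca1'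
  have hca2 := hc1c.trans hca2'
  have hca3 := hc1c.trans hca3'
  have hcb1 := hc1c.trans hcb1'
  have hcb2 := hc1c.trans hcb2'
  have hcb3 := hc1c.trans hcb3'
  obtain ⟨cs', hcs', hcs4', hcs2', hcs3'⟩ : ∃ cs : ℝ, 0 < cs ∧ cs ≤ c4 ∧ cs ≤ c2 ∧ cs ≤ c3 :=
    ⟨min c4 (min c2 c3), lt_min hc4 (lt_min hc2 hc3), min_le_left _ _,
      (min_le_right _ _).trans (min_le_left _ _), (min_le_right _ _).trans (min_le_right _ _)⟩
  obtain ⟨cs, hcs, hcsc, hcs5⟩ : ∃ cs : ℝ, 0 < cs ∧ cs ≤ cs' ∧ cs ≤ 1 / 36 :=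
    ⟨min cs' (1 / 36), lt_min hcs' (by norm_num), min_le_left _ _, min_le_right _ _⟩
  have hcs4 := hcsc.trans hcs4'
  have hcs2 := hcsc.trans hcs2'
  have hcs3 := hcsc.trans hcs3'
  obtain ⟨c6, hc6⟩ : ∃ c6 : ℝ, c6 = ρ1 * c1 / 16 := ⟨_, rfl⟩
  have hc60 : 0 < c6 := by rw [hc6]; positivity
  have hρc : ρ1 * c1 ≤ c1 := by nlinarith
  have hρc0 : 0 < ρ1 * c1 := by positivity
  have hρc2 : ρ1 * c1 ≤ ρ * c1 := mul_le_mul_of_nonneg_right hρ1ρ hc1.le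
  obtain ⟨cB, hcB⟩ : ∃ cB : ℝ, cB = min c1 (cs * c6 / 2) / 2 := ⟨_, rfl⟩
  have hcB0 : 0 < cB := by
    rw [hcB]
    have : 0 < min c1 (cs * c6 / 2) := lt_min hc1 (by positivity)
    linarith
  have hcB1 : 2 * cB ≤ c1 := by
    rw [hcB]
    linarith [min_le_left c1 (cs * c6 / 2)]
  obtain ⟨ε, hε⟩ : ∃ ε : ℝ, ε = ρ1 * cB / 4 := ⟨_, rfl⟩
  have hε0 : 0 < ε := by rw [hε]; positivity
  have hρB : ρ1 * cB ≤ cB := by nlinarith
  have hρB2 : ρ1 * cB ≤ ρ * cB := mul_le_mul_of_nonneg_right hρ1ρ hcB0.le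
  obtain ⟨Q1, A4⟩ := A4 c6 (c6 / 8) hc60 (by positivity) (by push_cast; linarith)
  obtain ⟨Q2, A2⟩ := A2 c6 (c6 / 8) hc60 (by positivity) (by push_cast; linarith)
  obtain ⟨Q3, A3⟩ := A3 c6 (c6 / 8) hc60 (by positivity) (by linarith) Cr
  obtain ⟨Q4, B4⟩ := B4 c6 ε hc60 hε0 (by linarith)
  obtain ⟨Q5, B2⟩ := B2 c6 ε hc60 hε0 (by linarith)
  obtain ⟨Q6, B3⟩ := B3 c6 ε hc60 hε0 (by linarith) Cr
  obtain ⟨Q7, A5⟩ := A5 c6 (c6 / 8) hc60 (by positivity) (by linarith)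
  obtain ⟨Q8, B5⟩ := B5 c6 ε hc60 hε0 (by linarith)
  obtain ⟨Qm, hQm2, hq1, hq2, hq3, hq4, hq5, hq6, hq7, hq8⟩ : ∃ Qm : ℕ, 2 ≤ Qm ∧ Q1 ≤ Qm ∧ Q2 ≤ Qm ∧ Q3 ≤ Qm ∧
      Q4 ≤ Qm ∧ Q5 ≤ Qm ∧ Q6 ≤ Qm ∧ Q7 ≤ Qm ∧ Q8 ≤ Qm := ⟨2 + Q1 + Q2 + Q3 + Q4 + Q5 + Q6 + Q7 + Q8, by omega, by omega,
        by omega, by omega, by omega, by omega, by omega, by omega, by omega⟩
  refine ⟨cB, hcB0, max X0 ⌈Real.exp (Cr * Real.log Qm)⌉₊, fun N hN => ?_⟩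
  obtain ⟨Q, hKQ, hCQ, hReg, hL⟩ := hlev N ((le_max_left _ _).trans hN)
  have hlQ0 : 0 ≤ Real.log Q := Real.log_natCast_nonneg Q
  have hQQ : Qm ≤ Q := by
    have h1 : Real.exp (Cr * Real.log Qm) ≤ N :=
      (Nat.le_ceil _).trans (by exact_mod_cast (le_max_right _ _).trans hN)
    have hN0 : (0 : ℝ) < N := lt_of_lt_of_le (Real.exp_pos _) h1
    have h2 : Cr * Real.log Qm ≤ Real.log N := (Real.le_log_iff_exp_le hN0).2 h1
    have h3 : Real.log Qm ≤ Real.log Q := by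
      have h4 : Cr * Real.log Qm ≤ Cr * Real.log Q := h2.trans hCQ
      exact le_of_mul_le_mul_left h4 (by linarith)
    have h5 : 0 < Real.log Qm := Real.log_pos (by exact_mod_cast (show 1 < Qm by omega))
    have hQ0 : 0 < Q := by
      rcases Nat.eq_zero_or_pos Q with h | h
      · rw [h, Nat.cast_zero, Real.log_zero] at h3
        linarith
      · exact h
    have h6 : (Qm : ℝ) ≤ Q := (Real.log_le_log_iff (by exact_mod_cast (show 0 < Qm by omega))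
      (by exact_mod_cast hQ0)).1 h3
    exact_mod_cast h6
  have hQ1 : 1 ≤ Q := by omega
  have hk : ∀ k : ℝ, k ≤ K → k * Real.log Q ≤ Real.log N := fun k hk =>
    (mul_le_mul_of_nonneg_right hk hlQ0).trans hKQ
  have hK00 : (0 : ℝ) ≤ K := by linarith
  refine ⟨Q, hk K0 hK1, hCQ, fun Y h1 h2 => ?_, ?_⟩
  · obtain ⟨e1, e2⟩ := hReg Y h1 h2
    exact e1.mono hK00 hK1
  · have hAB : LvA Q N (1 / 16) c6 ∨ LvB Q N (1 / 16) c6 := by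
      rcases hL with hg | ⟨r, hr, ψ, β, η, e1, e2, e3, e4, e5, e6, e7, hM⟩
      · exact Or.inl (Or.inl hg)
      · rcases le_or_gt (r : ℝ) ((Q : ℝ) ^ c6) with h | h
        · exact Or.inl (Or.inr ⟨r, hr, ψ, β, η, h, e1, e2, e3, e4, e5, e6, e7, hM⟩)
        · exact Or.inr ⟨r, hr, ψ, β, η, h, e1, e2, e3, e4, e5, e6, e7, hM⟩
    rcases hAB with hLA | hLB
    · refine ⟨c1, by linarith, hc1cb, D6_MT Q N c1 (ρ * c1) ?_ ?_ ?_,
        X5_mono hQ1 (A5 Q N (by omega) (hk k4 hk4K) hLA) hca4 (by linarith)⟩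
      · refine LowF_mono hQ1 (A4 Q N (by omega) (hk k1 hk1K) hLA) hca1 ?_
        push_cast
        linarith
      · refine Low3_mono hQ1 (A3 Q N (by omega) (hk k3 hk3K) hCQ hLA) hca3 ?_
        linarith
      · refine LowF_mono hQ1 (A2 Q N (by omega) (hk k2 hk2K) hLA) hca2 ?_
        push_cast
        linarith
    · have hmin : ∀ b c : ℝ, c1 ≤ b → cs ≤ c → cB ≤ min b (c * c6 / 2) / 2 := by
        intro b c hb hc
        rw [hcB]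
        have h1 : cs * c6 / 2 ≤ c * c6 / 2 := by
          have := mul_le_mul_of_nonneg_right hc hc60.le
          linarith
        have h2 := min_le_min hb h1
        linarith
      refine ⟨cB, le_rfl, by linarith, D6_MT Q N cB (ρ * cB) ?_ ?_ ?_,
        X5_mono hQ1 (B5 Q N (by omega) (hk l4 hl4K) hLB) (hmin b4 (1 / 36) hcb4 hcs5) (by linarith)⟩
      · exact LowF_mono hQ1 (B4 Q N (by omega) (hk l1 hl1K) hLB) (hmin b1 c4 hcb1 hcs4) (by linarith)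
      · exact Low3_mono hQ1 (B3 Q N (by omega) (hk l3 hl3K) hCQ hLB) (hmin b3 c3 hcb3 hcs3) (by linarith)
      · exact LowF_mono hQ1 (B2 Q N (by omega) (hk l2 hl2K) hLB) (hmin b2 c2 hcb2 hcs2) (by linarith)

/-- **The main terms.** Proof. As `module_F` and `F_all` (`H24Q/M8.lean`, `H24Q/M9.lean`), with `X6_terms`. -/
theorem X6_all (K0 : ℝ) (hK0 : 1 ≤ K0) : ∃ Cr : ℝ, 1 ≤ Cr ∧ ∀ ρ cb : ℝ, 0 < ρ → 0 < cb →
    ∃ c0 : ℝ, 0 < c0 ∧ ∃ N0 : ℕ, ∀ N : ℕ, N0 ≤ N → ∃ Q : ℕ, K0 * Real.log Q ≤ Real.log N ∧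
      Real.log N ≤ Cr * Real.log Q ∧
      (∀ Y : ℕ, N ≤ Y ^ 2 → Y ≤ N ^ 2 → RegP K0 Q Y) ∧
      ∃ c : ℝ, c0 ≤ c ∧ c ≤ cb ∧ MT Q N c (ρ * c) ∧ MixLow Q N c (ρ * c) := by
  obtain ⟨C4, hC4, hFG⟩ := H59T.F6_FG
  obtain ⟨C2, hC2, hFW⟩ := H59T.F6_FW
  obtain ⟨Ca, hCa, hfb4⟩ := D0_fb4
  obtain ⟨Cb, hCb, hfb2⟩ := D0_fb2
  obtain ⟨Cc, hCc, hfw2⟩ := D0_fw2
  have h4 := D0_HF L4 C4 (1 / 36) Ca 40 hC4 hCa hfb4 hFG
  have h2 := D0_HF L2 C2 (1 / 72) Cb 40 hC2 hCb hfb2 (fun Q hQ b s hs => M8_FG (hFW Q hQ b s hs))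
  have h3 := D0_HW L2 B23 C2 (1 / 72) Cc 40 hC2 hCc hfw2 hFW
  exact X6_terms (max C4 Ca) (1 / 36) (max C2 Cb) (1 / 72) (2 * 40) (le_max_of_le_left hC4) (by norm_num)
    (le_max_of_le_left hC2) (by norm_num) h4 h2
    (M7_A (2 * 40) (max C2 Cc) (1 / 72) (le_max_of_le_left hC2) (by norm_num) h3)
    (M7_B (2 * 40) (max C2 Cc) (1 / 72) (le_max_of_le_left hC2) (by norm_num) h3) K0 hK0

end Pool.Agent.Lib.H59V
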