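import Pool.Agent.Lib.H59V.O3
import Pool.Agent.Lib.H59V.X6
import Pool.Agent.Lib.H37T.A6

/-!
# Project H59V, chunk Asm (M): the input at all large sizes
-/

open Finset

namespace Pool.Agent.Lib.H59V

open Pool.Agent.Lib.H68T (lp Lk)
open Pool.Agent.Lib.H18Q (RegP)
open Pool.Agent.Lib.H96G
open Pool.Agent.Lib.H24Q (KL MT)

/-- **The input.** Proof. As `gin` (`H37T/G0.lean`), with `K0 = max (max K1 K2) (max K3 1700)` (`K3` from `O3_main invS`), `X6_all` for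
`F_all`, `cop` the smaller one of the two constants of `hOP` and of `O3_main`, and `M = 3 * Q^800`, `L X = Lk Q (X / Q ^ 2)`,
`B = c/100`, `b = c/10000`; but `ρ = 1/20000` in `X6_all`, so that `Z Q^(-ρ cF)/3 ≥ Z n^(-c/20000)/3 ≥ Z n^(-c/10000)` for `n`
large (`n^(c/20000) ≥ n^(c00) ≥ 3` with a constant `c00 > 0` depending only on `cF0`, `Cr`), and also
`Z Q^(-ρ cF) ≥ Z n^(-c/10000)` in the fields `m4`, `m3`. The fields of `GIn` as there (`Sc n (3 * Q^800) B X Z` implies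
`Sc n (Q^800) B X Z`; `M3`; `3 Q^800 ≤ Q^801 ≤ n^(1/2)` because `3 ≤ Q` for `n` large and `K0 ≥ 1700`). `bd3`: `BDL_bd` for `X/3`
(`n ≤ (X/3)²`: `X/3 ≥ 2 n^(1-B)/3 ≥ n^(1/2)` for `n` large, so `RegP K0 Q (X/3)`). `opC`: `O3_main`. `m4C`: `MixLow` (`9 n ≤ Z²`
for `n` large; `3 Q^40 ∣ 3 Q^800`), `KC Q X' x' y = kmC (Lk Q (X'/Q²)) (Lk Q (X'/3/Q²)) x' y` and `KL = km` by definition. -/
theorem gc_all : ∃ c0 : ℝ, 0 < c0 ∧ ∃ n1 : ℕ, ∀ n : ℕ, n1 ≤ n →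
    ∃ (M : ℕ) (L : ℕ → ℤ → ℝ) (c B b : ℝ), c0 ≤ b ∧ GC n M L c B b := by
  have invS' : Pool.Agent.H9S.INV := Pool.Agent.H37T.inv
  obtain ⟨K1, hK1, hOP⟩ := Pool.Agent.H9S.OP_main invS'
  obtain ⟨K2, hK2, hbd⟩ := Pool.Agent.H9S.BDL_bd
  obtain ⟨K3, hK3, hOC⟩ := O3_main invS'
  obtain ⟨K0, hK0⟩ : ∃ K0 : ℝ, K0 = max (max K1 K2) (max K3 1700) := ⟨_, rfl⟩
  have hK01 : K1 ≤ K0 := by rw [hK0]; exact (le_max_left _ _).trans (le_max_left _ _)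
  have hK02 : K2 ≤ K0 := by rw [hK0]; exact (le_max_right _ _).trans (le_max_left _ _)
  have hK03 : K3 ≤ K0 := by rw [hK0]; exact (le_max_left _ _).trans (le_max_right _ _)
  have hK04 : 1700 ≤ K0 := by rw [hK0]; exact (le_max_right _ _).trans (le_max_right _ _)
  have hK0p : 0 ≤ K0 := by linarith
  obtain ⟨Cr, hCr, hF⟩ := X6_all K0 (by linarith)
  obtain ⟨cop1, hcop1, nop1, hop1⟩ := hOP K0 hK01 Cr hCr
  obtain ⟨cop2, hcop2, nop2, hop2⟩ := hOC K0 hK03 Cr hCr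
  obtain ⟨cF0, hcF0, nF, hF2⟩ := hF (1 / 20000) (min (min cop1 cop2) 1) (by norm_num)
    (lt_min (lt_min hcop1 hcop2) one_pos)
  have hc0 : 0 < cF0 / (10000 * Cr) := by positivity
  obtain ⟨nb, hnb⟩ := hbd (cF0 / (10000 * Cr)) hc0
  have hev : ∀ e : ℝ, 0 < e → ∃ n3 : ℕ, ∀ n : ℕ, n3 ≤ n → (3:ℝ) ≤ (n:ℝ) ^ e := by
    intro e he
    exact Filter.eventually_atTop.1
      (((tendsto_rpow_atTop he).comp tendsto_natCast_atTop_atTop).eventually_ge_atTop 3)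
  obtain ⟨n3, hn3⟩ := hev (cF0 / Cr / 20000) (by positivity)
  obtain ⟨n4, hn4⟩ := hev (1 / Cr) (by positivity)
  refine ⟨cF0 / (10000 * Cr), hc0, max (max (max nop1 nop2) nF) (max (max nb 81) (max n3 n4)), fun n hn => ?_⟩
  have hna : nop1 ≤ n := by omega
  have hnb' : nop2 ≤ n := by omega
  have hnc : nF ≤ n := by omega
  have hnd : nb ≤ n := by omega
  have hne : 81 ≤ n := by omega
  have hnf : n3 ≤ n := by omega
  have hng : n4 ≤ n := by omega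
  have hnR : (81:ℝ) ≤ n := by exact_mod_cast hne
  have hn0 : (0:ℝ) < n := by linarith
  have hn1' : (1:ℝ) ≤ n := by linarith
  have hlogn : 0 < Real.log n := Real.log_pos (by linarith)
  obtain ⟨Q, hQ1, hQ2, hreg, cF, hcF1, hcF2, hMT, hMix⟩ := hF2 n hnc
  have hcFp : 0 < cF := lt_of_lt_of_le hcF0 hcF1
  have hlogQ : 0 < Real.log Q := by
    by_contra hcon
    have : Cr * Real.log Q ≤ 0 := mul_nonpos_of_nonneg_of_nonpos (by linarith) (not_lt.1 hcon)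
    linarith
  have hQpos : 1 ≤ Q := by
    by_contra hcon
    have hQ0 : Q = 0 := by omega
    rw [hQ0, Nat.cast_zero, Real.log_zero] at hlogQ
    exact lt_irrefl _ hlogQ
  have hQR : (1:ℝ) ≤ Q := by exact_mod_cast hQpos
  have hQ0 : (0:ℝ) < Q := by linarith
  obtain ⟨lam, hlam⟩ : ∃ lam : ℝ, lam = Real.log Q / Real.log n := ⟨_, rfl⟩
  have hlamp : 0 < lam := by rw [hlam]; positivity
  have hlam1 : lam ≤ 1 := by
    rw [hlam, div_le_one hlogn]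
    nlinarith
  have hlamC : 1 / Cr ≤ lam := by
    rw [hlam, div_le_div_iff₀ (by linarith) hlogn]
    linarith
  have hnQ : (n:ℝ) ^ lam = Q := by
    rw [Real.rpow_def_of_pos hn0, hlam, mul_div_cancel₀ _ hlogn.ne', Real.exp_log hQ0]
  have hQn : ∀ x : ℝ, (Q:ℝ) ^ (-x) = (n:ℝ) ^ (-(x * lam)) := by
    intro x
    rw [← hnQ, ← Real.rpow_mul hn0.le]
    congr 1
    ring
  have hQ3 : (3:ℝ) ≤ Q := by
    rw [← hnQ]
    exact (hn4 n hng).trans (Real.rpow_le_rpow_of_exponent_le hn1' hlamC)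
  obtain ⟨c, hc⟩ : ∃ c : ℝ, c = cF * lam := ⟨_, rfl⟩
  have hcp : 0 < c := by rw [hc]; positivity
  have hccF : c ≤ cF := by rw [hc]; exact mul_le_of_le_one_right hcFp.le hlam1
  have hc1 : c ≤ 1 := hccF.trans (hcF2.trans (min_le_right _ _))
  have hcop1' : c ≤ cop1 := hccF.trans (hcF2.trans ((min_le_left _ _).trans (min_le_left _ _)))
  have hcop2' : c ≤ cop2 := hccF.trans (hcF2.trans ((min_le_left _ _).trans (min_le_right _ _)))
  have hcC : cF0 / Cr ≤ c := by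
    rw [hc]
    calc cF0 / Cr = cF0 * (1 / Cr) := by ring
      _ ≤ cF * lam := mul_le_mul hcF1 hlamC (by positivity) hcFp.le
  have hb0 : cF0 / (10000 * Cr) ≤ c / 10000 := by
    calc cF0 / (10000 * Cr) = cF0 / Cr / 10000 := by rw [div_div, mul_comm]
      _ ≤ c / 10000 := by linarith
  have hQc : (Q:ℝ) ^ (-cF) = (n:ℝ) ^ (-c) := by rw [hQn, hc]
  have hQb : (Q:ℝ) ^ (-(1 / 20000 * cF)) = (n:ℝ) ^ (-(c / 20000)) := by
    rw [hQn, hc]
    congr 1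
    ring
  have hn3b : (3:ℝ) ≤ (n:ℝ) ^ (c / 20000) :=
    (hn3 n hnf).trans (Real.rpow_le_rpow_of_exponent_le hn1' (by linarith))
  have hloss3 : (n:ℝ) ^ (-(c / 10000)) ≤ (n:ℝ) ^ (-(c / 20000)) / 3 := by
    have h1 : (n:ℝ) ^ (-(c / 20000)) = (n:ℝ) ^ (-(c / 10000)) * (n:ℝ) ^ (c / 20000) := by
      rw [← Real.rpow_add hn0]
      congr 1
      ring
    have h2 : 0 ≤ (n:ℝ) ^ (-(c / 10000)) := Real.rpow_nonneg hn0.le _
    rw [h1]
    nlinarith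
  have hloss : (n:ℝ) ^ (-(c / 10000)) ≤ (n:ℝ) ^ (-(c / 20000)) :=
    Real.rpow_le_rpow_of_exponent_le hn1' (by linarith)
  have hQX : Q ≤ n := by
    have h1 : Real.log Q ≤ Real.log n := by
      have : lam * Real.log n = Real.log Q := by rw [hlam, div_mul_cancel₀ _ hlogn.ne']
      nlinarith
    have h2 : (Q:ℝ) ≤ n := (Real.log_le_log_iff hQ0 hn0).1 h1
    exact_mod_cast h2
  -- scales
  have hsc : ∀ X Z : ℕ, Sc n (3 * Q ^ 800) (c / 100) X Z → 9 * n ≤ Z ^ 2 ∧ n ≤ Z ^ 2 ∧ n ≤ X ^ 2 ∧ X ≤ n ^ 2 ∧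
      1 ≤ Z ∧ 1 ≤ X ∧ n ≤ (X / 3) ^ 2 ∧ X / 3 ≤ n ^ 2 ∧ 1 ≤ X / 3 ∧ 3 ∣ X ∧ 3 ∣ Z := by
    intro X Z h
    have h1 : (n:ℝ) ^ (3 / 4 : ℝ) ≤ Z :=
      (Real.rpow_le_rpow_of_exponent_le hn1' (by linarith)).trans h.lo
    have h81 : (9:ℝ) ≤ (n:ℝ) ^ (1 / 2 : ℝ) := by
      have h0 : ((81:ℝ)) ^ (1 / 2 : ℝ) ≤ (n:ℝ) ^ (1 / 2 : ℝ) :=
        Real.rpow_le_rpow (by norm_num) hnR (by norm_num)
      have h9 : ((81:ℝ)) ^ (1 / 2 : ℝ) = 9 := by
        rw [show (81:ℝ) = 9 ^ (2:ℝ) by norm_num, ← Real.rpow_mul (by norm_num)]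
        norm_num
      linarith
    have h2 : 9 * (n:ℝ) ≤ (Z:ℝ) ^ 2 := by
      calc 9 * (n:ℝ) ≤ (n:ℝ) ^ (1 / 2 : ℝ) * n := by nlinarith
        _ = ((n:ℝ) ^ (3 / 4 : ℝ)) ^ 2 := by
            rw [← Real.rpow_natCast ((n:ℝ) ^ (3 / 4 : ℝ)), ← Real.rpow_mul hn0.le]
            nth_rewrite 2 [← Real.rpow_one (n:ℝ)]
            rw [← Real.rpow_add hn0]
            norm_num
        _ ≤ (Z:ℝ) ^ 2 := pow_le_pow_left₀ (Real.rpow_nonneg hn0.le _) h1 2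
    have h3 : 9 * n ≤ Z ^ 2 := by exact_mod_cast h2
    have h4 : 1 ≤ Z := by
      rcases Nat.eq_zero_or_pos Z with h5 | h5
      · rw [h5] at h3
        omega
      · exact h5
    have h5 := h.le
    have h6 := h.hi
    have h3X : 3 ∣ X := (Dvd.intro _ rfl).trans h.dX
    have h3Z : 3 ∣ Z := (Dvd.intro _ rfl).trans h.dZ
    obtain ⟨Y, hY⟩ := h3X
    have hXY : X / 3 = Y := by omega
    have h7 : X ≤ n ^ 2 := h6.trans (Nat.le_self_pow (by norm_num) n)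
    have h8 : Z ^ 2 ≤ X ^ 2 := Nat.pow_le_pow_left (by omega) 2
    refine ⟨h3, by omega, by omega, h7, h4, by omega, ?_, by omega, by omega, ⟨Y, hY⟩, h3Z⟩
    rw [hXY]
    have h9 : X ^ 2 = 9 * Y ^ 2 := by rw [hY]; ring
    omega
  have hregX : ∀ X Z : ℕ, Sc n (3 * Q ^ 800) (c / 100) X Z → RegP K0 Q X := by
    intro X Z h
    obtain ⟨-, h1, h2, h3, h4, h5, -⟩ := hsc X Z h
    exact hreg X h2 h3
  have hregX3 : ∀ X Z : ℕ, Sc n (3 * Q ^ 800) (c / 100) X Z → RegP K0 Q (X / 3) := by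
    intro X Z h
    obtain ⟨-, -, -, -, -, -, h1, h2, -⟩ := hsc X Z h
    exact hreg (X / 3) h1 h2
  have h40 : Q ^ 40 ∣ 3 * Q ^ 800 := (pow_dvd_pow Q (by norm_num)).trans (Dvd.intro_left _ rfl)
  have h800 : Q ^ 800 ∣ 3 * Q ^ 800 := Dvd.intro_left _ rfl
  have h340 : 3 * Q ^ 40 ∣ 3 * Q ^ 800 := mul_dvd_mul_left 3 (pow_dvd_pow Q (by norm_num))
  refine ⟨3 * Q ^ 800, fun X => Lk Q (X / Q ^ 2), c, c / 100, c / 10000, hb0, ?_⟩
  refine ⟨⟨by positivity, by linarith, by linarith, hc1, ?_, ?_, ?_, ?_, ?_, ?_⟩, Dvd.intro _ rfl, ?_, ?_, ?_⟩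
  · -- M1
    have := Nat.one_le_pow 800 Q hQpos
    omega
  · -- Mn
    push_cast
    have h1 : 3 * (Q:ℝ) ^ 800 ≤ (Q:ℝ) ^ 801 := by
      rw [pow_succ (Q:ℝ) 800, mul_comm]
      exact mul_le_mul_of_nonneg_left hQ3 (by positivity)
    have h2 : (Q:ℝ) ^ 801 = (n:ℝ) ^ (lam * 801) := by
      rw [Real.rpow_mul hn0.le, hnQ]
      norm_cast
    refine h1.trans ?_
    rw [h2]
    refine Real.rpow_le_rpow_of_exponent_le hn1' ?_
    have h3 : lam * 1700 ≤ 1 := by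
      rw [hlam, div_mul_eq_mul_div, div_le_one hlogn]
      nlinarith
    linarith
  · -- bd
    intro X Z h m hm1 hm2
    obtain ⟨-, h1, h2, h3, h4, h5, -⟩ := hsc X Z h
    have h6 := hnb n hnd Q X ((hregX X Z h).mono hK0p hK02) hQpos hQX h5 h.hi m hm1 hm2
    exact h6.trans (Real.rpow_le_rpow_of_exponent_le hn1' hb0)
  · -- op
    intro X Z h f g hf hg
    obtain ⟨-, h1, h2, h3, h4, h5, -⟩ := hsc X Z h
    have h6 := hop1 n Q hna hQ1 hQ2 X Z (hregX X Z h) h4 h.le h.hi f g hf hg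
    exact h6.trans (Real.rpow_le_rpow_of_exponent_le hn1' (by linarith))
  · -- m4
    intro X X' Z h h'
    obtain ⟨-, h1, h2, h3, h4, h5, -⟩ := hsc X Z h
    obtain ⟨Bad, hB1, hB2, hB3⟩ := hMT.m4 Z X X' (h40.trans h.dZ) (h40.trans h.dX) (h40.trans h'.dX) h1 h.le h'.le h.hi h'.hi
    refine le_trans (Nat.cast_le.2 (Finset.card_le_card (t := Bad) ?_)) (hB2.trans ?_)
    · intro p hp
      simp only [Finset.mem_filter, Finset.mem_product] at hp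
      obtain ⟨⟨hp1, hp2⟩, hp3, hp4⟩ := hp
      by_contra hcon
      have h7 := hB3 p.1 hp1 p.2 hp2 hcon hp3.1 hp3.2
      rw [hQb] at h7
      exact absurd hp4 (not_lt.2 ((mul_le_mul_of_nonneg_left hloss (Nat.cast_nonneg Z)).trans h7))
    rw [hQc]
    have hX : (X:ℝ) ≤ n := by exact_mod_cast h.hi
    have hX' : (X':ℝ) ≤ n := by exact_mod_cast h'.hi
    have h8 : 0 ≤ (n:ℝ) ^ (-c) := Real.rpow_nonneg hn0.le _
    calc (X:ℝ) * X' * (n:ℝ) ^ (-c) ≤ (n:ℝ) * n * (n:ℝ) ^ (-c) := by gcongr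
      _ = (n:ℝ) ^ (2 - c) := by
          rw [show (2:ℝ) - c = 2 + (-c) by ring, Real.rpow_add hn0, Real.rpow_two]
          ring
  · -- m3
    intro X Z h
    obtain ⟨-, h1, h2, h3, h4, h5, -⟩ := hsc X Z h
    obtain ⟨Bad, hB1, hB2, hB3⟩ := hMT.m3 Z X (h800.trans h.dZ) (h40.trans h.dX) h1 h.le h.hi
    refine le_trans (Nat.cast_le.2 (Finset.card_le_card (t := Bad) ?_)) (hB2.trans ?_)
    · intro x hx
      simp only [Finset.mem_filter] at hx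
      obtain ⟨hx1, hx2, hx3⟩ := hx
      by_contra hcon
      have h7 := hB3 x hx1 hcon hx2
      rw [hQb] at h7
      exact absurd hx3 (not_lt.2 ((mul_le_mul_of_nonneg_left hloss (Nat.cast_nonneg Z)).trans h7))
    rw [hQc]
    have hX : (X:ℝ) ≤ n := by exact_mod_cast h.hi
    have h8 : 0 ≤ (n:ℝ) ^ (-c) := Real.rpow_nonneg hn0.le _
    calc (X:ℝ) * (n:ℝ) ^ (-c) ≤ (n:ℝ) * (n:ℝ) ^ (-c) := by gcongr
      _ = (n:ℝ) ^ (1 - c) := by
          rw [show (1:ℝ) - c = 1 + (-c) by ring, Real.rpow_add hn0, Real.rpow_one]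
  · -- bd3
    intro X Z h m hm1 hm2
    obtain ⟨-, h1, h2, h3, h4, h5, h6, h7, h8, -⟩ := hsc X Z h
    have h9 : X / 3 ≤ n := (Nat.div_le_self X 3).trans h.hi
    have h10 := hnb n hnd Q (X / 3) ((hregX3 X Z h).mono hK0p hK02) hQpos hQX h8 h9 m hm1 hm2
    exact h10.trans (Real.rpow_le_rpow_of_exponent_le hn1' hb0)
  · -- opC
    intro X Z h f g hf hg
    obtain ⟨-, h1, h2, h3, h4, h5, -, -, -, h6, h7⟩ := hsc X Z h
    have h8 := hop2 n Q hnb' hQ1 hQ2 X Z h6 h7 (hregX X Z h) (hregX3 X Z h) h4 h.le h.hi f g hf hg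
    exact h8.trans (Real.rpow_le_rpow_of_exponent_le hn1' (by linarith))
  · -- m4C
    intro X X' Z h h'
    obtain ⟨h0, h1, h2, h3, h4, h5, -⟩ := hsc X Z h
    obtain ⟨Bad, hB1, hB2, hB3⟩ := hMix Z X X' (h340.trans h.dZ) (h340.trans h.dX) (h340.trans h'.dX) h0 h.le h'.le h.hi h'.hi
    refine le_trans (Nat.cast_le.2 (Finset.card_le_card (t := Bad) ?_)) (hB2.trans ?_)
    · intro p hp
      simp only [Finset.mem_filter, Finset.mem_product] at hp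
      obtain ⟨⟨hp1, hp2⟩, hp3, hp4⟩ := hp
      by_contra hcon
      have h7 := hB3 p.1 hp1 p.2 hp2 hcon hp3.1 hp3.2.1 hp3.2.2
      rw [hQb] at h7
      have h8 : (Z:ℝ) * (n:ℝ) ^ (-(c / 10000)) ≤ (Z:ℝ) / 3 * (n:ℝ) ^ (-(c / 20000)) := by
        have := mul_le_mul_of_nonneg_left hloss3 (Nat.cast_nonneg (α := ℝ) Z)
        linarith
      exact absurd hp4 (not_lt.2 (h8.trans h7))
    rw [hQc]
    have hX : (X:ℝ) ≤ n := by exact_mod_cast h.hi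
    have hX' : (X':ℝ) ≤ n := by exact_mod_cast h'.hi
    have h8 : 0 ≤ (n:ℝ) ^ (-c) := Real.rpow_nonneg hn0.le _
    calc (X:ℝ) * X' * (n:ℝ) ^ (-c) ≤ (n:ℝ) * n * (n:ℝ) ^ (-c) := by gcongr
      _ = (n:ℝ) ^ (2 - c) := by
          rw [show (2:ℝ) - c = 2 + (-c) by ring, Real.rpow_add hn0, Real.rpow_two]
          ring

end Pool.Agent.Lib.H59V
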