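import Pool.Agent.Lib.H96G.Defs
import Pool.Agent.Lib.H18C.ChenDefs

/-!
# Project H59V (MP_443e5f_co): few Chen edges give diameter five

The graph of project T (`H96G`, halved coordinates) with few Chen edges added. Besides the edges of type `OT` one uses
cross edges: `x + y = p`, `x - y = 3 q`, between numbers `x ≡ y` modulo `3` not divisible by `3`.

`GC n M L c B b` is the input: `GIn` (project T) and the two facts on the mixed kernels, the operator bound `opC` and the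
lower bound `m4C` for the correlation of the model of `x ± y` (`3 ∣ x`) and of the model of `x' + y`, `(x' - y)/3`.
-/

open Finset

namespace Pool.Agent.Lib.H59V

open Pool.Agent.Lib.H68T (lp)
open Pool.Agent.Lib.GoldbachGraph (hadj hadj_comm)
open Pool.Agent.Lib.H96G
open Pool.Agent.Lib.H18C (IsOddPrime IsOddAlmostPrime)

noncomputable section

/-- The cross kernel of the primes: `x + y` and `(x - y)/3`. -/
def kpC (x y : ℕ) : ℝ := if (3:ℤ) ∣ (x:ℤ) - y then lp ((x:ℤ) + y) * lp (((x:ℤ) - y) / 3) else 0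

/-- The cross kernel of the models `l` (for `x + y`) and `l3` (for `(x - y)/3`). -/
def kmC (l l3 : ℤ → ℝ) (x y : ℕ) : ℝ := if (3:ℤ) ∣ (x:ℤ) - y then l ((x:ℤ) + y) * l3 (((x:ℤ) - y) / 3) else 0

/-- Cross edges: `x + y` an odd prime, `|x - y|` three times an odd prime. -/
def cadj (x y : ℕ) : Prop :=
  (x + y).Prime ∧ Odd (x + y) ∧ ∃ q : ℕ, q.Prime ∧ Odd q ∧ Nat.dist x y = 3 * q

/-- Chen edges in halved coordinates. -/
def chA (x y : ℕ) : Prop := x ≠ y ∧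
  ((IsOddPrime (x + y) ∧ IsOddAlmostPrime (Nat.dist x y)) ∨
    (IsOddAlmostPrime (x + y) ∧ IsOddPrime (Nat.dist x y)))

/-- Same parity, `x` divisible by `3`, `x'` not. -/
def MX (x x' : ℕ) : Prop := x % 2 = x' % 2 ∧ 3 ∣ x ∧ ¬ 3 ∣ x'

open Classical in
/-- The input. -/
structure GC (n M : ℕ) (L : ℕ → ℤ → ℝ) (c B b : ℝ) : Prop extends GIn n M L c B b where
  M3 : 3 ∣ M
  bd3 : ∀ X Z : ℕ, Sc n M B X Z → ∀ m : ℤ, ((X / 3 : ℕ) : ℤ) ≤ m → m ≤ 4 * ((X / 3 : ℕ) : ℤ) →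
    |L (X / 3) m| ≤ (n : ℝ) ^ b
  opC : ∀ X Z : ℕ, Sc n M B X Z → ∀ f g : ℕ → ℝ, (∀ x, |f x| ≤ 1) → (∀ y, |g y| ≤ 1) →
    |∑ x ∈ Ico (2 * X) (3 * X), ∑ y ∈ Ico Z (2 * Z), f x * g y * (kpC x y - kmC (L X) (L (X / 3)) x y)| ≤
      (n : ℝ) ^ (2 - c)
  m4C : ∀ X X' Z : ℕ, Sc n M B X Z → Sc n M B X' Z →
    (((Ico (2 * X) (3 * X) ×ˢ Ico (2 * X') (3 * X')).filter fun p => MX p.1 p.2 ∧
      ∑ y ∈ Ico Z (2 * Z), km (L X) p.1 y * kmC (L X') (L (X' / 3)) p.2 y < Z * (n : ℝ) ^ (-b)).card : ℝ) ≤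
      (n : ℝ) ^ (2 - c)

/-- No mixed common neighbour in `[Z, 2Z)`. -/
def FC (Z x x' : ℕ) : Prop := MX x x' ∧ ¬ ∃ y ∈ Ico Z (2 * Z), hadj x y ∧ cadj x' y

open Classical in
/-- `Γ` is a set of generic vertices of `[4Z, n]` for the mixed relation. -/
structure PC (n Z : ℕ) (s : ℝ) (Γ : Finset ℕ) : Prop where
  sub : Γ ⊆ Icc (4 * Z) n
  co : ((Icc (4 * Z) n \ Γ).card : ℝ) ≤ s
  b1 : ∀ x ∈ Γ, (((Icc (4 * Z) n).filter fun x' => FC Z x x').card : ℝ) ≤ s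
  b2 : ∀ x ∈ Γ, (((Icc (4 * Z) n).filter fun x' => FC Z x' x).card : ℝ) ≤ s

/-- The pair `h, h'` has no common neighbour of the right kind in `[Z, 2Z)`. -/
def BP (Z h h' : ℕ) : Prop :=
  (ST h h' ∧ ¬ ∃ y ∈ Ico Z (2 * Z), hadj h y ∧ hadj h' y) ∨ FC Z h h' ∨ FC Z h' h

open Classical in
/-- `Γ` is a set of hubs: contained in `[32 Z, n]`, few bad partners, many neighbours in `[8Z, 16Z)`. -/
structure Hb (n Z : ℕ) (s t : ℝ) (Γ : Finset ℕ) : Prop where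
  sub : Γ ⊆ Icc (32 * Z) n
  fw : ∀ h ∈ Γ, (((Icc (4 * Z) n).filter fun h' => BP Z h h').card : ℝ) ≤ s
  dg : ∀ h ∈ Γ, t ≤ (nb (8 * Z) h).card

/-- The graph of a finite set of pairs. -/
def EG (E : Finset (ℕ × ℕ)) : SimpleGraph ℕ := SimpleGraph.fromRel fun x y => (x, y) ∈ E

/-- The graph `HL lo n` with the pairs of `E` added. -/
def HE (lo n : ℕ) (E : Finset (ℕ × ℕ)) : SimpleGraph ℕ := HL lo n ⊔ EG E

/-- All pairs of `E` are Chen edges inside `[lo, n]`. -/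
def ChE (lo n : ℕ) (E : Finset (ℕ × ℕ)) : Prop :=
  ∀ p ∈ E, p.1 ∈ Icc lo n ∧ p.2 ∈ Icc lo n ∧ chA p.1 p.2

end

end Pool.Agent.Lib.H59V
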