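import Pool.Agent.Lib.H59V.Defs
import Pool.Agent.Lib.H96G.C0

/-!
# Project H59V, chunk G0 (S): elementary facts on the graph with added pairs
-/

open Finset

namespace Pool.Agent.Lib.H59V

open Pool.Agent.Lib.GoldbachGraph (hadj hadj_comm)
open Pool.Agent.Lib.H96G
open Pool.Agent.Lib.H18C (IsOddPrime IsOddAlmostPrime)

/-- Proof. `3 q` is a product of the odd primes `3`, `q`; `x ≠ y` because `Nat.dist x x = 0`. -/
theorem g0_cadj {x y : ℕ} (h : cadj x y) : chA x y := by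
  obtain ⟨h1, h2, q, h3, h4, h5⟩ := h
  refine ⟨?_, Or.inl ⟨⟨h1, h2⟩, ?_⟩⟩
  · rintro rfl
    rw [Nat.dist_self] at h5
    have := h3.pos
    omega
  · right
    exact ⟨3, q, ⟨Nat.prime_three, by decide⟩, ⟨h3, h4⟩, h5⟩

/-- Proof. Definitions of `hadj` (both numbers odd primes) and `chA`. -/
theorem g0_hadj {x y : ℕ} (h : hadj x y) : chA x y := by
  obtain ⟨h1, h2, h3, h4⟩ := h
  refine ⟨?_, Or.inl ⟨⟨h1, h2⟩, Or.inl ⟨h3, h4⟩⟩⟩
  rintro rfl
  rw [Nat.dist_self] at h3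
  exact Nat.not_prime_zero h3

/-- Proof. `SimpleGraph.edist_anti`, `le_sup_left`. -/
theorem g0_HL {lo n x y k : ℕ} {E : Finset (ℕ × ℕ)} (h : (HL lo n).edist x y ≤ k) :
    (HE lo n E).edist x y ≤ k := by
  exact (SimpleGraph.edist_anti (le_sup_left : HL lo n ≤ HE lo n E)).trans h

/-- Proof. `SimpleGraph.edist_anti`; `EG` is monotone (`SimpleGraph.fromRel_adj`). -/
theorem g0_sub {lo n x y k : ℕ} {E E' : Finset (ℕ × ℕ)} (hE : E ⊆ E') (h : (HE lo n E).edist x y ≤ k) :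
    (HE lo n E').edist x y ≤ k := by
  have h1 : EG E ≤ EG E' := by
    intro a b hab
    unfold EG at hab ⊢
    rw [SimpleGraph.fromRel_adj] at hab ⊢
    exact ⟨hab.1, hab.2.imp (fun h => hE h) (fun h => hE h)⟩
  have h2 : HE lo n E ≤ HE lo n E' := sup_le_sup_left h1 _
  exact (SimpleGraph.edist_anti h2).trans h

/-- Proof. The walk with one edge (`SimpleGraph.fromRel_adj`). -/
theorem g0_e {lo n x y : ℕ} {E : Finset (ℕ × ℕ)} (h : (x, y) ∈ E ∨ (y, x) ∈ E) (hne : x ≠ y) :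
    (HE lo n E).edist x y ≤ 1 := by
  refine le_of_eq (SimpleGraph.edist_eq_one_iff_adj.2 ?_)
  unfold HE
  rw [SimpleGraph.sup_adj]
  right
  unfold EG
  rw [SimpleGraph.fromRel_adj]
  exact ⟨hne, h⟩

/-- Proof. `c0_one` of `H96G`, `g0_HL` (or directly). -/
theorem g0_a {lo n x y : ℕ} {E : Finset (ℕ × ℕ)} (h : hadj x y) (hx : x ∈ Icc lo n) (hy : y ∈ Icc lo n) :
    (HE lo n E).edist x y ≤ 1 := by
  exact (SimpleGraph.edist_anti (le_sup_left : HL lo n ≤ HE lo n E)).trans (c0_one h hx hy)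

/-- Proof. Triangle inequality. -/
theorem g0_tri {lo n x y z i j k : ℕ} {E : Finset (ℕ × ℕ)} (h : (HE lo n E).edist x y ≤ i)
    (h' : (HE lo n E).edist y z ≤ j) (hk : i + j ≤ k) : (HE lo n E).edist x z ≤ k := by
  refine (SimpleGraph.edist_triangle (v := y)).trans ((add_le_add h h').trans ?_)
  exact_mod_cast hk

/-- Proof. `hadj_comm`; definitions (`ST`, `FC`). -/
theorem g0_BP {Z h h' : ℕ} (hb : BP Z h h') : BP Z h' h := by
  rcases hb with ⟨h1, h2⟩ | h1 | h1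
  · refine Or.inl ⟨c0_ST_symm h1, fun h3 => h2 ?_⟩
    obtain ⟨y, hy, h4, h5⟩ := h3
    exact ⟨y, hy, h5, h4⟩
  · exact Or.inr (Or.inr h1)
  · exact Or.inr (Or.inl h1)

end Pool.Agent.Lib.H59V
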