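import Pool.Agent.Lib.H59V.G0

/-!
# Project H59V, chunk G1 (S/M): two vertices of the same parity
-/

open Finset

namespace Pool.Agent.Lib.H59V

open Pool.Agent.Lib.GoldbachGraph (hadj hadj_comm)
open Pool.Agent.Lib.H96G

/-- **Same parity.** Proof. Three cases. (a) `3 ∣ x ↔ 3 ∣ x'`: then `ST x x'`, and `¬ BP` gives `y ∈ [Z, 2Z)` with
`hadj x y`, `hadj x' y`; `E = ∅`, `g0_a` twice. (b) `3 ∣ x`, `¬ 3 ∣ x'`: `MX x x'`, and `¬ FC Z x x'` gives `y ∈ [Z, 2Z)`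
with `hadj x y`, `cadj x' y`; `E = {(x', y)}` (`g0_cadj`; `y ≠ x'` since `chA`), `g0_a`, `g0_e`. (c) `¬ 3 ∣ x`, `3 ∣ x'`:
the same with `x`, `x'` exchanged, `E = {(x, y)}`. All points are in `Icc lo n` (`c0_mem` of `H96G`). -/
theorem G1_same {lo n Z : ℕ} (hlo : lo ≤ 1) {x x' : ℕ} (hx : x ∈ Icc (4 * Z) n)
    (hx' : x' ∈ Icc (4 * Z) n) (hpar : x % 2 = x' % 2) (hg : ¬ BP Z x x') :
    ∃ E : Finset (ℕ × ℕ), E.card ≤ 1 ∧ ChE lo n E ∧ (HE lo n E).edist x x' ≤ 2 := by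
  classical
  have hmix : ∀ u v : ℕ, u ∈ Icc (4 * Z) n → v ∈ Icc (4 * Z) n → MX u v → ¬ FC Z u v →
      ∃ y, y ∈ Icc lo n ∧ u ∈ Icc lo n ∧ v ∈ Icc lo n ∧ hadj u y ∧ cadj v y := by
    intro u v hu hv hm hf
    have h1 : ∃ y ∈ Ico Z (2 * Z), hadj u y ∧ cadj v y := by
      by_contra h2
      exact hf ⟨hm, h2⟩
    obtain ⟨y, hy, h3, h4⟩ := h1
    exact ⟨y, (c0_mem hlo hy hu).2, (c0_mem hlo hy hu).1, (c0_mem hlo hy hv).1, h3, h4⟩
  by_cases h3 : 3 ∣ x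
  · by_cases h3' : 3 ∣ x'
    · have h1 : ∃ y ∈ Ico Z (2 * Z), hadj x y ∧ hadj x' y := by
        by_contra h2
        exact hg (Or.inl ⟨⟨hpar, ⟨fun _ => h3', fun _ => h3⟩⟩, h2⟩)
      obtain ⟨y, hy, ha, hb⟩ := h1
      have e1 := c0_mem hlo hy hx
      have e2 := c0_mem hlo hy hx'
      refine ⟨∅, by simp, fun p hp => absurd hp (Finset.notMem_empty p), ?_⟩
      exact g0_tri (g0_a ha e1.1 e1.2) (g0_a ((hadj_comm _ _).mp hb) e2.2 e2.1) (le_refl 2)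
    · obtain ⟨y, hy, hxn, hxn', ha, hb⟩ := hmix x x' hx hx' ⟨hpar, h3, h3'⟩ (fun h => hg (Or.inr (Or.inl h)))
      have hc := g0_cadj hb
      refine ⟨{(x', y)}, by simp, ?_, ?_⟩
      · intro p hp
        rw [Finset.mem_singleton] at hp
        rw [hp]
        exact ⟨hxn', hy, hc⟩
      · exact g0_tri (g0_a ha hxn hy) (g0_e (Or.inr (Finset.mem_singleton_self _)) hc.1.symm) (le_refl 2)
  · by_cases h3' : 3 ∣ x'
    · obtain ⟨y, hy, hxn', hxn, ha, hb⟩ := hmix x' x hx' hx ⟨hpar.symm, h3', h3⟩ (fun h => hg (Or.inr (Or.inr h)))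
      have hc := g0_cadj hb
      refine ⟨{(x, y)}, by simp, ?_, ?_⟩
      · intro p hp
        rw [Finset.mem_singleton] at hp
        rw [hp]
        exact ⟨hxn, hy, hc⟩
      · exact g0_tri (g0_e (Or.inl (Finset.mem_singleton_self _)) hc.1) (g0_a ((hadj_comm _ _).mp ha) hy hxn')
          (le_refl 2)
    · have h1 : ∃ y ∈ Ico Z (2 * Z), hadj x y ∧ hadj x' y := by
        by_contra h2
        exact hg (Or.inl ⟨⟨hpar, ⟨fun h => absurd h h3, fun h => absurd h h3'⟩⟩, h2⟩)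
      obtain ⟨y, hy, ha, hb⟩ := h1
      have e1 := c0_mem hlo hy hx
      have e2 := c0_mem hlo hy hx'
      refine ⟨∅, by simp, fun p hp => absurd hp (Finset.notMem_empty p), ?_⟩
      exact g0_tri (g0_a ha e1.1 e1.2) (g0_a ((hadj_comm _ _).mp hb) e2.2 e2.1) (le_refl 2)

end Pool.Agent.Lib.H59V
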