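import Pool.Agent.Lib.H59V.G1

/-!
# Project H59V, chunk G2 (S/M): hubs
-/

open Finset

namespace Pool.Agent.Lib.H59V

open Pool.Agent.Lib.GoldbachGraph (hadj hadj_comm)
open Pool.Agent.Lib.H96G

/-- Proof. `nb (8 Z) h'` has at least `t > s + 3` elements, all of them in `Icc (4 Z) n` (`16 Z ≤ 32 Z ≤ h' ≤ n`); at
most `3` of them are not of opposite type (`c0_exc` of `H96G`) and at most `s` satisfy `BP Z h w` (field `fw`). -/
theorem G2_w {n Z : ℕ} {s t : ℝ} {Γ : Finset ℕ} (hΓ : Hb n Z s t Γ) (hst : s + 3 < t) {h h' : ℕ}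
    (hh : h ∈ Γ) (hh' : h' ∈ Γ) : ∃ w ∈ Icc (4 * Z) n, hadj h' w ∧ OT h' w ∧ ¬ BP Z h w := by
  classical
  by_contra hcon
  push Not at hcon
  have h1 := mem_Icc.1 (hΓ.sub hh')
  have hsub : nb (8 * Z) h' ⊆ ((Icc (4 * Z) n).filter fun y => hadj h' y ∧ ¬ OT h' y) ∪
      ((Icc (4 * Z) n).filter fun w => BP Z h w) := by
    intro w hw
    rw [nb, mem_filter, mem_Ico] at hw
    have hwI : w ∈ Icc (4 * Z) n := by
      rw [mem_Icc]
      omega
    rw [mem_union, mem_filter, mem_filter]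
    by_cases h2 : OT h' w
    · right
      exact ⟨hwI, hcon w hwI hw.2 h2⟩
    · left
      exact ⟨hwI, hw.2, h2⟩
  have h3 := (card_le_card hsub).trans (card_union_le _ _)
  have h4 : ((Icc (4 * Z) n).filter fun y => hadj h' y ∧ ¬ OT h' y).card ≤ 3 := by
    have := c0_exc h' (Icc (4 * Z) n)
    refine le_trans (le_of_eq ?_) this
    congr
  have h5 : (((Icc (4 * Z) n).filter fun w => BP Z h w).card : ℝ) ≤ s := by
    have := hΓ.fw h hh
    refine le_trans (le_of_eq ?_) this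
    congr
  have h6 := hΓ.dg h' hh'
  have h7 : ((nb (8 * Z) h').card : ℝ) ≤ 3 + s := by
    have h8 : ((nb (8 * Z) h').card : ℝ) ≤ (((Icc (4 * Z) n).filter fun y => hadj h' y ∧ ¬ OT h' y).card : ℝ) +
        (((Icc (4 * Z) n).filter fun w => BP Z h w).card : ℝ) := by
      exact_mod_cast h3
    have h9 : (((Icc (4 * Z) n).filter fun y => hadj h' y ∧ ¬ OT h' y).card : ℝ) ≤ 3 := by
      exact_mod_cast h4
    linarith
  linarith

/-- **Two hubs.** Proof. Same parity: `G1_same`. Different parity: `w` from `G2_w`; `w` has the parity of `h` (`OT h' w`),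
`G1_same` for `h`, `w` gives `E`, and `w ~ h'` is an edge (`g0_a`): `2 + 1`. (`Γ ⊆ Icc (32 Z) n ⊆ Icc (4 Z) n`;
`Icc (4 Z) n ⊆ Icc lo n` as `1 ≤ Z`.) -/
theorem G2_hubs {lo n Z : ℕ} (hlo : lo ≤ 1) (hZ : 1 ≤ Z) {s t : ℝ} {Γ : Finset ℕ} (hΓ : Hb n Z s t Γ)
    (hst : s + 3 < t) {h h' : ℕ} (hh : h ∈ Γ) (hh' : h' ∈ Γ) (hg : ¬ BP Z h h') :
    ∃ E : Finset (ℕ × ℕ), E.card ≤ 1 ∧ ChE lo n E ∧ (HE lo n E).edist h h' ≤ 3 ∧
      (h % 2 = h' % 2 → (HE lo n E).edist h h' ≤ 2) := by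
  have h1 := mem_Icc.1 (hΓ.sub hh)
  have h1' := mem_Icc.1 (hΓ.sub hh')
  have hI : h ∈ Icc (4 * Z) n := by
    rw [mem_Icc]
    omega
  have hI' : h' ∈ Icc (4 * Z) n := by
    rw [mem_Icc]
    omega
  by_cases hpar : h % 2 = h' % 2
  · obtain ⟨E, e1, e2, e3⟩ := G1_same hlo hI hI' hpar hg
    exact ⟨E, e1, e2, e3.trans (by norm_num), fun _ => e3⟩
  · obtain ⟨w, hw, w1, w2, w3⟩ := G2_w hΓ hst hh hh'
    have hpw : h % 2 = w % 2 := by
      have := w2.1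
      omega
    obtain ⟨E, e1, e2, e3⟩ := G1_same hlo hI hw hpw w3
    refine ⟨E, e1, e2, ?_, fun h2 => absurd h2 hpar⟩
    have hw' := mem_Icc.1 hw
    have h4 : (HE lo n E).edist w h' ≤ 1 := by
      refine g0_a ((hadj_comm _ _).1 w1) ?_ ?_
      · rw [mem_Icc]
        omega
      · rw [mem_Icc]
        omega
    have h5 := g0_tri (i := 2) (j := 1) (k := 3) (by exact_mod_cast e3) (by exact_mod_cast h4) le_rfl
    exact_mod_cast h5

end Pool.Agent.Lib.H59V
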