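import Mathlib

/-!
# Project H59V, chunk G3 (S/M, ONLY MATHLIB): a small dominating set avoiding bad pairs
-/

open Finset

namespace Pool.Agent.Lib.H59V

/-- One step. Proof. Double counting: `∑_{h ∈ G \ F} #{u ∈ U : h ∈ S u} = ∑_{u ∈ U} (S u \ F).card ≥ U.card * (τ/2)`
(`S u ⊆ G`, `F.card ≤ τ/2`). If all `h ∈ G \ F` had `#{u ∈ U : h ∈ S u} < U.card * τ/(2 G.card)`, the sum would be
`< G.card * U.card * τ/(2 G.card)` (the set `G \ F` is not empty: `S u \ F` has at least `τ/2 > 0` elements for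
`u ∈ U`), a contradiction. And `#{u : h ∉ S u} = U.card - #{u : h ∈ S u}`. -/
theorem G3_step {U G F : Finset ℕ} (S : ℕ → Finset ℕ) (hU : U.Nonempty) (hS : ∀ u ∈ U, S u ⊆ G) {τ : ℝ}
    (hτ0 : 0 < τ) (hτ : ∀ u ∈ U, τ ≤ (S u).card) (hF : (F.card : ℝ) ≤ τ / 2) :
    ∃ h ∈ G, h ∉ F ∧ ((U.filter fun u => h ∉ S u).card : ℝ) ≤ U.card * (1 - τ / (2 * G.card)) := by
  by_contra hcon
  push Not at hcon
  have hGpos : 0 < (G.card : ℝ) := by
    obtain ⟨u, hu⟩ := hU
    have h1 := hτ u hu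
    have h2 : ((S u).card : ℝ) ≤ G.card := by exact_mod_cast card_le_card (hS u hu)
    linarith
  have hUpos : 0 < (U.card : ℝ) := by exact_mod_cast card_pos.2 hU
  have h1 : ∀ h ∈ G \ F, ((U.filter fun u => h ∈ S u).card : ℝ) < U.card * (τ / (2 * G.card)) := by
    intro h hh
    rw [mem_sdiff] at hh
    have h2 := hcon h hh.1 hh.2
    have h3 := Finset.card_filter_add_card_filter_not (s := U) (fun u => h ∈ S u)
    have h4 : ((U.filter fun u => h ∈ S u).card : ℝ) + ((U.filter fun u => h ∉ S u).card : ℝ) = U.card := by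
      exact_mod_cast h3
    rw [mul_sub, mul_one] at h2
    linarith
  have h4 : ∑ h ∈ G \ F, (U.filter fun u => h ∈ S u).card = ∑ u ∈ U, (S u \ F).card := by
    have e1 : ∀ h ∈ G \ F, (U.filter fun u => h ∈ S u).card = ∑ u ∈ U, if h ∈ S u then 1 else 0 :=
      fun h _ => card_filter _ _
    rw [sum_congr rfl e1, sum_comm]
    refine sum_congr rfl fun u hu => ?_
    rw [← card_filter]
    congr 1
    ext h
    have := @hS u hu h
    rw [mem_filter, mem_sdiff, mem_sdiff]
    tauto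
  have h5 : (U.card : ℝ) * (τ / 2) ≤ ∑ u ∈ U, ((S u \ F).card : ℝ) := by
    rw [← nsmul_eq_mul]
    refine card_nsmul_le_sum _ _ _ fun u hu => ?_
    have h6 : (S u).card ≤ (S u \ F).card + F.card := by
      have := le_card_sdiff F (S u)
      omega
    have h7 : ((S u).card : ℝ) ≤ ((S u \ F).card : ℝ) + F.card := by exact_mod_cast h6
    have h8 := hτ u hu
    linarith
  have h6 : ∑ h ∈ G \ F, ((U.filter fun u => h ∈ S u).card : ℝ) = ∑ u ∈ U, ((S u \ F).card : ℝ) := by
    exact_mod_cast h4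
  have hne : (G \ F).Nonempty := by
    rw [nonempty_iff_ne_empty]
    intro h7
    rw [h7, sum_empty] at h6
    rw [← h6] at h5
    have : 0 < (U.card : ℝ) * (τ / 2) := by positivity
    linarith
  have h7 := sum_lt_sum_of_nonempty hne h1
  rw [sum_const, nsmul_eq_mul, h6] at h7
  have h8 : ((G \ F).card : ℝ) ≤ G.card := by exact_mod_cast card_le_card sdiff_subset
  have h9 : ((G \ F).card : ℝ) * (U.card * (τ / (2 * G.card))) ≤ G.card * (U.card * (τ / (2 * G.card))) :=
    mul_le_mul_of_nonneg_right h8 (by positivity)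
  have h10 : (G.card : ℝ) * (U.card * (τ / (2 * G.card))) = U.card * (τ / 2) := by
    field_simp
  linarith

open Classical in
theorem g3_ind {U G : Finset ℕ} (S : ℕ → Finset ℕ) (bad : ℕ → ℕ → Prop) (hsym : ∀ h h', bad h h' → bad h' h)
    (hS : ∀ u ∈ U, S u ⊆ G) {τ σ : ℝ} (hτ0 : 0 < τ) (hτ : ∀ u ∈ U, τ ≤ (S u).card) (hσ : 0 ≤ σ)
    (hb : ∀ h ∈ G, ((G.filter fun h' => bad h h').card : ℝ) ≤ σ) {r : ℕ} (hr : r * σ ≤ τ / 2)
    (hx : 0 ≤ 1 - τ / (2 * G.card)) (i : ℕ) (hi : i ≤ r) :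
    ∃ R : Finset ℕ, R ⊆ G ∧ R.card ≤ i ∧
      ((U.filter fun u => ∀ h ∈ R, h ∉ S u).card : ℝ) ≤ U.card * (1 - τ / (2 * G.card)) ^ i ∧
      ∀ h ∈ R, ∀ h' ∈ R, h ≠ h' → ¬ bad h h' := by
  induction i with
  | zero =>
    refine ⟨∅, empty_subset _, by simp, ?_, by simp⟩
    rw [pow_zero, mul_one]
    exact_mod_cast card_le_card (filter_subset _ _)
  | succ i ih =>
    obtain ⟨R, hR, hc, hf, hbad⟩ := ih (by omega)
    rcases (U.filter fun u => ∀ h ∈ R, h ∉ S u).eq_empty_or_nonempty with hE | hE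
    · refine ⟨R, hR, by omega, ?_, hbad⟩
      rw [hE, card_empty, Nat.cast_zero]
      positivity
    · have hF : ((R.biUnion fun h => G.filter fun h' => bad h h').card : ℝ) ≤ τ / 2 := by
        have h1 : ((R.biUnion fun h => G.filter fun h' => bad h h').card : ℝ) ≤
            ∑ h ∈ R, ((G.filter fun h' => bad h h').card : ℝ) := by
          exact_mod_cast card_biUnion_le
        have h2 : ∑ h ∈ R, ((G.filter fun h' => bad h h').card : ℝ) ≤ R.card • σ :=
          sum_le_card_nsmul _ _ _ fun h hh => hb h (hR hh)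
        rw [nsmul_eq_mul] at h2
        have h3 : (R.card : ℝ) * σ ≤ r * σ := by
          refine mul_le_mul_of_nonneg_right ?_ hσ
          have : R.card ≤ r := by omega
          exact_mod_cast this
        linarith
      obtain ⟨h, hG, hhF, hcard⟩ := G3_step S hE (fun u hu => hS u (mem_filter.1 hu).1) hτ0
        (fun u hu => hτ u (mem_filter.1 hu).1) hF
      refine ⟨insert h R, insert_subset hG hR, (card_insert_le _ _).trans (by omega), ?_, ?_⟩
      · have e1 : (U.filter fun u => ∀ h' ∈ insert h R, h' ∉ S u) =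
            (U.filter fun u => ∀ h' ∈ R, h' ∉ S u).filter fun u => h ∉ S u := by
          ext u
          rw [mem_filter, mem_filter, mem_filter]
          simp only [mem_insert, forall_eq_or_imp]
          tauto
        rw [e1]
        refine hcard.trans ?_
        rw [pow_succ, ← mul_assoc]
        exact mul_le_mul_of_nonneg_right hf hx
      · intro h1 hh1 h2 hh2 hne hb12
        rw [mem_insert] at hh1 hh2
        rcases hh1 with hh1 | hh1 <;> rcases hh2 with hh2 | hh2
        · exact hne (hh1.trans hh2.symm)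
        · rw [hh1] at hb12
          exact hhF (mem_biUnion.2 ⟨h2, hh2, mem_filter.2 ⟨hG, hsym _ _ hb12⟩⟩)
        · rw [hh2] at hb12
          exact hhF (mem_biUnion.2 ⟨h1, hh1, mem_filter.2 ⟨hG, hb12⟩⟩)
        · exact hbad h1 hh1 h2 hh2 hne hb12

open Classical in
/-- **The dominating set.** Proof. By induction on `i ≤ r` there is `R ⊆ G` with `R.card ≤ i`, no bad pairs of different
elements, and at most `U.card * (1 - τ/(2 G.card))^i` elements `u ∈ U` with `S u ∩ R = ∅`. Step: if no such `u` is left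
keep `R`; otherwise `G3_step` for the remaining `u` and `F = ⋃_{h ∈ R} {h' ∈ G : bad h h'}` (at most
`r σ ≤ τ/2` elements; `i < r`), the new element `h` is not in `F` (`bad` is symmetric). (`τ ≤ G.card` when `U` is not
empty, so `0 ≤ 1 - τ/(2 G.card)`; the case of empty `U`: `R = ∅`.) For `i = r` at most
`U.card * exp (- r τ/(2 G.card)) < 1` remain (`1 - x ≤ exp (-x)`, `Real.add_one_le_exp`, hypothesis `hl`). -/
theorem G3_dom {U G : Finset ℕ} (S : ℕ → Finset ℕ) (bad : ℕ → ℕ → Prop) (hsym : ∀ h h', bad h h' → bad h' h)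
    (hS : ∀ u ∈ U, S u ⊆ G) {τ σ : ℝ} (hτ0 : 0 < τ) (hτ : ∀ u ∈ U, τ ≤ (S u).card) (hσ : 0 ≤ σ)
    (hb : ∀ h ∈ G, ((G.filter fun h' => bad h h').card : ℝ) ≤ σ) {r : ℕ} (hr : r * σ ≤ τ / 2)
    (hl : Real.log U.card * (2 * G.card) < r * τ) :
    ∃ R : Finset ℕ, R ⊆ G ∧ R.card ≤ r ∧ (∀ u ∈ U, ∃ h ∈ R, h ∈ S u) ∧
      ∀ h ∈ R, ∀ h' ∈ R, h ≠ h' → ¬ bad h h' := by
  rcases U.eq_empty_or_nonempty with hU | hU
  · refine ⟨∅, empty_subset _, by simp, ?_, by simp⟩
    rw [hU]
    simp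
  have hUpos : 0 < (U.card : ℝ) := by exact_mod_cast card_pos.2 hU
  have hτG : τ ≤ G.card := by
    obtain ⟨u, hu⟩ := hU
    have h1 := hτ u hu
    have h2 : ((S u).card : ℝ) ≤ G.card := by exact_mod_cast card_le_card (hS u hu)
    linarith
  have hGpos : 0 < (G.card : ℝ) := by linarith
  have hx : 0 ≤ 1 - τ / (2 * G.card) := by
    rw [sub_nonneg, div_le_one (by positivity)]
    linarith
  obtain ⟨R, hR, hc, hf, hbad⟩ := g3_ind S bad hsym hS hτ0 hτ hσ hb hr hx r le_rfl
  refine ⟨R, hR, hc, ?_, hbad⟩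
  have h1 : (1 - τ / (2 * G.card)) ^ r ≤ Real.exp (-(r * (τ / (2 * G.card)))) := by
    have h2 : 1 - τ / (2 * G.card) ≤ Real.exp (-(τ / (2 * G.card))) := by
      have := Real.add_one_le_exp (-(τ / (2 * (G.card : ℝ))))
      linarith
    refine (pow_le_pow_left₀ hx h2 r).trans (le_of_eq ?_)
    rw [← Real.exp_nat_mul]
    congr 1
    ring
  have h2 : (U.card : ℝ) * Real.exp (-(r * (τ / (2 * G.card)))) < 1 := by
    have h3 : Real.log U.card < r * (τ / (2 * G.card)) := by
      rw [← mul_div_assoc, lt_div_iff₀ (by positivity)]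
      exact hl
    have h4 : (U.card : ℝ) < Real.exp (r * (τ / (2 * G.card))) := by
      rwa [← Real.log_lt_iff_lt_exp hUpos]
    rw [Real.exp_neg, ← div_eq_mul_inv, div_lt_one (Real.exp_pos _)]
    exact h4
  have h3 : ((U.filter fun u => ∀ h ∈ R, h ∉ S u).card : ℝ) < 1 :=
    (hf.trans (mul_le_mul_of_nonneg_left h1 hUpos.le)).trans_lt h2
  have h4 : (U.filter fun u => ∀ h ∈ R, h ∉ S u).card = 0 := by
    have : (U.filter fun u => ∀ h ∈ R, h ∉ S u).card < 1 := by exact_mod_cast h3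
    omega
  rw [card_eq_zero] at h4
  intro u hu
  by_contra h5
  push Not at h5
  have h6 : u ∈ U.filter fun u => ∀ h ∈ R, h ∉ S u := mem_filter.2 ⟨hu, h5⟩
  rw [h4] at h6
  exact absurd h6 (notMem_empty u)

end Pool.Agent.Lib.H59V
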