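import Pool.Agent.Lib.H59V.G2
import Pool.Agent.Lib.H59V.G3

/-!
# Project H59V, chunk G4 (M): the added edges
-/

open Finset

namespace Pool.Agent.Lib.H59V

open Pool.Agent.Lib.GoldbachGraph (hadj hadj_comm)
open Pool.Agent.Lib.H96G

/-- **The added edges.** Proof. `G3_dom` with `U = Icc lo n` (at most `n + 1` elements), `G = Γ` (at most `n` elements:
`Γ ⊆ Icc (32 Z) n`, `1 ≤ Z`), `bad = BP Z` (`g0_BP`; `Γ ⊆ Icc (4 Z) n`, field `fw`), `σ = s`: the set `R` of at most `r`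
hubs. For `u ∈ Icc lo n` choose `g u ∈ R ∩ S u`. For different `h, h' ∈ R` choose the set `D h h'` of at most one pair
given by `G2_hubs` (`D h h = ∅`). Let `E` be the union of the `D h h'`, `h, h' ∈ R`, and of the pairs `(u, g u)`,
`u ∈ Bd`: at most `r² + Bd.card` pairs. Distances: `u` and `g u` are at distance at most `1` (`g0_a` if `u ∉ Bd`, else
`g0_e`; `chA` contains `u ≠ g u`), `g u` and `g v` at distance at most `3`, and at most `2` if they have the same parity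
(`g0_sub`; distance `0` if `g u = g v`), i.e. if `u` and `v` have the same parity (`OT u (g u)`, `OT v (g v)`). -/
theorem G4_add {lo n Z : ℕ} (hlo : lo ≤ 1) (hZ : 1 ≤ Z) {s t τ : ℝ} {Γ : Finset ℕ} (hs0 : 0 ≤ s)
    (hΓ : Hb n Z s t Γ) (hst : s + 3 < t) (S : ℕ → Finset ℕ) (hτ0 : 0 < τ)
    (hS : ∀ u ∈ Icc lo n, S u ⊆ Γ ∧ τ ≤ (S u).card ∧ ∀ h ∈ S u, OT u h ∧ chA u h) (Bd : Finset ℕ)
    (hBs : Bd ⊆ Icc lo n) (hBd : ∀ u ∈ Icc lo n, u ∉ Bd → ∀ h ∈ S u, hadj u h) {r : ℕ}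
    (hr : r * s ≤ τ / 2) (hl : Real.log (n + 1) * (2 * n) < r * τ) :
    ∃ E : Finset (ℕ × ℕ), (E.card : ℝ) ≤ Bd.card + (r : ℝ) ^ 2 ∧ ChE lo n E ∧
      ∀ u ∈ Icc lo n, ∀ v ∈ Icc lo n, (HE lo n E).edist u v ≤ 5 ∧
        (u % 2 = v % 2 → (HE lo n E).edist u v ≤ 4) := by
  classical
  have hsub4 : Γ ⊆ Icc (4 * Z) n := by
    intro h hh
    have h1 := Finset.mem_Icc.1 (hΓ.sub hh)
    exact Finset.mem_Icc.2 ⟨by omega, h1.2⟩
  have hsubl : Γ ⊆ Icc lo n := by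
    intro h hh
    have h1 := Finset.mem_Icc.1 (hΓ.sub hh)
    exact Finset.mem_Icc.2 ⟨by omega, h1.2⟩
  have hcU : ((Icc lo n).card : ℝ) ≤ n + 1 := by
    have h1 : (Icc lo n).card ≤ n + 1 := by
      rw [Nat.card_Icc]
      omega
    exact_mod_cast h1
  have hcG : (Γ.card : ℝ) ≤ n := by
    have h1 : Γ.card ≤ (Icc (32 * Z) n).card := Finset.card_le_card hΓ.sub
    rw [Nat.card_Icc] at h1
    have h2 : Γ.card ≤ n := by omega
    exact_mod_cast h2
  have hlog0 : 0 ≤ Real.log ((n : ℝ) + 1) := Real.log_nonneg (by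
    have h1 : (0 : ℝ) ≤ n := Nat.cast_nonneg n
    linarith)
  have hlogU : Real.log ((Icc lo n).card : ℝ) ≤ Real.log ((n : ℝ) + 1) := by
    rcases Nat.eq_zero_or_pos (Icc lo n).card with h1 | h1
    · rw [h1, Nat.cast_zero, Real.log_zero]
      exact hlog0
    · exact Real.log_le_log (by exact_mod_cast h1) hcU
  have hl' : Real.log ((Icc lo n).card : ℝ) * (2 * (Γ.card : ℝ)) < r * τ := by
    refine lt_of_le_of_lt ?_ hl
    exact mul_le_mul hlogU (by linarith) (by positivity) hlog0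
  obtain ⟨R, hRΓ, hRr, hdom, hgood⟩ := G3_dom (U := Icc lo n) (G := Γ) S (BP Z) (fun h h' hb => g0_BP hb)
    (fun u hu => (hS u hu).1) hτ0 (fun u hu => (hS u hu).2.1) hs0
    (fun h hh => by
      refine le_trans ?_ (hΓ.fw h hh)
      have h1 : (Γ.filter fun h' => BP Z h h').card ≤ ((Icc (4 * Z) n).filter fun h' => BP Z h h').card :=
        Finset.card_le_card (Finset.filter_subset_filter _ hsub4)
      exact_mod_cast h1) hr hl'
  choose! g hg using hdom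
  have hD : ∀ h h' : ℕ, ∃ E : Finset (ℕ × ℕ), E.card ≤ 1 ∧ ChE lo n E ∧ (h ∈ R → h' ∈ R →
      (HE lo n E).edist h h' ≤ (3 : ℕ) ∧ (h % 2 = h' % 2 → (HE lo n E).edist h h' ≤ (2 : ℕ))) := by
    intro h h'
    by_cases hh : h ∈ R ∧ h' ∈ R
    · by_cases heq : h = h'
      · subst heq
        refine ⟨∅, by simp, fun p hp => absurd hp (Finset.notMem_empty p), fun _ _ => ?_⟩
        rw [SimpleGraph.edist_self]
        exact ⟨zero_le, fun _ => zero_le⟩
      · obtain ⟨E, h1, h2, h3, h4⟩ := G2_hubs hlo hZ hΓ hst (hRΓ hh.1) (hRΓ hh.2) (hgood h hh.1 h' hh.2 heq)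
        exact ⟨E, h1, h2, fun _ _ => ⟨h3, h4⟩⟩
    · refine ⟨∅, by simp, fun p hp => absurd hp (Finset.notMem_empty p), fun h1 h2 => absurd ⟨h1, h2⟩ hh⟩
  choose D hD1 hD2 hD3 using hD
  have hE1 : ∀ h ∈ R, ∀ h' ∈ R, D h h' ⊆ (R ×ˢ R).biUnion (fun p => D p.1 p.2) ∪ Bd.image (fun u => (u, g u)) := by
    intro h hh h' hh'
    refine Finset.Subset.trans ?_ Finset.subset_union_left
    have hm : (h, h') ∈ R ×ˢ R := Finset.mem_product.2 ⟨hh, hh'⟩
    exact Finset.subset_biUnion_of_mem (fun p : ℕ × ℕ => D p.1 p.2) hm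
  have hgl : ∀ u ∈ Icc lo n, g u ∈ Icc lo n := fun u hu => hsubl (hRΓ (hg u hu).1)
  have hone : ∀ u ∈ Icc lo n, (HE lo n ((R ×ˢ R).biUnion (fun p => D p.1 p.2) ∪ Bd.image (fun u => (u, g u)))).edist u (g u) ≤ (1 : ℕ) := by
    intro u hu
    by_cases hb : u ∈ Bd
    · exact g0_e (Or.inl (Finset.mem_union_right _ (Finset.mem_image_of_mem _ hb)))
        ((hS u hu).2.2 (g u) (hg u hu).2).2.1
    · exact g0_a (hBd u hu hb (g u) (hg u hu).2) hu (hgl u hu)
  refine ⟨(R ×ˢ R).biUnion (fun p => D p.1 p.2) ∪ Bd.image (fun u => (u, g u)), ?_, ?_, ?_⟩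
  · have h1 : ((R ×ˢ R).biUnion (fun p => D p.1 p.2) ∪ Bd.image (fun u => (u, g u))).card ≤ r * r + Bd.card := by
      refine (Finset.card_union_le _ _).trans (Nat.add_le_add ?_ Finset.card_image_le)
      refine (Finset.card_biUnion_le_card_mul _ _ 1 (fun p _ => hD1 p.1 p.2)).trans ?_
      rw [mul_one, Finset.card_product]
      exact Nat.mul_le_mul hRr hRr
    have h2 : (((R ×ˢ R).biUnion (fun p => D p.1 p.2) ∪ Bd.image (fun u => (u, g u))).card : ℝ) ≤ r * r + Bd.card := by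
      exact_mod_cast h1
    rw [sq]
    linarith
  · intro p hp
    rcases Finset.mem_union.1 hp with hp | hp
    · obtain ⟨q, hq, hpq⟩ := Finset.mem_biUnion.1 hp
      exact hD2 q.1 q.2 p hpq
    · obtain ⟨u, hu, rfl⟩ := Finset.mem_image.1 hp
      exact ⟨hBs hu, hgl u (hBs hu), ((hS u (hBs hu)).2.2 (g u) (hg u (hBs hu)).2).2⟩
  · intro u hu v hv
    have du := hone u hu
    have dv := hone v hv
    rw [SimpleGraph.edist_comm] at dv
    have hR := hD3 (g u) (g v) (hg u hu).1 (hg v hv).1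
    have h3 := g0_sub (hE1 (g u) (hg u hu).1 (g v) (hg v hv).1) hR.1
    refine ⟨g0_tri (g0_tri du h3 (le_refl 4)) dv (le_refl 5), fun hpar => ?_⟩
    have ou := ((hS u hu).2.2 (g u) (hg u hu).2).1.1
    have ov := ((hS v hv).2.2 (g v) (hg v hv).2).1.1
    have h2 := g0_sub (hE1 (g u) (hg u hu).1 (g v) (hg v hv).1) (hR.2 (by omega))
    exact g0_tri (g0_tri du h2 (le_refl 3)) dv (le_refl 4)

end Pool.Agent.Lib.H59V
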