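import Pool.Agent.Lib.H59V.A4
import Pool.Agent.Lib.H96G.D2

/-!
# Project H59V, chunk G5 (M): the set of hubs
-/

open Finset

namespace Pool.Agent.Lib.H59V

open Pool.Agent.Lib.GoldbachGraph (hadj hadj_comm)
open Pool.Agent.Lib.H96G

theorem g5_far {Z u w : ℕ} {I : Finset ℕ} (hw : w ∈ I)
    (h : ST u w ∧ ¬ ∃ y ∈ Ico Z (2 * Z), hadj u y ∧ hadj w y) : w ∈ far Z u I := by
  rw [far]
  simp only [mem_filter]
  exact ⟨hw, h⟩

/-- **Hubs.** Proof. `D2_Z` of `H96G` with `e = B` gives `Z`; `B2` of `H96G` for the base scales `Z`, `8 Z`, `64 Z` (multiples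
of `M`, at least `n^(1-B)`): `PZ` with `Γ0`, `Γ1`, `Γ2`; `A4_gen` for `Z`: `ΓC`. Put `Γ = Γ0 ∩ Γ1 ∩ ΓC`.
`Hb`: `sub` from `Γ1 ⊆ Icc (4 (8 Z)) n`; `fw`: for `h ∈ Γ` the `h' ∈ Icc (4 Z) n` with `BP Z h h'` are in
`far Z h (Icc (4 Z) n)` (at most `n^(1-c/2+3B)`) or in one of the two sets of `PC` (at most `n^(1-c/7)` each), in total
`≤ n^(1-c/8)`; `dg`: field `al` of `Γ1`, `8 Z n^(-4b) ≥ n^(1-B-4b)`. The complement of `Γ` in `Icc (32 Z) n` is contained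
in the union of three complements, `≤ 2 n^(1-c/2+3B) + n^(1-c/7) ≤ n^(1-c/8)`. `Γ2`: fields `sub`, `co`, `al` of `PZ`.
`256 Z ≤ 512 n^(1-B) ≤ n`. `1 ≤ Z` as `n^(1-B) > 0`. (`Nm.cst`; `c ≥ 100 B`, `B ≥ 100 b`.) -/
theorem G5_hubs {n M : ℕ} {L : ℕ → ℤ → ℝ} {c B b : ℝ} (hN : Nm n b) (h : GC n M L c B b) :
    ∃ (Z : ℕ) (Γ Γ2 : Finset ℕ), 1 ≤ Z ∧ (Z : ℝ) ≤ 2 * (n : ℝ) ^ (1 - B) ∧ 256 * Z ≤ n ∧
      Hb n Z ((n : ℝ) ^ (1 - c / 8)) ((n : ℝ) ^ (1 - B - 4 * b)) Γ ∧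
      ((Icc (32 * Z) n \ Γ).card : ℝ) ≤ (n : ℝ) ^ (1 - c / 8) ∧ Γ2 ⊆ Icc (256 * Z) n ∧
      ((Icc (256 * Z) n \ Γ2).card : ℝ) ≤ (n : ℝ) ^ (1 - c / 8) ∧
      ∀ u ∈ Γ2, (n : ℝ) ^ (1 - B - 4 * b) ≤ (nb (64 * Z) u).card := by
  classical
  have hb := h.b_pos
  have hbB := h.hb
  have hBc := h.hB
  have hc := h.hc
  have hI := h.toGIn
  obtain ⟨Z, hMZ, hlo, hhi⟩ := D2_Z hN hI B (by linarith)
  have hZ1 : 1 ≤ Z := by
    by_contra h0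
    have h1 : Z = 0 := by omega
    rw [h1] at hlo
    have := hN.ppos (1 - B)
    push_cast at hlo
    linarith
  have key : ∀ W : ℕ, M ∣ W → Z ≤ W → ∃ Γ : Finset ℕ,
      PZ n W ((n : ℝ) ^ (1 - c / 2 + 3 * B)) ((n : ℝ) ^ (1 - B - 4 * b)) Γ := by
    intro W hMW hZW
    have hZW' : (Z : ℝ) ≤ W := by exact_mod_cast hZW
    obtain ⟨Γ, hΓ⟩ := B2 hN hI hMW (hlo.trans hZW')
    refine ⟨Γ, D2_mono hΓ ?_⟩
    have h1 : (n : ℝ) ^ (1 - B - 4 * b) = (n : ℝ) ^ (1 - B) * (n : ℝ) ^ (-(4 * b)) := by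
      rw [hN.mul]
      congr 1
    rw [h1]
    exact mul_le_mul_of_nonneg_right (hlo.trans hZW') (hN.ppos _).le
  obtain ⟨Γ0, h0⟩ := key Z hMZ le_rfl
  obtain ⟨Γ1, h1⟩ := key (8 * Z) (Dvd.dvd.mul_left hMZ 8) (by omega)
  obtain ⟨Γ2, h2⟩ := key (64 * Z) (Dvd.dvd.mul_left hMZ 64) (by omega)
  obtain ⟨ΓC, hC⟩ := A4_gen hN h hMZ hlo
  have s1 : (n : ℝ) ^ (1 - c / 2 + 3 * B) ≤ (n : ℝ) ^ (1 - c / 7) := hN.mono (by linarith)
  have s2 : (3 : ℝ) * (n : ℝ) ^ (1 - c / 7) ≤ (n : ℝ) ^ (1 - c / 8) := hN.cst (by norm_num) (by linarith)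
  have s3 := hN.ppos (1 - c / 7)
  have e4 : 4 * (8 * Z) = 32 * Z := by ring
  have e5 : 4 * (64 * Z) = 256 * Z := by ring
  have i1 : Icc (32 * Z) n ⊆ Icc (4 * Z) n := Icc_subset_Icc (by omega) le_rfl
  refine ⟨Z, Γ0 ∩ Γ1 ∩ ΓC, Γ2, hZ1, hhi, ?_, ⟨?_, ?_, ?_⟩, ?_, ?_, ?_, ?_⟩
  · have h3 : (512 : ℝ) * (n : ℝ) ^ (1 - B) ≤ (n : ℝ) ^ (1 : ℝ) := hN.cst (by norm_num) (by linarith)
    rw [Real.rpow_one] at h3
    have h4 : (256 : ℝ) * (Z : ℝ) ≤ n := by linarith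
    exact_mod_cast h4
  · intro u hu
    rw [mem_inter, mem_inter] at hu
    rw [← e4]
    exact h1.sub hu.1.2
  · intro u hu
    rw [mem_inter, mem_inter] at hu
    have hsub : ((Icc (4 * Z) n).filter fun h' => BP Z u h') ⊆ far Z u (Icc (4 * Z) n) ∪
        (((Icc (4 * Z) n).filter fun x' => FC Z u x') ∪ ((Icc (4 * Z) n).filter fun x' => FC Z x' u)) := by
      intro w hw
      rw [mem_filter] at hw
      rw [mem_union, mem_union, mem_filter, mem_filter]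
      rcases hw.2 with h3 | h3 | h3
      · exact Or.inl (g5_far hw.1 h3)
      · exact Or.inr (Or.inl ⟨hw.1, h3⟩)
      · exact Or.inr (Or.inr ⟨hw.1, h3⟩)
    have h3 := (card_le_card hsub).trans ((card_union_le _ _).trans (Nat.add_le_add_left (card_union_le _ _) _))
    have h4 : (((Icc (4 * Z) n).filter fun h' => BP Z u h').card : ℝ) ≤ ((far Z u (Icc (4 * Z) n)).card : ℝ) +
        ((((Icc (4 * Z) n).filter fun x' => FC Z u x').card : ℝ) +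
          (((Icc (4 * Z) n).filter fun x' => FC Z x' u).card : ℝ)) := by
      exact_mod_cast h3
    have h5 := h0.be u hu.1.1
    have h6 : (((Icc (4 * Z) n).filter fun x' => FC Z u x').card : ℝ) ≤ (n : ℝ) ^ (1 - c / 7) := by
      refine le_trans (le_of_eq ?_) (hC.b1 u hu.2)
      congr
    have h7 : (((Icc (4 * Z) n).filter fun x' => FC Z x' u).card : ℝ) ≤ (n : ℝ) ^ (1 - c / 7) := by
      refine le_trans (le_of_eq ?_) (hC.b2 u hu.2)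
      congr
    have h8 : (((Icc (4 * Z) n).filter fun h' => BP Z u h').card : ℝ) ≤ (n : ℝ) ^ (1 - c / 8) := by
      linarith
    refine le_trans (le_of_eq ?_) h8
    congr
  · intro u hu
    rw [mem_inter, mem_inter] at hu
    exact h1.al u hu.1.2
  · have hsub : Icc (32 * Z) n \ (Γ0 ∩ Γ1 ∩ ΓC) ⊆ (Icc (4 * Z) n \ Γ0) ∪
        ((Icc (4 * (8 * Z)) n \ Γ1) ∪ (Icc (4 * Z) n \ ΓC)) := by
      intro w hw
      rw [mem_sdiff, mem_inter, mem_inter] at hw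
      rw [mem_union, mem_union, mem_sdiff, mem_sdiff, mem_sdiff, e4]
      have := i1 hw.1
      have := hw.1
      tauto
    have h3 := (card_le_card hsub).trans ((card_union_le _ _).trans (Nat.add_le_add_left (card_union_le _ _) _))
    have h4 : ((Icc (32 * Z) n \ (Γ0 ∩ Γ1 ∩ ΓC)).card : ℝ) ≤ ((Icc (4 * Z) n \ Γ0).card : ℝ) +
        (((Icc (4 * (8 * Z)) n \ Γ1).card : ℝ) + ((Icc (4 * Z) n \ ΓC).card : ℝ)) := by
      exact_mod_cast h3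
    have h5 := h0.co
    have h6 := h1.co
    have h7 := hC.co
    linarith
  · have := h2.sub
    rwa [e5] at this
  · have := h2.co
    rw [e5] at this
    linarith
  · exact fun u hu => h2.al u hu

end Pool.Agent.Lib.H59V
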