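import Pool.Agent.Lib.H59V.Defs
import Pool.Agent.Lib.H96G.Num
import Pool.Agent.Lib.H96G.C0
import Pool.Agent.Lib.H18C.Cluster

/-!
# Project H59V, chunk G6 (S/M): hubs adjacent to a vertex
-/

open Finset

namespace Pool.Agent.Lib.H59V

open Pool.Agent.Lib.GoldbachGraph (hadj hadj_comm)
open Pool.Agent.Lib.H96G
open Pool.Agent.Lib.H18C

/-- The type of rough neighbours. Proof. `u ≥ 1`: `RoughPair`: the primes `2` and `3` divide neither `u + y` nor `u - y`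
(as integers), because they are `< n^(1/10)`; so `u + y` is odd, and `3` divides exactly one of `u`, `y` (residues modulo
`3`, `omega`). `u = 0`: `y > 3` is a prime, so it is odd and not divisible by `3`. -/
theorem G6_type {ε : ℝ} {n u : ℕ} {A : Finset ℕ} (hA : Large ε n u A) (h10 : 3 < (n : ℝ) ^ (1 / 10 : ℝ))
    {y : ℕ} (hy : y ∈ A) (hy3 : 3 < y) : OT u y := by
  rcases hA.2 with ⟨h1, h2, -⟩ | ⟨h1, h2, -⟩
  · have h3 := h2 y hy
    have k2 : ¬ (2:ℤ) ∣ (u:ℤ) + y := fun hd => by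
      have h4 := h3 2 Nat.prime_two (Or.inl (by exact_mod_cast hd))
      push_cast at h4
      linarith
    have k3 : ¬ (3:ℤ) ∣ (u:ℤ) + y := fun hd => by
      have h4 := h3 3 Nat.prime_three (Or.inl (by exact_mod_cast hd))
      push_cast at h4
      linarith
    have k4 : ¬ (3:ℤ) ∣ (u:ℤ) - y := fun hd => by
      have h4 := h3 3 Nat.prime_three (Or.inr (by exact_mod_cast hd))
      push_cast at h4
      linarith
    have m1 : u % 3 = 0 ∨ u % 3 = 1 ∨ u % 3 = 2 := by omega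
    have m2 : y % 3 = 0 ∨ y % 3 = 1 ∨ y % 3 = 2 := by omega
    refine ⟨by omega, ?_⟩
    rcases m1 with m1 | m1 | m1 <;> rcases m2 with m2 | m2 | m2 <;> constructor <;> intro h5 <;> omega
  · have h3 := h2 y hy
    have k2 : ¬ 2 ∣ y := fun hd => by
      have := (Nat.prime_dvd_prime_iff_eq Nat.prime_two h3).1 hd
      omega
    have k3 : ¬ 3 ∣ y := fun hd => by
      have := (Nat.prime_dvd_prime_iff_eq Nat.prime_three h3).1 hd
      omega
    unfold OT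
    omega

/-- **Chen neighbours among the hubs.** Proof. `T = A ∩ Γ`. `A ⊆ Icc 1 n`; the elements of `A` outside of `Γ` are `< 32 Z` or
in `Icc (32 Z) n \ Γ`: at most `64 n^(1-B) + n^(1-c/8)`. `Large.card_ge` of `H18C`: `A.card ≥ ε n/(log n)² ≥ n^(1-B/2)`.
So `T.card ≥ n^(1-B/2) - 64 n^(1-B) - n^(1-c/8) ≥ n^(1-2B)` (`Nm.cst`, `c ≥ 100 B`). `G6_type` (`y ≥ 32 Z > 3`). -/
theorem G6_chen {ε : ℝ} (hε : 0 < ε) {n Z u : ℕ} {B b c : ℝ} (hN : Nm n b) (hbB : 100 * b ≤ B)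
    (hBc : 100 * B ≤ c) (hc : c ≤ 1) (hZ : 1 ≤ Z) (hZ2 : (Z : ℝ) ≤ 2 * (n : ℝ) ^ (1 - B))
    (hlog : 1 ≤ Real.log n) (hbig : (n : ℝ) ^ (1 - B / 2) ≤ ε * n / (Real.log n) ^ 2)
    (h10 : 3 < (n : ℝ) ^ (1 / 10 : ℝ)) {Γ : Finset ℕ} (hΓ : Γ ⊆ Icc (32 * Z) n)
    (hco : ((Icc (32 * Z) n \ Γ).card : ℝ) ≤ (n : ℝ) ^ (1 - c / 8)) {A : Finset ℕ}
    (hA : Large ε n u A) (hAy : ∀ y ∈ A, chA u y) :
    ∃ T : Finset ℕ, T ⊆ Γ ∧ (n : ℝ) ^ (1 - 2 * B) ≤ T.card ∧ ∀ h ∈ T, OT u h ∧ chA u h := by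
  classical
  have hb := hN.b_pos
  refine ⟨A ∩ Γ, Finset.inter_subset_right, ?_, ?_⟩
  · have h1 : A \ Γ ⊆ Finset.range (32 * Z) ∪ (Icc (32 * Z) n \ Γ) := by
      intro y hy
      rw [Finset.mem_sdiff] at hy
      have h2 := Finset.mem_Icc.1 (hA.1 hy.1)
      rw [Finset.mem_union, Finset.mem_range, Finset.mem_sdiff, Finset.mem_Icc]
      by_cases h3 : y < 32 * Z
      · exact Or.inl h3
      · exact Or.inr ⟨⟨by omega, h2.2⟩, hy.2⟩
    have h2 : (A \ Γ).card ≤ 32 * Z + (Icc (32 * Z) n \ Γ).card := by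
      refine (Finset.card_le_card h1).trans ((Finset.card_union_le _ _).trans ?_)
      rw [Finset.card_range]
    have h3 : ((A \ Γ).card : ℝ) ≤ 32 * Z + ((Icc (32 * Z) n \ Γ).card : ℝ) := by exact_mod_cast h2
    have h4 : (A \ Γ).card + (A ∩ Γ).card = A.card := Finset.card_sdiff_add_card_inter A Γ
    have h5 : ((A \ Γ).card : ℝ) + ((A ∩ Γ).card : ℝ) = A.card := by exact_mod_cast h4
    have h6 := hA.card_ge hε hlog
    have e1 : 256 * (n : ℝ) ^ (1 - B) ≤ (n : ℝ) ^ (1 - B / 2) := hN.cst (by norm_num) (by linarith)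
    have e2 : 4 * (n : ℝ) ^ (1 - c / 8) ≤ (n : ℝ) ^ (1 - B / 2) := hN.cst (by norm_num) (by linarith)
    have e3 : 4 * (n : ℝ) ^ (1 - 2 * B) ≤ (n : ℝ) ^ (1 - B / 2) := hN.cst (by norm_num) (by linarith)
    linarith
  · intro h hh
    rw [Finset.mem_inter] at hh
    have h1 := Finset.mem_Icc.1 (hΓ hh.2)
    exact ⟨G6_type hA h10 hh.1 (by omega), hAy h hh.1⟩

open Classical in
/-- **Neighbours among the hubs.** Proof. `T` = the `h ∈ nb (64 Z) u ∩ Γ` with `OT u h`. `nb (64 Z) u ⊆ Ico (64 Z) (128 Z) ⊆ Icc (32 Z) n`,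
so at most `n^(1-c/8)` elements are lost by the intersection with `Γ`, and at most `3` by `OT` (`c0_exc` of `H96G`):
`T.card ≥ n^(1-B-4b) - n^(1-c/8) - 3 ≥ n^(1-2B)` (`Nm.cst`). -/
theorem G6_near {n Z u : ℕ} {B b c : ℝ} (hN : Nm n b) (hbB : 100 * b ≤ B)
    (hBc : 100 * B ≤ c) (hc : c ≤ 1) (hZn : 256 * Z ≤ n) {Γ : Finset ℕ}
    (hco : ((Icc (32 * Z) n \ Γ).card : ℝ) ≤ (n : ℝ) ^ (1 - c / 8))
    (hu : (n : ℝ) ^ (1 - B - 4 * b) ≤ (nb (64 * Z) u).card) :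
    ∃ T : Finset ℕ, T ⊆ Γ ∧ (n : ℝ) ^ (1 - 2 * B) ≤ T.card ∧ ∀ h ∈ T, OT u h ∧ hadj u h := by
  have hb := hN.b_pos
  refine ⟨(nb (64 * Z) u ∩ Γ).filter fun y => OT u y, (Finset.filter_subset _ _).trans Finset.inter_subset_right, ?_, ?_⟩
  · have h1 : nb (64 * Z) u ⊆ ((nb (64 * Z) u ∩ Γ).filter fun y => OT u y) ∪
        ((Icc (32 * Z) n \ Γ) ∪ (Ico (64 * Z) (2 * (64 * Z))).filter fun y => hadj u y ∧ ¬ OT u y) := by
      intro y hy
      have hy2 := hy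
      rw [nb, Finset.mem_filter, Finset.mem_Ico] at hy2
      rw [Finset.mem_union, Finset.mem_union, Finset.mem_filter, Finset.mem_filter, Finset.mem_inter, Finset.mem_sdiff,
        Finset.mem_Icc, Finset.mem_Ico]
      by_cases h2 : y ∈ Γ
      · by_cases h3 : OT u y
        · exact Or.inl ⟨⟨hy, h2⟩, h3⟩
        · exact Or.inr (Or.inr ⟨hy2.1, hy2.2, h3⟩)
      · exact Or.inr (Or.inl ⟨⟨by omega, by omega⟩, h2⟩)
    have h2 : (nb (64 * Z) u).card ≤ ((nb (64 * Z) u ∩ Γ).filter fun y => OT u y).card +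
        ((Icc (32 * Z) n \ Γ).card + 3) := by
      refine (Finset.card_le_card h1).trans ((Finset.card_union_le _ _).trans ?_)
      refine Nat.add_le_add_left ((Finset.card_union_le _ _).trans ?_) _
      exact Nat.add_le_add_left (c0_exc u _) _
    have h3 : ((nb (64 * Z) u).card : ℝ) ≤ (((nb (64 * Z) u ∩ Γ).filter fun y => OT u y).card : ℝ) +
        (((Icc (32 * Z) n \ Γ).card : ℝ) + 3) := by exact_mod_cast h2
    have e1 : 12 * (n : ℝ) ^ (0 : ℝ) ≤ (n : ℝ) ^ (1 - B - 4 * b) := hN.cst (by norm_num) (by linarith)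
    rw [Real.rpow_zero] at e1
    have e2 : 4 * (n : ℝ) ^ (1 - c / 8) ≤ (n : ℝ) ^ (1 - B - 4 * b) := hN.cst (by norm_num) (by linarith)
    have e3 : 4 * (n : ℝ) ^ (1 - 2 * B) ≤ (n : ℝ) ^ (1 - B - 4 * b) := hN.cst (by norm_num) (by linarith)
    linarith
  · intro h hh
    rw [Finset.mem_filter, Finset.mem_inter, nb, Finset.mem_filter] at hh
    exact ⟨hh.2, hh.1.1.2⟩

end Pool.Agent.Lib.H59V
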