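import Pool.Agent.Lib.H59V.G4
import Pool.Agent.Lib.H59V.G5
import Pool.Agent.Lib.H59V.G6

/-!
# Project H59V, chunk G7 (M): few Chen edges, halved coordinates
-/

open Finset

namespace Pool.Agent.Lib.H59V

open Pool.Agent.Lib.GoldbachGraph (hadj hadj_comm)
open Pool.Agent.Lib.H96G
open Pool.Agent.Lib.H18C

/-- **Few Chen edges.** Proof. `G5_hubs`. For `u ∈ Icc lo n`: if `u ∈ Γ2` let `S u` be the set of `G6_near` (`g0_hadj`), else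
the set of `G6_chen` (for the set `A` of `hC`). `Bd = Icc lo n \ Γ2`: it is contained in `range (256 Z)` and
`Icc (256 Z) n \ Γ2`, so it has at most `512 n^(1-B) + n^(1-c/8)` elements. `G4_add` with `s = n^(1-c/8)`,
`t = n^(1-B-4b)`, `τ = n^(1-2B)` and `r = ⌈n^(3B)⌉₊` (`n^(3B) ≤ r ≤ 2 n^(3B)`): `s + 3 < t`,
`r s ≤ 2 n^(1-c/8+3B) ≤ n^(1-2B)/2`, `log (n+1) * 2 n ≤ 2 n log (8n) < n^(1+B) ≤ r τ` (`Nm.lg`, `Nm.cst`; `log (n+1) ≤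
log (8n)`). So `E.card ≤ 512 n^(1-B) + n^(1-c/8) + 4 n^(6B) ≤ n^(1-B/3)` (`B ≤ 1/100`). -/
theorem G7_few {ε : ℝ} (hε : 0 < ε) {lo n M : ℕ} (hlo : lo ≤ 1) {L : ℕ → ℤ → ℝ} {c B b : ℝ}
    (hN : Nm n b) (h : GC n M L c B b) (hlog : 1 ≤ Real.log n)
    (hbig : (n : ℝ) ^ (1 - B / 2) ≤ ε * n / (Real.log n) ^ 2) (h10 : 3 < (n : ℝ) ^ (1 / 10 : ℝ))
    (hC : ∀ u : ℕ, u ≤ n → ∃ A : Finset ℕ, Large ε n u A ∧ ∀ y ∈ A, chA u y) :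
    ∃ E : Finset (ℕ × ℕ), (E.card : ℝ) ≤ (n : ℝ) ^ (1 - B / 3) ∧ ChE lo n E ∧
      ∀ u ∈ Icc lo n, ∀ v ∈ Icc lo n, (HE lo n E).edist u v ≤ 5 ∧
        (u % 2 = v % 2 → (HE lo n E).edist u v ≤ 4) := by
  classical
  obtain ⟨Z, Γ, Γ2, hZ1, hZ2, hZn, hHb, hco, hΓ2, hco2, hnb⟩ := G5_hubs hN h
  have hb0 := h.b_pos
  have hbB := h.hb
  have hBc := h.hB
  have hc1 := h.hc
  have hB0 : 0 < B := by linarith
  have hn1 := hN.one_le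
  -- the sets of hubs
  have hex : ∀ u : ℕ, ∃ T : Finset ℕ, u ∈ Icc lo n → T ⊆ Γ ∧ (n : ℝ) ^ (1 - 2 * B) ≤ T.card ∧
      (∀ h ∈ T, OT u h ∧ chA u h) ∧ (u ∈ Γ2 → ∀ h ∈ T, hadj u h) := by
    intro u
    by_cases hu : u ∈ Icc lo n
    · by_cases hu2 : u ∈ Γ2
      · obtain ⟨T, hT1, hT2, hT3⟩ := G6_near hN hbB hBc hc1 hZn hco (hnb u hu2)
        exact ⟨T, fun _ => ⟨hT1, hT2, fun h hh => ⟨(hT3 h hh).1, g0_hadj (hT3 h hh).2⟩, fun _ h hh => (hT3 h hh).2⟩⟩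
      · obtain ⟨A, hA, hAy⟩ := hC u (mem_Icc.1 hu).2
        obtain ⟨T, hT1, hT2, hT3⟩ := G6_chen hε hN hbB hBc hc1 hZ1 hZ2 hlog hbig h10 hHb.sub hco hA hAy
        exact ⟨T, fun _ => ⟨hT1, hT2, hT3, fun h1 => absurd h1 hu2⟩⟩
    · exact ⟨∅, fun h1 => absurd h1 hu⟩
  choose S hS using hex
  -- the numbers
  obtain ⟨s, hs⟩ : ∃ s : ℝ, s = (n : ℝ) ^ (1 - c / 8) := ⟨_, rfl⟩
  obtain ⟨r, hr⟩ : ∃ r : ℕ, r = ⌈(n : ℝ) ^ (3 * B)⌉₊ := ⟨_, rfl⟩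
  have hs0 : 0 ≤ s := by
    rw [hs]
    exact (hN.ppos _).le
  have hs1 : 1 ≤ s := by
    rw [hs]
    exact Real.one_le_rpow hn1 (by linarith)
  have hst : s + 3 < (n : ℝ) ^ (1 - B - 4 * b) := by
    have h1 : 5 * (n : ℝ) ^ (1 - c / 8) ≤ (n : ℝ) ^ (1 - B - 4 * b) := hN.cst (by norm_num) (by linarith)
    rw [← hs] at h1
    linarith
  have hr1 : (n : ℝ) ^ (3 * B) ≤ r := by
    rw [hr]
    exact Nat.le_ceil _
  have hr2 : (r : ℝ) ≤ 2 * (n : ℝ) ^ (3 * B) := by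
    have h1 : (r : ℝ) < (n : ℝ) ^ (3 * B) + 1 := by
      rw [hr]
      exact Nat.ceil_lt_add_one (hN.ppos _).le
    have h2 : 1 ≤ (n : ℝ) ^ (3 * B) := Real.one_le_rpow hn1 (by linarith)
    linarith
  have hrs : r * s ≤ (n : ℝ) ^ (1 - 2 * B) / 2 := by
    have h1 : r * s ≤ 2 * (n : ℝ) ^ (3 * B) * s := mul_le_mul_of_nonneg_right hr2 hs0
    have h2 : (n : ℝ) ^ (3 * B) * (n : ℝ) ^ (1 - c / 8) = (n : ℝ) ^ (3 * B + (1 - c / 8)) := hN.mul _ _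
    have h3 : 4 * (n : ℝ) ^ (3 * B + (1 - c / 8)) ≤ (n : ℝ) ^ (1 - 2 * B) := hN.cst (by norm_num) (by linarith)
    rw [← h2, ← hs] at h3
    linarith
  have hl : Real.log ((n : ℝ) + 1) * (2 * n) < r * (n : ℝ) ^ (1 - 2 * B) := by
    have h1 : Real.log ((n : ℝ) + 1) ≤ Real.log (8 * n) := Real.log_le_log (by linarith) (by linarith)
    have h2 := hN.lg (K := 3) (x := 1) (y := 1 + B) (j := 1) (by norm_num) (by norm_num) (by linarith)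
    rw [pow_one, Real.rpow_one] at h2
    have h3 : (n : ℝ) ^ (1 + B) ≤ r * (n : ℝ) ^ (1 - 2 * B) := by
      have h4 : (n : ℝ) ^ (1 + B) = (n : ℝ) ^ (3 * B) * (n : ℝ) ^ (1 - 2 * B) := by
        rw [hN.mul]
        congr 1
        ring
      rw [h4]
      exact mul_le_mul_of_nonneg_right hr1 (hN.ppos _).le
    have h4 : Real.log ((n : ℝ) + 1) * (2 * n) ≤ Real.log (8 * n) * (2 * n) :=
      mul_le_mul_of_nonneg_right h1 (by linarith)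
    have h5 : 0 < Real.log (8 * n) * n := mul_pos (by linarith [hN.ell]) hN.pos
    linarith
  obtain ⟨E, hE1, hE2, hE3⟩ := G4_add (n := n) (Z := Z) hlo hZ1 (s := s) (t := (n : ℝ) ^ (1 - B - 4 * b))
    (τ := (n : ℝ) ^ (1 - 2 * B)) (Γ := Γ) hs0 (by rw [hs]; exact hHb) hst S (hN.ppos _)
    (fun u hu => ⟨(hS u hu).1, (hS u hu).2.1, (hS u hu).2.2.1⟩) (Icc lo n \ Γ2) sdiff_subset
    (fun u hu hu2 => (hS u hu).2.2.2 (by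
      by_contra h1
      exact hu2 (mem_sdiff.2 ⟨hu, h1⟩))) (r := r) hrs hl
  refine ⟨E, ?_, hE2, hE3⟩
  have hBd : (((Icc lo n \ Γ2).card : ℕ) : ℝ) ≤ 256 * Z + s := by
    have h1 : Icc lo n \ Γ2 ⊆ range (256 * Z) ∪ (Icc (256 * Z) n \ Γ2) := by
      intro u hu
      rw [mem_sdiff, mem_Icc] at hu
      rw [mem_union, mem_range, mem_sdiff, mem_Icc]
      rcases lt_or_ge u (256 * Z) with h2 | h2
      · exact Or.inl h2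
      · exact Or.inr ⟨⟨h2, hu.1.2⟩, hu.2⟩
    have h2 := (card_le_card h1).trans (card_union_le _ _)
    rw [card_range] at h2
    have h3 : (((Icc lo n \ Γ2).card : ℕ) : ℝ) ≤ ((256 * Z + (Icc (256 * Z) n \ Γ2).card : ℕ) : ℝ) := by
      exact_mod_cast h2
    push_cast at h3
    rw [hs]
    linarith
  have hr3 : (r : ℝ) ^ 2 ≤ 4 * (n : ℝ) ^ (1 - B) := by
    have h1 : (r : ℝ) ^ 2 ≤ (2 * (n : ℝ) ^ (3 * B)) ^ 2 := pow_le_pow_left₀ (Nat.cast_nonneg _) hr2 2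
    have h2 : (2 * (n : ℝ) ^ (3 * B)) ^ 2 = 4 * ((n : ℝ) ^ (3 * B) * (n : ℝ) ^ (3 * B)) := by ring
    have h3 : (n : ℝ) ^ (3 * B) * (n : ℝ) ^ (3 * B) = (n : ℝ) ^ (3 * B + 3 * B) := hN.mul _ _
    have h4 : (n : ℝ) ^ (3 * B + 3 * B) ≤ (n : ℝ) ^ (1 - B) := hN.mono (by linarith)
    rw [h2, h3] at h1
    linarith
  have hs2 : s ≤ (n : ℝ) ^ (1 - B) := by
    rw [hs]
    exact hN.mono (by linarith)
  have hfin : 600 * (n : ℝ) ^ (1 - B) ≤ (n : ℝ) ^ (1 - B / 3) := hN.cst (by norm_num) (by linarith)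
  have hp := hN.ppos (1 - B)
  linarith

end Pool.Agent.Lib.H59V
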