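import Pool.Agent.Lib.H59V.G0
import Pool.Agent.Lib.H96G.E2
import Pool.Agent.Lib.H18C.Cluster

/-!
# Project H59V, chunk G8 (M): transfer to the graphs on even numbers
-/

open Finset

namespace Pool.Agent.Lib.H59V

open Pool.Agent.Goldbach
open Pool.Agent.Lib.GoldbachGraph (hadj hadj_comm)
open Pool.Agent.Lib.H96G
open Pool.Agent.Lib.H18C

/-- Proof. See `hchen` in the proof of `fin_main` (`H18C/Fin.lean`). -/
theorem G8_chen {V : Set ℕ} {x y : ℕ} (hx : 2 * x ∈ V) (hy : 2 * y ∈ V) (h : chA x y) :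
    (chenGraph V).Adj ⟨2 * x, hx⟩ ⟨2 * y, hy⟩ := by
  obtain ⟨hne, h1⟩ := h
  refine ⟨fun h0 => hne ?_, ?_⟩
  · have := congrArg (fun v : V => (v : ℕ)) h0
    simp only at this
    omega
  · have e1 : (2 * x + 2 * y) / 2 = x + y := by omega
    have e2 : (((2 * x : ℕ) : ℤ) - ((2 * y : ℕ) : ℤ)).natAbs / 2 = Nat.dist x y := by
      unfold Nat.dist; omega
    simp only
    rw [e1, e2]
    exact h1

theorem g8_adj {V S : Set ℕ} {lo n : ℕ} (hV2 : ∀ x ∈ Finset.Icc lo n, 2 * x ∈ V)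
    (hS : ∀ m, m.Prime → Odd m → m < 2 * n → m ∈ S) {u v : ℕ} (h : (HL lo n).Adj u v)
    (h1 : u ∈ Finset.Icc lo n) (h2 : v ∈ Finset.Icc lo n) :
    (halfGraph V S).Adj ⟨2 * u, hV2 u h1⟩ ⟨2 * v, hV2 v h2⟩ := by
  have h' : hadj u v ∧ u ∈ Finset.Icc lo n ∧ v ∈ Finset.Icc lo n := h
  obtain ⟨hadj1, -, -⟩ := h'
  rw [halfGraph_adj_iff (x := u) (y := v) rfl rfl]
  obtain ⟨a1, a2, a3, a4⟩ := hadj1
  rw [Finset.mem_Icc] at h1 h2
  have hne : u ≠ v := by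
    rintro rfl
    rw [Nat.dist_self] at a3
    exact Nat.not_prime_zero a3
  have hd : ((u : ℤ) - v).natAbs = Nat.dist u v := by
    unfold Nat.dist
    omega
  obtain ⟨k, hk⟩ := a2
  refine ⟨hne, hS _ a1 ⟨k, hk⟩ (by omega), ?_⟩
  rw [hd]
  refine hS _ a3 a4 ?_
  unfold Nat.dist
  omega

open Classical in
/-- the edge of a pair -/
noncomputable def g8_f {V : Set ℕ} {lo n : ℕ} (hV2 : ∀ x ∈ Finset.Icc lo n, 2 * x ∈ V)
    {E : Finset (ℕ × ℕ)} (hE : ChE lo n E) (p : {p // p ∈ E}) : Sym2 V :=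
  s(⟨2 * p.1.1, hV2 _ (hE p.1 p.2).1⟩, ⟨2 * p.1.2, hV2 _ (hE p.1 p.2).2.1⟩)

theorem g8_walk {V S : Set ℕ} {lo n : ℕ} (hV2 : ∀ x ∈ Finset.Icc lo n, 2 * x ∈ V)
    (hS : ∀ m, m.Prime → Odd m → m < 2 * n → m ∈ S) {E : Finset (ℕ × ℕ)} (hE : ChE lo n E)
    {F : SimpleGraph V} (hF : ∀ (x y : ℕ) (hx : x ∈ Finset.Icc lo n) (hy : y ∈ Finset.Icc lo n),
      x ≠ y → (x, y) ∈ E → F.Adj ⟨2 * x, hV2 x hx⟩ ⟨2 * y, hV2 y hy⟩) {x y : ℕ}
    (p : (HE lo n E).Walk x y) :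
    ∀ (hx : x ∈ Finset.Icc lo n), ∃ hy : y ∈ Finset.Icc lo n,
    ∃ q : (halfGraph V S ⊔ F).Walk ⟨2 * x, hV2 x hx⟩ ⟨2 * y, hV2 y hy⟩, q.length = p.length := by
  induction p with
  | nil => exact fun hx => ⟨hx, .nil, rfl⟩
  | @cons u v w h p ih =>
    intro hx
    have hv : v ∈ Finset.Icc lo n ∧ ∀ hv : v ∈ Finset.Icc lo n,
        (halfGraph V S ⊔ F).Adj ⟨2 * u, hV2 u hx⟩ ⟨2 * v, hV2 v hv⟩ := by
      rcases h with h | h
      · have h' : hadj u v ∧ u ∈ Finset.Icc lo n ∧ v ∈ Finset.Icc lo n := h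
        exact ⟨h'.2.2, fun hv => (le_sup_left : halfGraph V S ≤ _) (g8_adj hV2 hS h hx hv)⟩
      · obtain ⟨hne, h1 | h1⟩ := (SimpleGraph.fromRel_adj _ _ _).mp h
        · exact ⟨(hE _ h1).2.1, fun hv => (le_sup_right : F ≤ _) (hF u v hx hv hne h1)⟩
        · exact ⟨(hE _ h1).1, fun hv =>
            (le_sup_right : F ≤ _) (hF v u hv hx (Ne.symm hne) h1).symm⟩
    obtain ⟨hy, q, hq⟩ := ih hv.1
    refine ⟨hy, .cons (hv.2 hv.1) q, ?_⟩
    rw [SimpleGraph.Walk.length_cons, SimpleGraph.Walk.length_cons, hq]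

/-- **Transfer.** Proof. `F = SimpleGraph.fromEdgeSet` of the set of the pairs `s(⟨2 x, _⟩, ⟨2 y, _⟩)`, `(x, y) ∈ E` (image of `E`
under a map to `Sym2 V`; as `2 x ∈ V` for `(x, y) ∈ E`, use `E.attach` or a `dite`): at most `E.card` edges
(`SimpleGraph.edgeSet_fromEdgeSet`, see the field `few` in `cluster_aux` of `H18C/Cluster.lean`), all of them Chen edges
(`G8_chen`, symmetric). A walk of `HE lo n E` between points of `Icc lo n` gives a walk of the same length in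
`halfGraph V S ⊔ F`: as `e2_walk` and `E2_edist` in `H96G/E2.lean`, an edge of `EG E` going to an edge of `F`
(`SimpleGraph.fromRel_adj`, `SimpleGraph.fromEdgeSet_adj`). -/
theorem G8_transfer {V S : Set ℕ} {lo n : ℕ} (hn : 1 ≤ n) (hV2 : ∀ x ∈ Finset.Icc lo n, 2 * x ∈ V)
    (hS : ∀ m, m.Prime → Odd m → m < 2 * n → m ∈ S) {E : Finset (ℕ × ℕ)} (hE : ChE lo n E) :
    ∃ F : SimpleGraph V, F ≤ chenGraph V ∧ F.edgeSet.ncard ≤ E.card ∧
      ∀ (x : ℕ) (hx : x ∈ Finset.Icc lo n) (y : ℕ) (hy : y ∈ Finset.Icc lo n) (k : ℕ),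
        (HE lo n E).edist x y ≤ k →
        (halfGraph V S ⊔ F).edist ⟨2 * x, hV2 x hx⟩ ⟨2 * y, hV2 y hy⟩ ≤ k := by
  classical
  set T : Finset (Sym2 V) := E.attach.image (g8_f hV2 hE) with hT
  refine ⟨SimpleGraph.fromEdgeSet (T : Set (Sym2 V)), ?_, ?_, ?_⟩
  · intro a b hab
    rw [SimpleGraph.fromEdgeSet_adj] at hab
    obtain ⟨h1, -⟩ := hab
    rw [Finset.mem_coe, hT, Finset.mem_image] at h1
    obtain ⟨p, -, hp⟩ := h1
    have h2 := (hE p.1 p.2).2.2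
    have h3 := G8_chen (hV2 _ (hE p.1 p.2).1) (hV2 _ (hE p.1 p.2).2.1) h2
    unfold g8_f at hp
    rw [Sym2.eq_iff] at hp
    rcases hp with ⟨ha, hb⟩ | ⟨ha, hb⟩
    · rw [← ha, ← hb]
      exact h3
    · rw [← ha, ← hb]
      exact h3.symm
  · rw [SimpleGraph.edgeSet_fromEdgeSet]
    calc ((T : Set (Sym2 V)) \ _).ncard ≤ (T : Set (Sym2 V)).ncard :=
          Set.ncard_le_ncard Set.diff_subset (Finset.finite_toSet T)
      _ = T.card := Set.ncard_coe_finset T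
      _ ≤ E.attach.card := Finset.card_image_le
      _ = E.card := Finset.card_attach
  · intro x hx y hy k h
    have hr : (HE lo n E).Reachable x y := by
      apply SimpleGraph.reachable_of_edist_ne_top
      intro h0
      rw [h0] at h
      exact absurd h (by simp)
    obtain ⟨p, hp⟩ := hr.exists_walk_length_eq_edist
    obtain ⟨hy', q, hq⟩ := g8_walk (S := S) hV2 hS hE
      (F := SimpleGraph.fromEdgeSet (T : Set (Sym2 V))) (by
        intro u v hu hv hne huv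
        rw [SimpleGraph.fromEdgeSet_adj]
        refine ⟨?_, ?_⟩
        · rw [Finset.mem_coe, hT, Finset.mem_image]
          exact ⟨⟨(u, v), huv⟩, Finset.mem_attach _ _, rfl⟩
        · intro h0
          have := congrArg (fun v : V => (v : ℕ)) h0
          simp only at this
          omega) p hx
    refine (SimpleGraph.edist_le q).trans ?_
    rw [hq, hp]
    exact h

end Pool.Agent.Lib.H59V
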