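import Pool.Agent.Lib.H59V.G7
import Pool.Agent.Lib.H59V.G8

/-!
# Project H59V, chunk G9 (M): few Chen edges give diameter five, both families
-/

open Finset

namespace Pool.Agent.Lib.H59V

open Pool.Agent.Goldbach
open Pool.Agent.Lib.H96G
open Pool.Agent.Lib.H18C

/-- Every vertex of `G` has at least `c n/(log n)²` Chen neighbours, and there are at most `n^(1-δ)` Chen edges such
that in `G` with these edges added all distances are at most `5`, and at most `4` between vertices congruent modulo `4`. -/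
structure FewChen {V : Set ℕ} (G : SimpleGraph V) (δ c : ℝ) (n : ℕ) : Prop where
  many : ∀ u : V, c * n / (Real.log n) ^ 2 ≤ ((chenGraph V).neighborSet u).ncard
  few : ∃ F : SimpleGraph V, F ≤ chenGraph V ∧ (F.edgeSet.ncard : ℝ) ≤ (n : ℝ) ^ (1 - δ) ∧
    ∀ u v : V, (G ⊔ F).edist u v ≤ 5 ∧ ((u : ℕ) % 4 = v % 4 → (G ⊔ F).edist u v ≤ 4)

/-- Proof. The field `many` in `cluster_aux` (`H18C/Cluster.lean`). -/
theorem G9_many {ε : ℝ} (hε : 0 < ε) {n : ℕ} (hlog : 1 ≤ Real.log n)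
    (h1 : ∀ X : ℕ, X ≤ n → ∃ A : Finset ℕ, Large ε n X A ∧ ∀ y ∈ A, chA X y)
    {V : Set ℕ} (hV : ∀ a ∈ V, Even a ∧ a ≤ 2 * n) (hV2 : ∀ x ∈ Finset.Icc 1 n, 2 * x ∈ V) (u : V) :
    ε * n / (Real.log n) ^ 2 ≤ ((chenGraph V).neighborSet u).ncard := by
  classical
  have hVfin : V.Finite := (Set.finite_Iic (2 * n)).subset fun a ha => (hV a ha).2
  have : Finite V := hVfin.to_subtype
  have hform : ∀ u : V, ∃ X : ℕ, X ≤ n ∧ ∃ hX : 2 * X ∈ V, u = ⟨2 * X, hX⟩ := by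
    rintro ⟨a, ha⟩
    obtain ⟨⟨X, hX⟩, han⟩ := hV a ha
    have hax : a = 2 * X := by omega
    subst hax
    exact ⟨X, by omega, ha, rfl⟩
  obtain ⟨X, hXn, hX, rfl⟩ := hform u
  obtain ⟨A, hA, hAy⟩ := h1 X hXn
  refine (hA.card_ge hε hlog).trans ?_
  have hcard : A.card ≤ ((chenGraph V).neighborSet ⟨2 * X, hX⟩).ncard := by
    rw [← Set.ncard_coe_finset]
    refine Set.ncard_le_ncard_of_injOn
      (fun y : ℕ => if h : 2 * y ∈ V then (⟨2 * y, h⟩ : V) else ⟨2 * X, hX⟩) ?_ ?_ (Set.toFinite _)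
    · intro y hy
      rw [Finset.mem_coe] at hy
      have hyV : 2 * y ∈ V := hV2 y (hA.1 hy)
      simp only [dif_pos hyV]
      exact G8_chen hX hyV (hAy y hy)
    · intro y hy y' hy' he
      rw [Finset.mem_coe] at hy hy'
      have hyV : 2 * y ∈ V := hV2 y (hA.1 hy)
      have hyV' : 2 * y' ∈ V := hV2 y' (hA.1 hy')
      simp only [dif_pos hyV, dif_pos hyV'] at he
      have := congrArg (fun v : V => (v : ℕ)) he
      simp only at this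
      omega
  exact_mod_cast hcard

/-- One graph. -/
theorem g9_one {ε : ℝ} (hε : 0 < ε) {lo n M : ℕ} (hlo : lo ≤ 1) (hn : 1 ≤ n) {L : ℕ → ℤ → ℝ} {c B b δ : ℝ}
    (hN : Nm n b) (h : GC n M L c B b) (hlog : 1 ≤ Real.log n)
    (hbig : (n : ℝ) ^ (1 - B / 2) ≤ ε * n / (Real.log n) ^ 2) (h10 : 3 < (n : ℝ) ^ (1 / 10 : ℝ))
    (hC : ∀ u : ℕ, u ≤ n → ∃ A : Finset ℕ, Large ε n u A ∧ ∀ y ∈ A, chA u y) (hδ : δ ≤ B / 3)
    {V S : Set ℕ} (hV : ∀ a ∈ V, Even a ∧ a ≤ 2 * n) (hV' : ∀ a ∈ V, 2 * lo ≤ a)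
    (hV2 : ∀ x ∈ Finset.Icc lo n, 2 * x ∈ V) (hS : ∀ m, m.Prime → Odd m → m < 2 * n → m ∈ S) :
    FewChen (halfGraph V S) δ ε n := by
  obtain ⟨E, hE1, hE2, hE3⟩ := G7_few hε hlo hN h hlog hbig h10 hC
  obtain ⟨F, hF1, hF2, hF3⟩ := G8_transfer hn hV2 hS hE2
  refine ⟨fun u => G9_many hε hlog hC hV (fun x hx => ?_) u, F, hF1, ?_, fun u v => ?_⟩
  · rw [Finset.mem_Icc] at hx
    exact hV2 x (Finset.mem_Icc.2 ⟨by omega, hx.2⟩)
  · have h1 : (F.edgeSet.ncard : ℝ) ≤ E.card := by exact_mod_cast hF2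
    exact h1.trans (hE1.trans (hN.mono (by linarith)))
  · obtain ⟨x, hx, rfl⟩ := e2_half hV hV' hV2 u
    obtain ⟨y, hy, rfl⟩ := e2_half hV hV' hV2 v
    obtain ⟨k1, k2⟩ := hE3 x hx y hy
    refine ⟨?_, fun h4 => ?_⟩
    · have h5 := hF3 x hx y hy 5 (by exact_mod_cast k1)
      exact_mod_cast h5
    · have h6 : x % 2 = y % 2 := by
        have h7 : (2 * x) % 4 = (2 * y) % 4 := h4
        omega
      have h5 := hF3 x hx y hy 4 (by exact_mod_cast k2 h6)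
      exact_mod_cast h5

/-- **Both families.** Proof. `fin_large` of `H18C` gives `ε`; `δ = 33 c0`, `c = ε`. For `n` large (`nm_ev` of `H96G` with `c0`;
`cl_ev` of `H18C` with `ε`, `b = 50 c0`, since `B/2 ≥ 50 c0`: `n^(1-B/2) ≤ n^(1-50 c0)`; `n^(1/10) > 3`): `h` gives `GC`,
`G7_few` with `lo = 0` and `lo = 1`, `G8_transfer` as in `final` of `H96G/Final.lean` (which vertex sets and which `S`),
`e2_half` of `H96G/E2.lean` (every vertex is `2 x` with `x ∈ Icc lo n`), `a % 4 = b % 4` iff `x % 2 = y % 2`. `G9_many`.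
`n^(1-B/3) ≤ n^(1-33 c0)` because `B ≥ 100 b ≥ 100 c0`. -/
theorem few_main (c0 : ℝ) (hc0 : 0 < c0) (n1 : ℕ)
    (h : ∀ n : ℕ, n1 ≤ n → ∃ (M : ℕ) (L : ℕ → ℤ → ℝ) (c B b : ℝ), c0 ≤ b ∧ GC n M L c B b) :
    ∃ δ c : ℝ, 0 < δ ∧ 0 < c ∧ ∃ n0 : ℕ, ∀ n : ℕ, n0 ≤ n →
      FewChen (goldbachGraph n) δ c n ∧ FewChen (nearGoldbachGraph n) δ c n := by
  obtain ⟨ε, hε, n2, h2⟩ := fin_large
  obtain ⟨n3, h3⟩ := nm_ev c0 hc0
  obtain ⟨n4, h4⟩ := cl_ev ε (50 * c0) hε (by positivity)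
  refine ⟨33 * c0, ε, by positivity, hε, max (max n1 n2) (max (max n3 n4) (3 ^ 10 + 1)), fun n hn => ?_⟩
  have hn1 : n1 ≤ n := by omega
  have hn2 : n2 ≤ n := by omega
  have hn3 : n3 ≤ n := by omega
  have hn4 : n4 ≤ n := by omega
  have hn5 : 3 ^ 10 + 1 ≤ n := by omega
  have hn6 : 1 ≤ n := by omega
  obtain ⟨M, L, c, B, b, hb, hG⟩ := h n hn1
  have hN := h3 n hn3 b hb
  have hB1 := hG.hb
  have hB2 := hG.hB
  have hc1 := hG.hc
  obtain ⟨hlog, hsm⟩ := h4 n hn4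
  have hbig : (n : ℝ) ^ (1 - B / 2) ≤ ε * n / (Real.log n) ^ 2 := (hN.mono (by linarith)).trans hsm
  have h10 : 3 < (n : ℝ) ^ (1 / 10 : ℝ) := by
    have k1 : ((3 : ℝ) ^ 10) ^ (1 / 10 : ℝ) < (n : ℝ) ^ (1 / 10 : ℝ) := by
      refine Real.rpow_lt_rpow (by positivity) ?_ (by norm_num)
      have k2 : (3 ^ 10 + 1 : ℕ) ≤ n := hn5
      have k3 : ((3 ^ 10 + 1 : ℕ) : ℝ) ≤ n := by exact_mod_cast k2
      push_cast at k3
      linarith
    have k4 : ((3 : ℝ) ^ 10) ^ (1 / 10 : ℝ) = 3 := by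
      rw [← Real.rpow_natCast, ← Real.rpow_mul (by norm_num)]
      norm_num
    rwa [k4] at k1
  refine ⟨?_, ?_⟩
  · exact g9_one (lo := 0) hε (by norm_num) hn6 hN hG hlog hbig h10 (h2 n hn2) (by linarith)
      (V := goldbachVertices n) (S := {p | p.Prime ∧ Odd p ∧ p < 2 * n})
      (fun a ha => ha) (fun a _ => by simp)
      (fun x hx => by
        rw [Finset.mem_Icc] at hx
        exact ⟨even_two_mul x, by omega⟩)
      (fun m h1 h2 h3 => ⟨h1, h2, h3⟩)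
  · exact g9_one (lo := 1) hε le_rfl hn6 hN hG hlog hbig h10 (h2 n hn2) (by linarith)
      (V := evenVertices n) (S := {1} ∪ {p | p.Prime ∧ Odd p ∧ p < 2 * n})
      (fun a ha => ⟨ha.1, ha.2.2⟩) (fun a ha => by have := ha.2.1; omega)
      (fun x hx => by
        rw [Finset.mem_Icc] at hx
        exact ⟨even_two_mul x, by omega, by omega⟩)
      (fun m h1 h2 h3 => Or.inr ⟨h1, h2, h3⟩)

end Pool.Agent.Lib.H59V
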