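import Pool.Agent.Lib.H24Q.D4
import Pool.Agent.Lib.H24Q.D6

/-!
# Project H59V: main terms for the mixed forms (definitions)

`Gq` is `Gm` of `H24Q` without the (unused) bounds for the coefficients.
-/

open Finset

namespace Pool.Agent.Lib.H59V

open Pool.Agent.Lib.H68T Pool.Agent.Lib.H18Q Pool.Agent.Lib.H59P Pool.Agent.Lib.H24P Pool.Agent.Lib.H24Q

noncomputable section

/-- The geometry. -/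
structure Gq {m g : ℕ} (F : LF m g) (Q N Z : ℕ) (X : Fin g → ℕ) (Y : Fin m → ℕ) : Prop where
  dvdZ : Q ^ 40 ∣ Z
  dvdX : ∀ j, Q ^ 40 ∣ X j
  Zlo : N ≤ Z ^ 2
  Zhi : Z ≤ N
  Xlo : ∀ j, N ≤ X j ^ 2
  Xhi : ∀ j, X j ≤ N
  Ylo : ∀ i, N ≤ Y i ^ 2
  Yhi : ∀ i, Y i ≤ N ^ 2
  uX : ∀ i, |F.u i| * X (F.gi i) ≤ 4 * Y i
  vZ : ∀ i, |F.v i| * Z ≤ 4 * Y i
  lo : ∀ i, ∀ ω ∈ cub (fun j => 2 * X j) X, ∀ n ∈ Ico Z (2 * Z), (Y i : ℤ) ≤ F.map ω i (n : ℤ)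
  hi : ∀ i, ∀ ω ∈ cub (fun j => 2 * X j) X, ∀ n ∈ Ico Z (2 * Z), F.map ω i (n : ℤ) < 4 * Y i

/-- The conclusion for the family `F`: exceptional set `Q^(-c)`, loss `Q^(-b)`. -/
def LowV {m g : ℕ} (F : LF m g) (Q N : ℕ) (c b : ℝ) : Prop :=
  ∀ (Z : ℕ) (X : Fin g → ℕ) (Y : Fin m → ℕ), Gq F Q N Z X Y →
    ∃ Bad : Finset (Fin g → ℕ), Bad ⊆ cub (fun j => 2 * X j) X ∧
      (Bad.card : ℝ) ≤ vol X * (Q : ℝ) ^ (-c) ∧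
      ∀ ω ∈ cub (fun j => 2 * X j) X, ω ∉ Bad → NoFix (F.map ω) →
        Z * (Q : ℝ) ^ (-b) ≤ MF F Q Z Y ω

/-- The mixed forms: `3s + 3n + ρ`, `3s - 3n - ρ`, `3s' + 3n + 2ρ`, `s' - n` with `s = ω 0`, `s' = ω 1`. -/
def LM (ρ : ℤ) : LF 4 2 := ⟨![0, 0, 1, 1], ![3, 3, 3, 1], ![3, -3, 3, -1], ![ρ, -ρ, 2 * ρ, 0]⟩

/-- The product of the projections at `x + y` and `(x - y)/3`. -/
def KC (Q X x y : ℕ) : ℝ :=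
  if (3:ℤ) ∣ (x:ℤ) - y then Lk Q (X / Q ^ 2) ((x : ℤ) + y) * Lk Q (X / 3 / Q ^ 2) (((x : ℤ) - y) / 3) else 0

/-- The lower bound for the mixed correlations: exceptional set `Q^(-c)`, loss `Q^(-b)`. -/
def MixLow (Q N : ℕ) (c b : ℝ) : Prop :=
  ∀ Z X X' : ℕ, 3 * Q ^ 40 ∣ Z → 3 * Q ^ 40 ∣ X → 3 * Q ^ 40 ∣ X' → 9 * N ≤ Z ^ 2 → 2 * Z ≤ X →
    2 * Z ≤ X' → X ≤ N → X' ≤ N →
    ∃ Bad : Finset (ℕ × ℕ), Bad ⊆ Ico (2 * X) (3 * X) ×ˢ Ico (2 * X') (3 * X') ∧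
      (Bad.card : ℝ) ≤ X * X' * (Q : ℝ) ^ (-c) ∧
      ∀ x ∈ Ico (2 * X) (3 * X), ∀ x' ∈ Ico (2 * X') (3 * X'), (x, x') ∉ Bad → x % 2 = x' % 2 →
        3 ∣ x → ¬ 3 ∣ x' →
        Z / 3 * (Q : ℝ) ^ (-b) ≤ ∑ y ∈ Ico Z (2 * Z), KL Q X x y * KC Q X' x' y

end

end Pool.Agent.Lib.H59V
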