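import Pool.Agent.Lib.H24Q.Defs2
import Pool.Agent.Lib.H24P.G1
import Pool.Agent.Lib.H59P.V1
import Pool.Agent.Lib.H59P.V1B
import Pool.Agent.Lib.H24P.V1A
import Pool.Agent.Lib.H24P.V2
import Pool.Agent.Lib.H59V.M0

/-!
# Project H24Q, chunk D1 (M): freezing the coefficients (compare H24P/V1A, V2)
-/

open Finset

namespace Pool.Agent.Lib.H59V

open Pool.Agent.Lib.H68T Pool.Agent.Lib.H18Q Pool.Agent.Lib.H59P Pool.Agent.Lib.H24P Pool.Agent.Lib.H24Q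

theorem md1_bs (s a m : ℕ) (hs : 0 < s) (h : s * a ≤ m) :
    s * a ≤ bs s m ∧ bs s m ≤ m ∧ m < bs s m + s := by
  have h1 : a ≤ m / s := by
    rw [Nat.le_div_iff_mul_le hs, mul_comm]
    exact h
  unfold bs
  refine ⟨?_, Nat.div_mul_le_self m s, ?_⟩
  · rw [mul_comm]
    exact Nat.mul_le_mul_right _ h1
  · have h2 := Nat.div_add_mod' m s
    have h3 := Nat.mod_lt m hs
    omega

/-- Proof. `Q^40` divides `X j > 0` (`N ≤ X j ^ 2`, `1 ≤ N`), so `bw Q X ω ∈ cub (2X) X` and `bs (Z/Q^40) n ∈ Ico Z (2Z)`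
(`bs s x ≤ x < bs s x + s`, and `s` divides the left end of the interval). -/
theorem MD1_base {m g : ℕ} {F : LF m g} {Q N Z : ℕ} {X : Fin g → ℕ} {Y : Fin m → ℕ}
    (hG : Gq F Q N Z X Y) (hQ : 1 ≤ Q) (hN : 1 ≤ N) (ω : Fin g → ℕ)
    (hω : ω ∈ cub (fun j => 2 * X j) X) (n : ℕ) (hn : n ∈ Ico Z (2 * Z)) :
    bw Q X ω ∈ cub (fun j => 2 * X j) X ∧ bs (Z / Q ^ 40) n ∈ Ico Z (2 * Z) ∧
      ∀ i, (Q : ℤ) ^ 40 * |F.map ω i (n : ℤ) - fp F Q Z X ω n i| ≤ 8 * Y i := by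
  have hq : 0 < Q ^ 40 := pow_pos (by omega) _
  have hZ0 : 0 < Z := by
    rcases Nat.eq_zero_or_pos Z with h | h
    · have := hG.Zlo
      rw [h] at this
      omega
    · exact h
  have hX0 : ∀ j, 0 < X j := by
    intro j
    rcases Nat.eq_zero_or_pos (X j) with h | h
    · have := hG.Xlo j
      rw [h] at this
      omega
    · exact h
  have hZe : Z = Q ^ 40 * (Z / Q ^ 40) := (Nat.mul_div_cancel' hG.dvdZ).symm
  have hXe : ∀ j, X j = Q ^ 40 * (X j / Q ^ 40) := fun j => (Nat.mul_div_cancel' (hG.dvdX j)).symm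
  have hZs : 0 < Z / Q ^ 40 := Nat.div_pos (Nat.le_of_dvd hZ0 hG.dvdZ) hq
  have hXs : ∀ j, 0 < X j / Q ^ 40 := fun j => Nat.div_pos (Nat.le_of_dvd (hX0 j) (hG.dvdX j)) hq
  have hω' : ∀ j, ω j ∈ Ico (2 * X j) (2 * X j + X j) := fun j => Fintype.mem_piFinset.1 hω j
  have hb : ∀ j, 2 * X j ≤ bw Q X ω j ∧ bw Q X ω j ≤ ω j ∧ ω j < bw Q X ω j + X j / Q ^ 40 := by
    intro j
    have h1 := mem_Ico.1 (hω' j)
    have h2 : (X j / Q ^ 40) * (2 * Q ^ 40) = 2 * X j := by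
      calc (X j / Q ^ 40) * (2 * Q ^ 40) = 2 * (Q ^ 40 * (X j / Q ^ 40)) := by ring
        _ = 2 * X j := by rw [← hXe j]
    have h3 := md1_bs (X j / Q ^ 40) (2 * Q ^ 40) (ω j) (hXs j) (by rw [h2]; exact h1.1)
    rw [h2] at h3
    exact h3
  have hn' := mem_Ico.1 hn
  have hc : Z ≤ bs (Z / Q ^ 40) n ∧ bs (Z / Q ^ 40) n ≤ n ∧ n < bs (Z / Q ^ 40) n + Z / Q ^ 40 := by
    have h2 : (Z / Q ^ 40) * Q ^ 40 = Z := by
      rw [mul_comm]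
      exact hZe.symm
    have h3 := md1_bs (Z / Q ^ 40) (Q ^ 40) n hZs (by rw [h2]; exact hn'.1)
    rw [h2] at h3
    exact h3
  refine ⟨?_, ?_, ?_⟩
  · refine Fintype.mem_piFinset.2 fun j => mem_Ico.2 ⟨(hb j).1, ?_⟩
    exact lt_of_le_of_lt (hb j).2.1 (mem_Ico.1 (hω' j)).2
  · exact mem_Ico.2 ⟨hc.1, lt_of_le_of_lt hc.2.1 hn'.2⟩
  · intro i
    have e1 : F.map ω i (n : ℤ) - fp F Q Z X ω n i =
        F.u i * ((ω (F.gi i) : ℤ) - (bw Q X ω (F.gi i) : ℤ)) +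
          F.v i * ((n : ℤ) - ((bs (Z / Q ^ 40) n : ℕ) : ℤ)) := by
      unfold fp LF.map
      ring
    rw [e1]
    have e2 : |(ω (F.gi i) : ℤ) - (bw Q X ω (F.gi i) : ℤ)| ≤ ((X (F.gi i) / Q ^ 40 : ℕ) : ℤ) := by
      have h1 := hb (F.gi i)
      rw [abs_of_nonneg (by omega)]
      omega
    have e3 : |(n : ℤ) - ((bs (Z / Q ^ 40) n : ℕ) : ℤ)| ≤ ((Z / Q ^ 40 : ℕ) : ℤ) := by
      rw [abs_of_nonneg (by omega)]
      omega
    have e4 : (Q : ℤ) ^ 40 * ((X (F.gi i) / Q ^ 40 : ℕ) : ℤ) = X (F.gi i) := by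
      have := hXe (F.gi i)
      exact_mod_cast this.symm
    have e5 : (Q : ℤ) ^ 40 * ((Z / Q ^ 40 : ℕ) : ℤ) = Z := by
      exact_mod_cast hZe.symm
    have hQp : (0 : ℤ) ≤ (Q : ℤ) ^ 40 := by positivity
    calc (Q : ℤ) ^ 40 * |F.u i * ((ω (F.gi i) : ℤ) - (bw Q X ω (F.gi i) : ℤ)) +
          F.v i * ((n : ℤ) - ((bs (Z / Q ^ 40) n : ℕ) : ℤ))|
        ≤ (Q : ℤ) ^ 40 * (|F.u i| * ((X (F.gi i) / Q ^ 40 : ℕ) : ℤ) +
          |F.v i| * ((Z / Q ^ 40 : ℕ) : ℤ)) := by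
          refine mul_le_mul_of_nonneg_left ((abs_add_le _ _).trans ?_) hQp
          rw [abs_mul, abs_mul]
          exact add_le_add (mul_le_mul_of_nonneg_left e2 (abs_nonneg _))
            (mul_le_mul_of_nonneg_left e3 (abs_nonneg _))
      _ = |F.u i| * ((Q : ℤ) ^ 40 * ((X (F.gi i) / Q ^ 40 : ℕ) : ℤ)) +
          |F.v i| * ((Q : ℤ) ^ 40 * ((Z / Q ^ 40 : ℕ) : ℤ)) := by ring
      _ = |F.u i| * X (F.gi i) + |F.v i| * Z := by rw [e4, e5]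
      _ ≤ 8 * Y i := by
          have h1 := hG.uX i
          have h2 := hG.vZ i
          linarith

/-- **D1.** Proof. Compare `V1_pt` in `H24P/V1A.lean`. `Lk = SG (Cc i x) x` at `x = F.map ω i n ∈ [Y_i, 4 Y_i)` (`Cf.eq`), the
frozen point `fp` is in `[Y_i, 4 Y_i)` too (`MD1_base`, `Gq.lo`, `Gq.hi`), the distance is at most `8 Y_i/Q^40`, so the
coefficients differ by at most `16 Q³/Q^40` (`V1a` in the right order); `S1b`, at most `Q²` characters (`card_PC_le`),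
`dQ ≤ Q`: each factor changes by at most `1600 (1+log Q)³ Q^6/Q^40`, and all factors are at most `300 (1+log Q)³ Q`
(`Cf.le`, `Cf.sum`): `v1b_prod`. For `Q ≥ Q0(m)`... the powers of `Q` depend on `m`: `≤ Q^(-10)` for `m ≤ 4`. -/
theorem MD1_pt (m : ℕ) (hm : m ≤ 4) : ∃ Q0 : ℕ, ∀ (g : ℕ) (F : LF m g) (Q N Z : ℕ) (X : Fin g → ℕ)
    (Y : Fin m → ℕ), Q0 ≤ Q → 1 ≤ N → Gq F Q N Z X Y → ∀ (Cc : Fin m → ℤ → Ch → ℂ)
    (mb : Fin m → Ch → ℝ), (∀ i, Cf Q (Y i) (Cc i) (mb i)) →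
    ∀ ω ∈ cub (fun j => 2 * X j) X, ∀ n ∈ Ico Z (2 * Z),
    ‖((∏ i, Lk Q (Y i / Q ^ 2) (F.map ω i (n : ℤ)) : ℝ) : ℂ) -
      ∏ i, SG Q (Cc i (fp F Q Z X ω n i)) (F.map ω i (n : ℤ))‖ ≤ (Q : ℝ) ^ (-(10) : ℝ) := by
  obtain ⟨Q1, hQ1, hlog⟩ := G1_rlog (64 * 300 ^ 4) 12 1 one_pos
  refine ⟨max Q1 1, fun g F Q N Z X Y hQ hN hG Cc mb hC ω hω n hn => ?_⟩
  have hQge : Q1 ≤ Q := (le_max_left _ _).trans hQ
  have hQ' : 1 ≤ Q := (le_max_right _ _).trans hQ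
  have hQr : (1 : ℝ) ≤ Q := by exact_mod_cast hQ'
  have hQ0 : (0 : ℝ) < Q := by linarith
  have hlogQ : 0 ≤ Real.log Q := Real.log_nonneg hQr
  obtain ⟨b1, b2, b3⟩ := MD1_base hG hQ' hN ω hω n hn
  have hY0 : ∀ i, (0 : ℝ) < Y i := by
    intro i
    have h1 := hG.Ylo i
    rcases Nat.eq_zero_or_pos (Y i) with h | h
    · rw [h] at h1
      omega
    · exact_mod_cast h
  have hval : ∀ i, (Y i : ℤ) ≤ F.map ω i (n : ℤ) ∧ F.map ω i (n : ℤ) ≤ 4 * Y i :=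
    fun i => ⟨hG.lo i ω hω n hn, (hG.hi i ω hω n hn).le⟩
  have hbase : ∀ i, (Y i : ℤ) ≤ fp F Q Z X ω n i ∧ fp F Q Z X ω n i ≤ 4 * Y i :=
    fun i => ⟨hG.lo i _ b1 _ b2, (hG.hi i _ b1 _ b2).le⟩
  set W : ℝ := 300 * (1 + Real.log Q) ^ 3 * Q with hW
  have hW1 : 1 ≤ W := by
    have h1 : (1 : ℝ) ≤ (1 + Real.log Q) ^ 3 := one_le_pow₀ (by linarith)
    rw [hW]
    nlinarith
  have hdq : ∀ x : ℤ, dQ Q x ≤ Q := by
    intro x
    unfold dQ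
    have h4 : ((Icc 1 Q).filter (fun d : ℕ => (d : ℤ) ∣ x)).card ≤ Q := by
      refine (card_filter_le _ _).trans ?_
      simp
    exact_mod_cast h4
  have hdq0 : ∀ x : ℤ, 0 ≤ dQ Q x := fun x => by
    unfold dQ
    exact Nat.cast_nonneg _
  have hC0 : 0 ≤ 100 * (1 + Real.log Q) ^ 3 := by positivity
  have hsg : ∀ (x : ℤ) (i : Fin m), (Y i : ℤ) ≤ x → x ≤ 4 * Y i →
      ‖SG Q (Cc i x) (F.map ω i (n : ℤ))‖ ≤ W := by
    intro x i h1 h2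
    refine (S1b Q hQ' (Cc i x) (mb i) ((hC i).le x h1 h2) _).trans ?_
    have h3 : 0 ≤ 100 * (1 + Real.log Q) ^ 3 * dQ Q (F.map ω i (n : ℤ)) := mul_nonneg hC0 (hdq0 _)
    calc 100 * (1 + Real.log Q) ^ 3 * dQ Q (F.map ω i (n : ℤ)) * ∑ p ∈ PC Q, mb i p
        ≤ 100 * (1 + Real.log Q) ^ 3 * dQ Q (F.map ω i (n : ℤ)) * 3 :=
          mul_le_mul_of_nonneg_left (hC i).sum h3
      _ ≤ 100 * (1 + Real.log Q) ^ 3 * Q * 3 :=
          mul_le_mul_of_nonneg_right (mul_le_mul_of_nonneg_left (hdq _) hC0) (by norm_num)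
      _ = W := by rw [hW]; ring
  have hLk : ((∏ i, Lk Q (Y i / Q ^ 2) (F.map ω i (n : ℤ)) : ℝ) : ℂ) =
      ∏ i, SG Q (Cc i (F.map ω i (n : ℤ))) (F.map ω i (n : ℤ)) := by
    rw [Complex.ofReal_prod]
    exact Finset.prod_congr rfl fun i _ => (hC i).eq _ (hval i).1 (hval i).2
  rw [hLk]
  have key := v1b_prod (Finset.univ : Finset (Fin m))
    (fun i => SG Q (Cc i (F.map ω i (n : ℤ))) (F.map ω i (n : ℤ)))
    (fun i => SG Q (Cc i (fp F Q Z X ω n i)) (F.map ω i (n : ℤ)))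
    (fun _ => W) (16 / (Q : ℝ) ^ 35)
    (by positivity) (fun i => by linarith)
    (fun i _ => hsg _ i (hval i).1 (hval i).2)
    (fun i _ => hsg _ i (hbase i).1 (hbase i).2)
    (fun i _ => ?_)
  · refine key.trans ?_
    rw [Finset.prod_const, Finset.card_univ, Fintype.card_fin]
    have hm4 : (m : ℝ) ≤ 4 := by exact_mod_cast hm
    have hWm : W ^ m ≤ W ^ 4 := pow_le_pow_right₀ hW1 hm
    have hl := hlog Q hQge
    have e12 : (1 + Real.log Q) ^ (12 : ℝ) = (1 + Real.log Q) ^ 12 := by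
      exact_mod_cast Real.rpow_natCast (1 + Real.log Q) 12
    rw [e12, Real.rpow_one] at hl
    have hneg : (Q : ℝ) ^ (-(10) : ℝ) = 1 / (Q : ℝ) ^ 10 := by
      rw [Real.rpow_neg hQ0.le, one_div]
      congr 1
      exact_mod_cast Real.rpow_natCast (Q : ℝ) 10
    rw [hneg]
    calc (m : ℝ) * (16 / (Q : ℝ) ^ 35) * W ^ m ≤ 4 * (16 / (Q : ℝ) ^ 35) * W ^ 4 := by
          refine mul_le_mul ?_ hWm (by positivity) (by positivity)
          exact mul_le_mul_of_nonneg_right hm4 (by positivity)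
      _ = (64 * 300 ^ 4 * (1 + Real.log Q) ^ 12) * (Q : ℝ) ^ 4 / (Q : ℝ) ^ 35 := by
          rw [hW]
          ring
      _ ≤ (Q : ℝ) * (Q : ℝ) ^ 4 / (Q : ℝ) ^ 35 := by
          refine div_le_div_of_nonneg_right ?_ (by positivity)
          exact mul_le_mul_of_nonneg_right hl (by positivity)
      _ ≤ 1 / (Q : ℝ) ^ 10 := by
          rw [div_le_div_iff₀ (by positivity) (by positivity)]
          have h1 : (Q : ℝ) * (Q : ℝ) ^ 4 * (Q : ℝ) ^ 10 = (Q : ℝ) ^ 15 := by ring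
          rw [h1, one_mul]
          exact pow_le_pow_right₀ hQr (by norm_num)
  · have h1 : ∀ p ∈ PC Q, ‖Cc i (F.map ω i (n : ℤ)) p - Cc i (fp F Q Z X ω n i) p‖ ≤
        16 / (Q : ℝ) ^ 37 := by
      intro p hp
      refine (v1a_slow Q (Y i) (Cc i) (mb i) (hC i) _ _ (hbase i).1 (hbase i).2
        (hval i).1 (hval i).2 p hp).trans ?_
      have h2 : (Q : ℝ) ^ 40 * |((F.map ω i (n : ℤ) : ℤ) : ℝ) - ((fp F Q Z X ω n i : ℤ) : ℝ)| ≤
          8 * Y i := by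
        exact_mod_cast b3 i
      have h4 : |((F.map ω i (n : ℤ) : ℤ) : ℝ) - ((fp F Q Z X ω n i : ℤ) : ℝ)| ≤
          (8 * Y i) / (Q : ℝ) ^ 40 := by
        rw [le_div_iff₀ (by positivity), mul_comm]
        exact h2
      have hYi := hY0 i
      calc |((F.map ω i (n : ℤ) : ℤ) : ℝ) - ((fp F Q Z X ω n i : ℤ) : ℝ)| *
            (2 * (Q : ℝ) ^ 3 / Y i)
          ≤ (8 * Y i) / (Q : ℝ) ^ 40 * (2 * (Q : ℝ) ^ 3 / Y i) :=
            mul_le_mul_of_nonneg_right h4 (by positivity)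
        _ = 16 / (Q : ℝ) ^ 37 := by
            field_simp
            ring
    refine (v2_SG Q hQ' _ _ (16 / (Q : ℝ) ^ 37) h1 (by positivity) _).trans ?_
    have h5 : (0 : ℝ) ≤ (1 + Real.log Q) ^ 3 * Q := by positivity
    calc 100 * (1 + Real.log Q) ^ 3 * Q * ((Q : ℝ) ^ 2 * (16 / (Q : ℝ) ^ 37))
        = 16 / (Q : ℝ) ^ 35 * (100 * (1 + Real.log Q) ^ 3 * Q) := by
          field_simp
      _ ≤ 16 / (Q : ℝ) ^ 35 * W := by
          refine mul_le_mul_of_nonneg_left ?_ (by positivity)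
          rw [hW]
          nlinarith

end Pool.Agent.Lib.H59V
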