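import Pool.Agent.Lib.H24Q.D1
import Pool.Agent.Lib.H24Q.D2
import Pool.Agent.Lib.H24Q.B2
import Pool.Agent.Lib.H59P.CF0
import Pool.Agent.Lib.H59P.Z4
import Pool.Agent.Lib.H24P.Z3
import Pool.Agent.Lib.H59V.MD1

/-!
# Project H24Q, chunk D3 (M): the sums MF and their main terms (compare H24P/Z2, Z3, Z4)
-/

open Finset

namespace Pool.Agent.Lib.H59V

open Pool.Agent.Lib.H68T Pool.Agent.Lib.H18Q Pool.Agent.Lib.H59P Pool.Agent.Lib.H24P Pool.Agent.Lib.H24Q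

theorem md3_card {g : ℕ} (b s : Fin g → ℕ) : ((cub b s).card : ℝ) = vol s := by
  unfold cub vol
  rw [Fintype.card_piFinset]
  push_cast
  refine Finset.prod_congr rfl fun i _ => ?_
  rw [Nat.card_Ico, Nat.add_sub_cancel_left]

theorem md3_N (Q N B : ℕ) (hQ : 2 ≤ Q) (hK : 2 * ((B : ℝ) + 50) * Real.log Q ≤ Real.log N) :
    1 ≤ N ∧ ∀ x : ℕ, N ≤ x ^ 2 → Q ^ (B + 50) ≤ x := by
  have hQr : (0 : ℝ) < Q := by exact_mod_cast (show 0 < Q by omega)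
  have hlQ : 0 < Real.log Q := Real.log_pos (by exact_mod_cast (show 1 < Q by omega))
  have hB0 : (0 : ℝ) ≤ B := Nat.cast_nonneg _
  have hN : 1 ≤ N := by
    rcases Nat.eq_zero_or_pos N with h | h
    · rw [h, Nat.cast_zero, Real.log_zero] at hK
      have : 0 < 2 * ((B : ℝ) + 50) * Real.log Q := by positivity
      linarith
    · exact h
  refine ⟨hN, fun x hx => ?_⟩
  have hNr : (0 : ℝ) < N := by exact_mod_cast hN
  have h1 : Real.log ((Q : ℝ) ^ (2 * (B + 50))) ≤ Real.log N := by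
    rw [Real.log_pow]
    refine le_trans (le_of_eq ?_) hK
    push_cast
    ring
  have h2 : (Q : ℝ) ^ (2 * (B + 50)) ≤ N := (Real.log_le_log_iff (by positivity) hNr).1 h1
  have h3 : Q ^ (2 * (B + 50)) ≤ N := by exact_mod_cast h2
  have h4 : (Q ^ (B + 50)) ^ 2 ≤ x ^ 2 := by
    rw [← pow_mul, mul_comm]
    exact h3.trans hx
  exact (Nat.pow_le_pow_iff_left (by norm_num)).1 h4

/-- The mean square. Proof. `MD1_pt`: up to `Z Q^(-10)` for each `ω` (square at most `Z² Q^(-20)`) `MF ω` is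
`∑_n ∏ SG Q (Cc i (fp …)) (F.map ω i n)`. `D2_cells` with `b = 2X`, `M = X`, `s j = X j/Q^40`, `q = N = Q^40`, `H = Z/Q^40`,
`F h n = ∏ SG … - MDf …`: on a cell the frozen points are constant (`E1_bs` of `H24P`: base points `2 X j + t j s j` and
`Z + j H`), the coefficients there have total size `≤ 3` (`Cf.le`, `Cf.sum`, `MD1_base`, `Gq.lo`, `Gq.hi`): `B2_cell` with
`S = cub (2X + t s) s`, `Fam` from `HF` (`Q^B ≤ s j`: `X j ≥ N^(1/2)`, `N ≥ Q^K`, `K ≥ 2 (B + 50)`; the same for `H`),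
`card (cub _ s) = vol s`. -/
theorem MD3_ms (m g B : ℕ) (hm : m ≤ 4) (F : LF m g) (C c : ℝ) (hC : 1 ≤ C) (hc : 0 < c)
    (hF : HF C c B F) : ∃ c' K : ℝ, 0 < c' ∧ 1 ≤ K ∧ ∃ Q0 : ℕ, ∀ (Q N Z : ℕ) (X : Fin g → ℕ)
    (Y : Fin m → ℕ), Q0 ≤ Q → K * Real.log Q ≤ Real.log N → Gq F Q N Z X Y →
    ∀ (Cc : Fin m → ℤ → Ch → ℂ) (mb : Fin m → Ch → ℝ), (∀ i, Cf Q (Y i) (Cc i) (mb i)) →
    ∀ r : ℕ, 1 ≤ r → r ^ 100 ≤ Q →
    ∑ ω ∈ cub (fun j => 2 * X j) X, ‖((MF F Q Z Y ω : ℝ) : ℂ) - MZ F Q Z r X Cc ω‖ ^ 2 ≤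
      vol X * (Z : ℝ) ^ 2 * (Q : ℝ) ^ (-c') := by
  classical
  obtain ⟨c1, hc1, Q1, hcell⟩ := B2_cell m C c hC hc
  obtain ⟨Q2, hpt⟩ := MD1_pt m hm
  have hcm : 0 < min c1 20 := lt_min hc1 (by norm_num)
  obtain ⟨Q3, hQ3, hlog⟩ := G1_rlog 4 0 (min c1 20 / 2) (by positivity)
  refine ⟨min c1 20 / 2, 2 * (B + 50), by positivity, ?_, max (max Q1 Q2) (max Q3 2), ?_⟩
  · have hB0 : (0 : ℝ) ≤ B := Nat.cast_nonneg _
    linarith
  intro Q N Z X Y hQ hK hG Cc mb hCf r hr hr100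
  have q1 : Q1 ≤ Q := (le_max_left _ _).trans ((le_max_left _ _).trans hQ)
  have q2 : Q2 ≤ Q := (le_max_right _ _).trans ((le_max_left _ _).trans hQ)
  have q3 : Q3 ≤ Q := (le_max_left _ _).trans ((le_max_right _ _).trans hQ)
  have q4 : 2 ≤ Q := (le_max_right _ _).trans ((le_max_right _ _).trans hQ)
  have hQ1 : 1 ≤ Q := by omega
  have hQr : (1 : ℝ) ≤ Q := by exact_mod_cast hQ1
  have hQr0 : (0 : ℝ) < Q := by linarith
  have hq40 : 0 < Q ^ 40 := Nat.pow_pos (by omega)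
  obtain ⟨hN, hsq⟩ := md3_N Q N B q4 hK
  have hZ : Q ^ (B + 50) ≤ Z := hsq Z hG.Zlo
  have hX : ∀ j, Q ^ (B + 50) ≤ X j := fun j => hsq (X j) (hG.Xlo j)
  have hdv : ∀ x : ℕ, Q ^ 40 ∣ x → Q ^ (B + 50) ≤ x → Q ^ (B + 10) ≤ x / Q ^ 40 := by
    intro x _ hx
    rw [Nat.le_div_iff_mul_le hq40, ← pow_add]
    exact hx
  set H : ℕ := Z / Q ^ 40 with hH
  set s : Fin g → ℕ := fun j => X j / Q ^ 40 with hs
  have hHlo : Q ^ (B + 10) ≤ H := hdv Z hG.dvdZ hZ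
  have hslo : ∀ j, Q ^ (B + 10) ≤ s j := fun j => hdv (X j) (hG.dvdX j) (hX j)
  have hHpos : 0 < H := lt_of_lt_of_le (Nat.pow_pos (by omega)) hHlo
  have hspos : ∀ j, 0 < s j := fun j => lt_of_lt_of_le (Nat.pow_pos (by omega)) (hslo j)
  have hZH : Z = H * Q ^ 40 := (Nat.div_mul_cancel hG.dvdZ).symm
  have hXs : ∀ j, X j = s j * Q ^ 40 := fun j => (Nat.div_mul_cancel (hG.dvdX j)).symm
  have hv0 : 0 ≤ vol X := Finset.prod_nonneg fun i _ => Nat.cast_nonneg _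
  -- the two parts
  set F2 : (Fin g → ℕ) → ℕ → ℂ := fun ω n =>
    ∏ i, SG Q (Cc i (fp F Q Z X ω n i)) (F.map ω i (n : ℤ)) -
      MDf Q r (fun i => Cc i (fp F Q Z X ω n i)) (F.map ω) with hF2
  set F1 : (Fin g → ℕ) → ℕ → ℂ := fun ω n =>
    ((∏ i, Lk Q (Y i / Q ^ 2) (F.map ω i (n : ℤ)) : ℝ) : ℂ) -
      ∏ i, SG Q (Cc i (fp F Q Z X ω n i)) (F.map ω i (n : ℤ)) with hF1
  have hdiff : ∀ ω, ((MF F Q Z Y ω : ℝ) : ℂ) - MZ F Q Z r X Cc ω =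
      ∑ n ∈ Ico Z (2 * Z), F1 ω n + ∑ n ∈ Ico Z (2 * Z), F2 ω n := by
    intro ω
    unfold MF MZ
    rw [Complex.ofReal_sum, ← Finset.sum_sub_distrib, ← Finset.sum_add_distrib]
    refine Finset.sum_congr rfl fun n _ => ?_
    rw [hF1, hF2]
    ring
  have hZc : ((Ico Z (2 * Z)).card : ℝ) = Z := by
    rw [Nat.card_Ico]
    congr 1
    omega
  have hone : ∀ ω ∈ cub (fun j => 2 * X j) X, ‖∑ n ∈ Ico Z (2 * Z), F1 ω n‖ ^ 2 ≤
      (Z : ℝ) ^ 2 * (Q : ℝ) ^ (-(20) : ℝ) := by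
    intro ω hω
    have h1 : ‖∑ n ∈ Ico Z (2 * Z), F1 ω n‖ ≤ Z * (Q : ℝ) ^ (-(10) : ℝ) := by
      refine (norm_sum_le _ _).trans ?_
      refine (Finset.sum_le_sum fun n hn => hpt g F Q N Z X Y q2 hN hG Cc mb hCf ω hω n hn).trans ?_
      rw [Finset.sum_const, nsmul_eq_mul, hZc]
    refine (pow_le_pow_left₀ (norm_nonneg _) h1 2).trans (le_of_eq ?_)
    rw [mul_pow]
    congr 1
    rw [← Real.rpow_natCast, ← Real.rpow_mul hQr0.le]
    norm_num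
  have hcard : ((cub (fun j => 2 * X j) X).card : ℝ) = vol X := md3_card _ _
  have hsum1 : ∑ ω ∈ cub (fun j => 2 * X j) X, ‖∑ n ∈ Ico Z (2 * Z), F1 ω n‖ ^ 2 ≤
      vol X * (Z : ℝ) ^ 2 * (Q : ℝ) ^ (-(20) : ℝ) := by
    refine (Finset.sum_le_sum hone).trans (le_of_eq ?_)
    rw [Finset.sum_const, nsmul_eq_mul, hcard]
    ring
  have hsum2 : ∑ ω ∈ cub (fun j => 2 * X j) X, ‖∑ n ∈ Ico Z (2 * Z), F2 ω n‖ ^ 2 ≤
      vol X * (Z : ℝ) ^ 2 * (Q : ℝ) ^ (-c1) := by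
    refine D2_cells (fun j => 2 * X j) X s (Q ^ 40) hXs Z H (Q ^ 40) hZH ((Q : ℝ) ^ (-c1))
      (Real.rpow_nonneg (Nat.cast_nonneg _) _) F2 ?_
    intro t ht j hj
    set w0 : Fin g → ℕ := fun i => 2 * X i + t i * s i with hw0
    have hw0m : w0 ∈ cub (fun j => 2 * X j) X := by
      refine Fintype.mem_piFinset.2 fun i => mem_Ico.2 ⟨Nat.le_add_right _ _, ?_⟩
      have h1 : t i * s i < X i := by
        calc t i * s i < Q ^ 40 * s i := Nat.mul_lt_mul_of_pos_right (ht i) (hspos i)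
          _ = X i := by rw [mul_comm]; exact (hXs i).symm
      show 2 * X i + t i * s i < 2 * X i + X i
      omega
    have hn0 : Z + j * H ∈ Ico Z (2 * Z) := by
      have h1 : j * H < Z := by
        calc j * H < Q ^ 40 * H := Nat.mul_lt_mul_of_pos_right hj hHpos
          _ = Z := by rw [mul_comm]; exact hZH.symm
      rw [mem_Ico]
      omega
    have hbw : ∀ ω ∈ cub w0 s, bw Q X ω = w0 := by
      intro ω hω
      funext i
      have h1 := Fintype.mem_piFinset.1 hω i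
      exact E1_bs (hspos i) (Dvd.dvd.mul_left ⟨Q ^ 40, hXs i⟩ 2) h1
    have hbn : ∀ n ∈ Ico (Z + j * H) (Z + j * H + H), bs (Z / Q ^ 40) n = Z + j * H := by
      intro n hn
      exact E1_bs hHpos ⟨Q ^ 40, hZH⟩ hn
    have hfp : ∀ ω ∈ cub w0 s, ∀ n ∈ Ico (Z + j * H) (Z + j * H + H), ∀ i,
        fp F Q Z X ω n i = F.map w0 i ((Z + j * H : ℕ) : ℤ) := by
      intro ω hω n hn i
      unfold fp
      rw [hbw ω hω, hbn n hn]
    have hval : ∀ i, (Y i : ℤ) ≤ F.map w0 i ((Z + j * H : ℕ) : ℤ) ∧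
        F.map w0 i ((Z + j * H : ℕ) : ℤ) ≤ 4 * Y i :=
      fun i => ⟨hG.lo i _ hw0m _ hn0, (hG.hi i _ hw0m _ hn0).le⟩
    set cf : Fin m → Ch → ℂ := fun i => Cc i (F.map w0 i ((Z + j * H : ℕ) : ℤ)) with hcf
    have hcf3 : ∀ i, ∑ p ∈ PC Q, ‖cf i p‖ ≤ 3 := by
      intro i
      refine (Finset.sum_le_sum fun p hp => (hCf i).le _ (hval i).1 (hval i).2 p hp).trans (hCf i).sum
    have hB0 : Q ^ B ≤ H := (Nat.pow_le_pow_right hQ1 (by omega)).trans hHlo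
    have hB4 : Q ^ 4 ≤ H := (Nat.pow_le_pow_right hQ1 (by omega)).trans hHlo
    have hFam := hF Q q4 w0 s (fun j => (Nat.pow_le_pow_right hQ1 (by omega)).trans (hslo j))
    have key := hcell Q q1 (Q ^ B) (Fin g → ℕ) (cub w0 s) F.map hFam r hr hr100 cf hcf3 (Z + j * H) H
      hB0 hB4
    rw [md3_card] at key
    refine le_trans (le_of_eq ?_) key
    refine Finset.sum_congr rfl fun ω hω => ?_
    congr 2
    have h1 : ∀ n ∈ Ico (Z + j * H) (Z + j * H + H), F2 ω n =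
        ∏ i, SG Q (cf i) (F.map ω i (n : ℤ)) - MDf Q r cf (F.map ω) := by
      intro n hn
      have h2 : (fun i => Cc i (fp F Q Z X ω n i)) = cf := by
        funext i
        rw [hcf]
        beta_reduce
        rw [hfp ω hω n hn i]
      have h3 : F2 ω n = ∏ i, SG Q ((fun i => Cc i (fp F Q Z X ω n i)) i) (F.map ω i (n : ℤ)) -
          MDf Q r (fun i => Cc i (fp F Q Z X ω n i)) (F.map ω) := rfl
      rw [h3, h2]
    rw [Finset.sum_congr rfl h1, Finset.sum_sub_distrib, Finset.sum_const, Nat.card_Ico, nsmul_eq_mul,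
      Nat.add_sub_cancel_left]
  have hV0 : 0 ≤ vol X * (Z : ℝ) ^ 2 := by positivity
  have hle : ∀ c' : ℝ, min c1 20 ≤ c' → vol X * (Z : ℝ) ^ 2 * (Q : ℝ) ^ (-c') ≤
      vol X * (Z : ℝ) ^ 2 * (Q : ℝ) ^ (-(min c1 20)) := by
    intro c' hc'
    exact mul_le_mul_of_nonneg_left (Real.rpow_le_rpow_of_exponent_le hQr (by linarith)) hV0
  have f1 := hsum1.trans (hle _ (min_le_right _ _))
  have f2 := hsum2.trans (hle _ (min_le_left _ _))
  have hpt2 : ∀ ω ∈ cub (fun j => 2 * X j) X, ‖((MF F Q Z Y ω : ℝ) : ℂ) - MZ F Q Z r X Cc ω‖ ^ 2 ≤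
      2 * ‖∑ n ∈ Ico Z (2 * Z), F1 ω n‖ ^ 2 + 2 * ‖∑ n ∈ Ico Z (2 * Z), F2 ω n‖ ^ 2 := by
    intro ω _
    rw [hdiff ω]
    have h1 := norm_add_le (∑ n ∈ Ico Z (2 * Z), F1 ω n) (∑ n ∈ Ico Z (2 * Z), F2 ω n)
    refine (pow_le_pow_left₀ (norm_nonneg _) h1 2).trans ?_
    nlinarith [sq_nonneg (‖∑ n ∈ Ico Z (2 * Z), F1 ω n‖ - ‖∑ n ∈ Ico Z (2 * Z), F2 ω n‖)]
  refine (Finset.sum_le_sum hpt2).trans ?_
  rw [Finset.sum_add_distrib, ← Finset.mul_sum, ← Finset.mul_sum]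
  have hfin : 4 * (vol X * (Z : ℝ) ^ 2 * (Q : ℝ) ^ (-(min c1 20))) ≤
      vol X * (Z : ℝ) ^ 2 * (Q : ℝ) ^ (-(min c1 20 / 2)) := by
    have h3 : (Q : ℝ) ^ (-(min c1 20 / 2)) = (Q : ℝ) ^ (min c1 20 / 2) * (Q : ℝ) ^ (-(min c1 20)) := by
      rw [← Real.rpow_add hQr0]
      congr 1
      ring
    have h4 := hlog Q q3
    rw [Real.rpow_zero, mul_one] at h4
    have h5 : 0 ≤ vol X * (Z : ℝ) ^ 2 * (Q : ℝ) ^ (-(min c1 20)) :=
      mul_nonneg hV0 (Real.rpow_nonneg hQr0.le _)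
    rw [h3]
    nlinarith [mul_le_mul_of_nonneg_right h4 h5]
  linarith

/-- **D3.** Proof. Compare `Z4_main`, `Z3_main` in `H24P`. `CF0` of `H59P` for all `i` (`E0 ≤ 1`), `MD3_ms` with `r = px.1`;
`z4_cheb`: `Bad` = the `ω` with `‖MF - MZ‖ > Z Q^(-c'/4)`, at most `vol X Q^(-c'/2)` of them. For the others, for each `n`
`Z3_cell` of `H24P` (`m0 = px.1 ≤ fl Q (1/16)` by `G1_size` with `a = 1`; `th i` = `th` at the frozen point `fp`, which is in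
`[Y_i, 4Y_i)`; `MX px th x p = MX px (fun _ => th x) 0 p` by unfolding), so `Re MZ ≥ Z m0/2`. -/
theorem MD3_main (m g B : ℕ) (hm : m ≤ 4) (F : LF m g) (C c : ℝ) (hC : 1 ≤ C) (hc : 0 < c)
    (hF : HF C c B F) : ∃ c' K : ℝ, 0 < c' ∧ 1 ≤ K ∧ ∃ Q0 : ℕ, ∀ (Q N Z : ℕ) (X : Fin g → ℕ)
    (Y : Fin m → ℕ) (η E0 : ℝ) (px : Ch) (th : ℤ → ℝ), Q0 ≤ Q → K * Real.log Q ≤ Real.log N →
    Gq F Q N Z X Y → px ∈ PC Q → px.1 ^ 100 ≤ Q → (∀ i, Mdl Q (Y i) η E0 px th) → 0 < η →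
    px.2 ^ 2 = 1 → 0 ≤ E0 → 4 * m * E0 ≤ 1 → E0 ≤ 1 →
    ∃ Bad : Finset (Fin g → ℕ), Bad ⊆ cub (fun j => 2 * X j) X ∧
      (Bad.card : ℝ) ≤ vol X * (Q : ℝ) ^ (-c') ∧
      ∀ ω ∈ cub (fun j => 2 * X j) X, ω ∉ Bad → ∀ m0 : ℝ, (∀ th' : Fin m → ℝ, (∀ i, 0 ≤ th' i) →
        (∀ i, th' i ≤ 1 - η) → (px = p0 → ∀ i, th' i = 0) → m0 ≤ PMf Q px th' (F.map ω)) →
        Z * (m0 / 2 - (Q : ℝ) ^ (-c')) ≤ MF F Q Z Y ω := by
  obtain ⟨c1, K, hc1, hK, Q0, hms⟩ := MD3_ms m g B hm F C c hC hc hF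
  obtain ⟨Q1, hQ1, hsize⟩ := G1_size 1
  refine ⟨c1 / 4, K, by positivity, hK, max Q0 Q1, ?_⟩
  intro Q N Z X Y η E0 px th hQ hKN hG hpx hpx100 hM hη hreal hE0 hmE hE1
  have q0 : Q0 ≤ Q := (le_max_left _ _).trans hQ
  have q1 : Q1 ≤ Q := (le_max_right _ _).trans hQ
  have q2 : 1 ≤ Q := hQ1.trans q1
  have hQr : (1 : ℝ) ≤ Q := by exact_mod_cast q2
  have hQr0 : (0 : ℝ) < Q := by linarith
  choose e eb mb b1 b2 b3 b4 using fun i => CF0 Q (Y i) η E0 px th q2 (hM i) hE1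
  have hms' := hms Q N Z X Y q0 hKN hG (fun i m p => MX px th m p + e i m p) mb b4 px.1
    (mem_PC.1 hpx).1 hpx100
  have hv0 : 0 ≤ vol X := prod_nonneg fun i _ => Nat.cast_nonneg _
  rcases Nat.eq_zero_or_pos Z with hZ0 | hZpos
  · refine ⟨∅, empty_subset _, ?_, ?_⟩
    · rw [card_empty, Nat.cast_zero]
      exact mul_nonneg hv0 (Real.rpow_nonneg hQr0.le _)
    · intro ω _ _ m0 _
      unfold MF
      rw [hZ0]
      simp
  have hZr : (0 : ℝ) < Z := by exact_mod_cast hZpos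
  have hTpos : 0 < (Z : ℝ) * (Q : ℝ) ^ (-(c1 / 4)) := by positivity
  have hch := z4_cheb (cub (fun j => 2 * X j) X) (fun ω => ‖((MF F Q Z Y ω : ℝ) : ℂ) -
    MZ F Q Z px.1 X (fun i m p => MX px th m p + e i m p) ω‖) _ _ hTpos hms' (fun _ => norm_nonneg _)
  refine ⟨_, filter_subset _ _, hch.trans ?_, ?_⟩
  · have h1 : ((Z : ℝ) * (Q : ℝ) ^ (-(c1 / 4))) ^ 2 = (Z : ℝ) ^ 2 * (Q : ℝ) ^ (-(c1 / 2)) := by
      rw [mul_pow, ← Real.rpow_natCast ((Q : ℝ) ^ (-(c1 / 4))), ← Real.rpow_mul hQr0.le]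
      congr 2
      push_cast
      ring
    have h2 : (Q : ℝ) ^ (-c1) = (Q : ℝ) ^ (-(c1 / 2)) * (Q : ℝ) ^ (-(c1 / 2)) := by
      rw [← Real.rpow_add hQr0]
      congr 1
      ring
    have h3 : (0 : ℝ) < (Q : ℝ) ^ (-(c1 / 2)) := Real.rpow_pos_of_pos hQr0 _
    have h4 : vol X * (Z : ℝ) ^ 2 * (Q : ℝ) ^ (-c1) / ((Z : ℝ) * (Q : ℝ) ^ (-(c1 / 4))) ^ 2 =
        vol X * (Q : ℝ) ^ (-(c1 / 2)) := by
      rw [h1, h2]
      field_simp
    rw [h4]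
    exact mul_le_mul_of_nonneg_left (Real.rpow_le_rpow_of_exponent_le hQr (by linarith)) hv0
  · intro ω hω hbad m0 hm0
    rw [mem_filter, not_and, not_lt] at hbad
    have h1 := hbad hω
    have hcond := (hsize Q q1 px.1 1 le_rfl le_rfl hpx100).1
    rw [one_mul] at hcond
    have hN : 1 ≤ N := by
      rcases Nat.eq_zero_or_pos N with h | h
      · have h2 := hG.Zhi
        omega
      · exact h
    have hcell : ∀ n ∈ Ico Z (2 * Z), m0 / 2 ≤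
        (MDf Q px.1 (fun i => (fun (i : Fin m) (x : ℤ) (p : Ch) => MX px th x p + e i x p) i
          (fp F Q Z X ω n i)) (F.map ω)).re := by
      intro n hn
      obtain ⟨d1, d2, -⟩ := MD1_base hG q2 hN ω hω n hn
      have hval : ∀ i, (Y i : ℤ) ≤ fp F Q Z X ω n i ∧ fp F Q Z X ω n i ≤ 4 * Y i :=
        fun i => ⟨hG.lo i _ d1 _ d2, (hG.hi i _ d1 _ d2).le⟩
      refine Z3_cell Q px.1 q2 η E0 px hpx hreal dvd_rfl (mem_PC.1 hpx).1 hcond hη hE0 hmE (F.map ω)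
        (fun i => th (fp F Q Z X ω n i)) ?_ ?_ ?_ (fun i => e i (fp F Q Z X ω n i)) _ ?_ ?_ m0 hm0
      · intro i
        exact (hM i).nonneg _ (hval i).1 (hval i).2
      · intro i
        exact (hM i).le _ (hval i).1 (hval i).2
      · intro h0 i
        exact (hM i).triv h0 _
      · intro i
        exact (Finset.sum_le_sum fun p hp => b3 i _ (hval i).1 (hval i).2 p hp).trans (b2 i)
      · intro i p
        rfl
    have hZ3 : Z * (m0 / 2) ≤ (MZ F Q Z px.1 X (fun i m p => MX px th m p + e i m p) ω).re := by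
      unfold MZ
      rw [Complex.re_sum]
      have h2 := Finset.sum_le_sum hcell
      rw [Finset.sum_const, Nat.card_Ico, nsmul_eq_mul] at h2
      have h3 : 2 * Z - Z = Z := by omega
      rw [h3] at h2
      exact h2
    have h5 : (MZ F Q Z px.1 X (fun i m p => MX px th m p + e i m p) ω).re - MF F Q Z Y ω ≤
        Z * (Q : ℝ) ^ (-(c1 / 4)) := by
      refine le_trans ?_ h1
      have h6 := Complex.abs_re_le_norm (((MF F Q Z Y ω : ℝ) : ℂ) -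
        MZ F Q Z px.1 X (fun i m p => MX px th m p + e i m p) ω)
      refine le_trans ?_ h6
      rw [Complex.sub_re, Complex.ofReal_re]
      have h7 := neg_abs_le (MF F Q Z Y ω -
        (MZ F Q Z px.1 X (fun i m p => MX px th m p + e i m p) ω).re)
      linarith
    have h8 : (Z : ℝ) * (m0 / 2 - (Q : ℝ) ^ (-(c1 / 4))) =
        Z * (m0 / 2) - Z * (Q : ℝ) ^ (-(c1 / 4)) := by ring
    rw [h8]
    linarith

end Pool.Agent.Lib.H59V
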