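import Pool.Agent.Lib.H59V.Defs
import Pool.Agent.Lib.H9S.O2

/-!
# Project H59V, chunk O1 (M): the cross kernels as two bilinear forms of H9S
-/

open Finset

namespace Pool.Agent.Lib.H59V

open Pool.Agent.H9S Pool.Agent.H44W
open Pool.Agent.Lib.H68T (lp Lk)

noncomputable section

/-- The weight of the first form. -/
def Wa (v : ℤ) : ℂ := if (3:ℤ) ∣ v then lc (v / 3) else 0

/-- The weights of the second forms. -/
def Wb (Q X : ℕ) (r : ℕ) (v : ℤ) : ℂ := if 3 * v + 2 * r ≤ 4 * X then Lc Q (X / Q ^ 2) (3 * v + 2 * r) else 0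

/-- `f` on the class of `r` modulo `3`. -/
def fb (f : ℕ → ℝ) (r : ℕ) (s : ℤ) : ℂ := ((f (3 * s + r).toNat : ℝ) : ℂ)

/-- `g` on the class of `r` modulo `3`, reflected. -/
def gb (Z : ℕ) (g : ℕ → ℝ) (r : ℕ) (t : ℤ) : ℂ :=
  if ((Z / 3 : ℕ) : ℤ) ≤ -t ∧ -t < 2 * ((Z / 3 : ℕ) : ℤ) then ((g (3 * (-t) + r).toNat : ℝ) : ℂ) else 0

end

/-- First form. Proof. As `e1` in `o2_split` (`H9S/O2.lean`): `o2_x`, `o2_y1`. -/
theorem O1_a (Q X Z : ℕ) (h : 2 * Z ≤ X) (f g : ℕ → ℝ) :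
    BF (Sx X) (Sy X) (Ec Q X) Wa (fun x => ((f x.toNat : ℝ) : ℂ))
        (fun y => if (Z:ℤ) ≤ y ∧ y < 2 * Z then ((g y.toNat : ℝ) : ℂ) else 0) =
      ∑ x ∈ Ico (2 * X) (3 * X), ∑ y ∈ Ico Z (2 * Z), (f x : ℂ) * (g y : ℂ) *
        (lc ((x:ℤ) + y) - Lc Q (X / Q ^ 2) ((x:ℤ) + y)) * Wa ((x:ℤ) - y) := by
  rw [BF, o2_x]
  refine Finset.sum_congr rfl fun x _ => ?_
  rw [Int.toNat_natCast]
  have h1 : ∀ y ∈ Sy X, (f x : ℂ) * (if (Z:ℤ) ≤ y ∧ y < 2 * Z then ((g y.toNat : ℝ) : ℂ) else 0) * Ec Q X ((x:ℤ) + y) *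
      Wa ((x:ℤ) - y) = (if (Z:ℤ) ≤ y ∧ y < 2 * Z then ((fun y : ℤ => ((g y.toNat : ℝ) : ℂ)) y) else 0) *
        ((fun y : ℤ => (f x : ℂ) * Ec Q X ((x:ℤ) + y) * Wa ((x:ℤ) - y)) y) := by
    intro y _
    ring
  rw [Finset.sum_congr rfl h1, o2_y1 X Z h (fun y : ℤ => ((g y.toNat : ℝ) : ℂ))]
  refine Finset.sum_congr rfl fun y _ => ?_
  rw [Int.toNat_natCast, Ec]
  ring

/-- Second form, class `r`. Proof. `o2_x` and `o2_y2` of `H9S` for `X/3`, `Z/3` (`2 (Z/3) ≤ X/3`): the left hand side is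
`∑_s ∑_w f(3s+r) g(3w+r) Ec Q (X/3) (s - w) Wb (s + w)` over `s ∈ [2(X/3), 3(X/3))`, `w ∈ [Z/3, 2(Z/3))`. There
`3 (s + w) + 2r ≤ 4X` (`s + w ≤ 4 (X/3) - 2`), so `Wb = Lc Q (X/Q²) (3(s+w)+2r)`. -/
theorem O1_b (Q X Z r : ℕ) (hr : r < 3) (hX : 3 ∣ X) (hZ : 3 ∣ Z) (h : 2 * Z ≤ X) (f g : ℕ → ℝ) :
    BF (Sx (X / 3)) (Sy (X / 3)) (Ec Q (X / 3)) (Wb Q X r) (fb f r) (gb Z g r) =
      ∑ s ∈ Ico (2 * (X / 3)) (3 * (X / 3)), ∑ w ∈ Ico (Z / 3) (2 * (Z / 3)),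
        (f (3 * s + r) : ℂ) * (g (3 * w + r) : ℂ) *
        (lc ((s:ℤ) - w) - Lc Q (X / 3 / Q ^ 2) ((s:ℤ) - w)) * Lc Q (X / Q ^ 2) (3 * ((s:ℤ) + w) + 2 * r) := by
  obtain ⟨a, rfl⟩ := hX
  obtain ⟨z, rfl⟩ := hZ
  have ha : 3 * a / 3 = a := by omega
  have hz : 3 * z / 3 = z := by omega
  rw [ha, hz]
  have hza : 2 * z ≤ a := by omega
  rw [BF, o2_x]
  refine Finset.sum_congr rfl fun s hs => ?_
  have h1 : ∀ y ∈ Sy a, fb f r (s:ℤ) * gb (3 * z) g r y * Ec Q a ((s:ℤ) + y) * Wb Q (3 * a) r ((s:ℤ) - y) =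
      (if (z:ℤ) ≤ -y ∧ -y < 2 * z then ((fun t : ℤ => ((g (3 * t + r).toNat : ℝ) : ℂ)) (-y)) else 0) *
        ((fun y : ℤ => fb f r (s:ℤ) * Ec Q a ((s:ℤ) + y) * Wb Q (3 * a) r ((s:ℤ) - y)) y) := by
    intro y _
    rw [gb, hz]
    ring
  rw [Finset.sum_congr rfl h1, o2_y2 a z hza (fun t : ℤ => ((g (3 * t + r).toNat : ℝ) : ℂ))]
  refine Finset.sum_congr rfl fun w hw => ?_
  have e1 : (3 * (s:ℤ) + r).toNat = 3 * s + r := by omega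
  have e2 : (3 * (w:ℤ) + r).toNat = 3 * w + r := by omega
  have e3 : 3 * ((s:ℤ) + w) + 2 * (r:ℤ) ≤ 4 * ((3 * a : ℕ) : ℤ) := by
    rw [mem_Ico] at hs hw
    push_cast
    omega
  simp only [fb, Wb, Ec, e1, e2, sub_neg_eq_add, ← sub_eq_add_neg]
  rw [if_pos e3]
  ring

theorem o1_blk (a b : ℕ) (hab : a ≤ b) (F : ℕ → ℂ) :
    ∑ x ∈ Ico (3 * a) (3 * b), F x = ∑ r ∈ range 3, ∑ s ∈ Ico a b, F (3 * s + r) := by
  induction b, hab using Nat.le_induction with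
  | base => simp
  | succ b hb ih =>
    have e1 : 3 * (b + 1) = 3 * b + 1 + 1 + 1 := by ring
    rw [e1, sum_Ico_succ_top (by omega), sum_Ico_succ_top (by omega), sum_Ico_succ_top (by omega), ih]
    have e2 : ∀ r ∈ range 3, ∑ s ∈ Ico a (b + 1), F (3 * s + r) = ∑ s ∈ Ico a b, F (3 * s + r) + F (3 * b + r) :=
      fun r _ => sum_Ico_succ_top hb _
    rw [sum_congr rfl e2, sum_add_distrib, sum_range_succ (fun r => F (3 * b + r)), sum_range_succ (fun r => F (3 * b + r)),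
      sum_range_succ (fun r => F (3 * b + r)), sum_range_zero]
    ring_nf

/-- Sums over pairs congruent modulo `3`. Proof. `[2X, 3X)` is the disjoint union over `r < 3` of the sets
`{3 s + r : s ∈ [2(X/3), 3(X/3))}`, `[Z, 2Z)` likewise (`3 ∣ X`, `3 ∣ Z`); `3 ∣ x - y` iff the classes are equal
(`Finset.sum_nbij'` with `x ↦ (x % 3, x / 3)`). -/
theorem O1_class (X Z : ℕ) (hX : 3 ∣ X) (hZ : 3 ∣ Z) (φ : ℕ → ℕ → ℂ) :
    ∑ x ∈ Ico (2 * X) (3 * X), ∑ y ∈ Ico Z (2 * Z), (if (3:ℤ) ∣ (x:ℤ) - y then φ x y else 0) =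
      ∑ r ∈ range 3, ∑ s ∈ Ico (2 * (X / 3)) (3 * (X / 3)), ∑ w ∈ Ico (Z / 3) (2 * (Z / 3)),
        φ (3 * s + r) (3 * w + r) := by
  obtain ⟨a, rfl⟩ := hX
  obtain ⟨z, rfl⟩ := hZ
  have ha : 3 * a / 3 = a := by omega
  have hz : 3 * z / 3 = z := by omega
  have e1 : 2 * (3 * a) = 3 * (2 * a) := by ring
  have e2 : 3 * (3 * a) = 3 * (3 * a) := rfl
  have e3 : 2 * (3 * z) = 3 * (2 * z) := by ring
  rw [ha, hz, e1, e3, o1_blk (2 * a) (3 * a) (by omega)]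
  refine sum_congr rfl fun r hr => ?_
  refine sum_congr rfl fun s _ => ?_
  rw [o1_blk z (2 * z) (by omega), sum_eq_single r]
  · refine sum_congr rfl fun w _ => ?_
    rw [if_pos]
    push_cast
    exact ⟨(s:ℤ) - w, by ring⟩
  · intro r' hr' hne
    refine sum_eq_zero fun w _ => ?_
    rw [if_neg]
    rw [mem_range] at hr hr'
    push_cast
    omega
  · intro h1
    exact absurd hr h1

/-- **The cross kernels.** Proof. If `3 ∣ x - y`, `v = (x - y)/3`: `lp(x+y) lp(v) - L(x+y) L3(v) =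
(lp(x+y) - L(x+y)) lp(v) + L(x+y) (lp(v) - L3(v))`; else both kernels are `0`. The first part is `O1_a`; the second part by
`O1_class` and `O1_b` (for `x = 3s + r`, `y = 3w + r`: `x + y = 3(s+w) + 2r`, `v = s - w`). -/
theorem O1_split (Q X Z : ℕ) (hX : 3 ∣ X) (hZ : 3 ∣ Z) (h : 2 * Z ≤ X) (f g : ℕ → ℝ) :
    ((∑ x ∈ Ico (2 * X) (3 * X), ∑ y ∈ Ico Z (2 * Z),
      f x * g y * (kpC x y - kmC (Lk Q (X / Q ^ 2)) (Lk Q (X / 3 / Q ^ 2)) x y) : ℝ) : ℂ) =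
      BF (Sx X) (Sy X) (Ec Q X) Wa (fun x => ((f x.toNat : ℝ) : ℂ))
        (fun y => if (Z:ℤ) ≤ y ∧ y < 2 * Z then ((g y.toNat : ℝ) : ℂ) else 0) +
      ∑ r ∈ range 3, BF (Sx (X / 3)) (Sy (X / 3)) (Ec Q (X / 3)) (Wb Q X r) (fb f r) (gb Z g r) := by
  have e1 : ∑ r ∈ range 3, BF (Sx (X / 3)) (Sy (X / 3)) (Ec Q (X / 3)) (Wb Q X r) (fb f r) (gb Z g r) =
      ∑ x ∈ Ico (2 * X) (3 * X), ∑ y ∈ Ico Z (2 * Z), (if (3:ℤ) ∣ (x:ℤ) - y then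
        (fun x y : ℕ => (f x : ℂ) * (g y : ℂ) * (lc (((x:ℤ) - y) / 3) - Lc Q (X / 3 / Q ^ 2) (((x:ℤ) - y) / 3)) *
          Lc Q (X / Q ^ 2) ((x:ℤ) + y)) x y else 0) := by
    rw [O1_class X Z hX hZ]
    refine sum_congr rfl fun r hr => ?_
    rw [O1_b Q X Z r (mem_range.1 hr) hX hZ h]
    refine sum_congr rfl fun s _ => sum_congr rfl fun w _ => ?_
    have e2 : (((3 * s + r : ℕ) : ℤ) - ((3 * w + r : ℕ) : ℤ)) / 3 = (s:ℤ) - w := by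
      push_cast
      omega
    have e3 : (((3 * s + r : ℕ) : ℤ) + ((3 * w + r : ℕ) : ℤ)) = 3 * ((s:ℤ) + w) + 2 * r := by
      push_cast
      ring
    simp only [e2, e3]
  rw [e1, O1_a Q X Z h, ← sum_add_distrib, Complex.ofReal_sum]
  refine sum_congr rfl fun x _ => ?_
  rw [← sum_add_distrib, Complex.ofReal_sum]
  refine sum_congr rfl fun y _ => ?_
  by_cases h3 : (3:ℤ) ∣ (x:ℤ) - y
  · simp only [kpC, kmC, Wa, if_pos h3, lc, Lc]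
    push_cast
    ring
  · simp only [kpC, kmC, Wa, if_neg h3]
    push_cast
    ring

end Pool.Agent.Lib.H59V
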