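import Pool.Agent.Lib.H59V.O1

/-!
# Project H59V, chunk O2 (M): the operator bound for the cross kernels
-/

open Finset

namespace Pool.Agent.Lib.H59V

open Pool.Agent.H9S Pool.Agent.H44W
open Pool.Agent.Lib.H68T (lp Lk)

/-- **The cross operator bound.** Proof. As `O2_two` (`H9S/O2.lean`), with the constants `c'`, `n0'` of `OPW` for `(Cr, C)` and
`c = c'/4`, `O1_split`: four forms, each at most `n^(2-c')` by `OPW`: the first one at the scale `X` with the weight `Wa`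
(`‖Wa v‖ ≤ log (4n) ≤ n^c'` for `v < 4X`), the others at the scale `X/3` (`1 ≤ X/3 ≤ n`) with the weights `Wb Q X r`:
for `X/3 < v`: `3 v + 2 r ≥ X`, so `‖Wb‖ ≤ n^c ≤ n^c'` (bound for `Lk Q (X/Q²)` on `[X, 4X]`). `‖Ec Q X‖`, `‖Ec Q (X/3)‖ ≤ n^c'`
as there. `Bd` for `fb`, `gb`. `4 n^(2-c') ≤ n^(2-c)`. (`3 ∣ X`: `3 (X/3) = X`; `3 ≤ Z` gives `1 ≤ X/3`.) -/
theorem O2_cross (h : OPW) : ∀ Cr C : ℝ, 1 ≤ Cr → 0 < C → ∃ c : ℝ, 0 < c ∧ ∃ n0 : ℕ, ∀ n : ℕ, n0 ≤ n →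
    ∀ Q X Z : ℕ, 2 ≤ Q → Real.log n ≤ Cr * Real.log Q → 3 ∣ X → 3 ∣ Z → 1 ≤ Z → 2 * Z ≤ X → X ≤ n →
    LKd C Q X → LKd C Q (X / 3) →
    (∀ th : ℝ, ∀ u v : ℤ, (X:ℤ) ≤ u → v ≤ 4 * X →
      ‖∑ m ∈ Ico u v, Ec Q X m * ee (th * m)‖ ≤ X * (Q:ℝ) ^ (-(1 / 4) : ℝ)) →
    (∀ th : ℝ, ∀ u v : ℤ, ((X / 3 : ℕ):ℤ) ≤ u → v ≤ 4 * ((X / 3 : ℕ):ℤ) →
      ‖∑ m ∈ Ico u v, Ec Q (X / 3) m * ee (th * m)‖ ≤ ((X / 3 : ℕ):ℝ) * (Q:ℝ) ^ (-(1 / 4) : ℝ)) →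
    (∀ m : ℤ, (X:ℤ) ≤ m → m ≤ 4 * X → |Lk Q (X / Q ^ 2) m| ≤ (n:ℝ) ^ c) →
    (∀ m : ℤ, ((X / 3 : ℕ):ℤ) ≤ m → m ≤ 4 * ((X / 3 : ℕ):ℤ) → |Lk Q (X / 3 / Q ^ 2) m| ≤ (n:ℝ) ^ c) →
    ∀ f g : ℕ → ℝ, (∀ x, |f x| ≤ 1) → (∀ y, |g y| ≤ 1) →
    |∑ x ∈ Ico (2 * X) (3 * X), ∑ y ∈ Ico Z (2 * Z),
      f x * g y * (kpC x y - kmC (Lk Q (X / Q ^ 2)) (Lk Q (X / 3 / Q ^ 2)) x y)| ≤ (n:ℝ) ^ (2 - c) := by
  intro Cr C hCr hC
  obtain ⟨c', hc', n0', hO⟩ := h Cr C hCr hC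
  have ht1 : ∀ᶠ n : ℕ in Filter.atTop, (8:ℝ) * (4 / c') ≤ (n:ℝ) ^ (c' / 4) :=
    ((tendsto_rpow_atTop (by positivity : 0 < c' / 4)).comp tendsto_natCast_atTop_atTop).eventually_ge_atTop _
  have ht2 : ∀ᶠ n : ℕ in Filter.atTop, (8:ℝ) ≤ (n:ℝ) ^ (c' / 4) :=
    ((tendsto_rpow_atTop (by positivity : 0 < c' / 4)).comp tendsto_natCast_atTop_atTop).eventually_ge_atTop _
  obtain ⟨n1, hn1⟩ := Filter.eventually_atTop.1 (ht1.and ht2)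
  refine ⟨c' / 4, by positivity, max (max n0' n1) 4,
    fun n hn Q X Z hQ hlog hX3 hZ3 hZ hZX hXn hLK hLK3 hF hF3 hL hL3 f g hf hg => ?_⟩
  have hn0 : n0' ≤ n := by omega
  have hn4 : 4 ≤ n := by omega
  obtain ⟨hp1, hp2⟩ := hn1 n (by omega)
  have hnp : (0:ℝ) < n := by
    have : 0 < n := by omega
    exact_mod_cast this
  have hn1' : (1:ℝ) ≤ n := by
    have : 1 ≤ n := by omega
    exact_mod_cast this
  have hX1 : 1 ≤ X := by omega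
  have hX31 : 1 ≤ X / 3 := by omega
  have hX3n : X / 3 ≤ n := by omega
  set P : ℝ := (n:ℝ) ^ (c' / 4) with hP
  have hP0 : 0 < P := by rw [hP]; positivity
  have hPc : (n:ℝ) ^ c' = P ^ 4 := by
    rw [hP, ← Real.rpow_natCast, ← Real.rpow_mul hnp.le]
    congr 1
    push_cast
    ring
  -- the logarithm
  have hlog4 : Real.log (4 * n) ≤ P ^ 2 / 4 := by
    have h1 : Real.log (4 * n) ≤ 2 * Real.log n := by
      have h2 : Real.log (4 * (n:ℝ)) = Real.log 4 + Real.log n := Real.log_mul (by norm_num) hnp.ne'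
      have h3 : Real.log 4 ≤ Real.log n := Real.log_le_log (by norm_num) (by exact_mod_cast hn4)
      linarith
    have h2 : Real.log n ≤ (n:ℝ) ^ (c' / 4) / (c' / 4) := Real.log_le_rpow_div hnp.le (by positivity)
    have h3 : (n:ℝ) ^ (c' / 4) / (c' / 4) = P * (4 / c') := by
      rw [← hP]
      field_simp
    rw [h3] at h2
    have h4 : P * (4 / c') ≤ P * (P / 8) := by
      refine mul_le_mul_of_nonneg_left ?_ hP0.le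
      linarith
    nlinarith
  have hlpb : ∀ m : ℤ, m ≤ 4 * X → ‖lc m‖ ≤ P ^ 2 / 4 := by
    intro m hm
    rw [lc, Complex.norm_real, Real.norm_eq_abs, Pool.Agent.Lib.H68T.lp]
    split_ifs with hpr
    · have hm1 : (1:ℤ) ≤ m := by
        have := hpr.pos
        omega
      have hm1' : (1:ℝ) ≤ (m:ℝ) := by exact_mod_cast hm1
      rw [abs_of_nonneg (Real.log_nonneg hm1')]
      refine le_trans (Real.log_le_log (by linarith) ?_) hlog4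
      have h5 : (m:ℝ) ≤ 4 * (X:ℝ) := by exact_mod_cast hm
      have h6 : (X:ℝ) ≤ n := by exact_mod_cast hXn
      linarith
    · rw [abs_zero]
      positivity
  have hLb : ∀ m : ℤ, (X:ℤ) ≤ m → m ≤ 4 * X → ‖Lc Q (X / Q ^ 2) m‖ ≤ P := by
    intro m h1 h2
    rw [Lc, Complex.norm_real, Real.norm_eq_abs]
    exact hL m h1 h2
  have hLb3 : ∀ m : ℤ, ((X / 3 : ℕ):ℤ) ≤ m → m ≤ 4 * ((X / 3 : ℕ):ℤ) → ‖Lc Q (X / 3 / Q ^ 2) m‖ ≤ P := by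
    intro m h1 h2
    rw [Lc, Complex.norm_real, Real.norm_eq_abs]
    exact hL3 m h1 h2
  have hP24 : P ^ 2 ≤ P ^ 4 := pow_le_pow_right₀ (by linarith) (by norm_num)
  have hP4 : P ^ 2 / 4 ≤ P ^ 4 := by
    have := sq_nonneg P
    linarith
  have hPP4 : P ≤ P ^ 4 := by
    have h1 : P ^ 1 ≤ P ^ 4 := pow_le_pow_right₀ (by linarith) (by norm_num)
    rwa [pow_one] at h1
  have hP4n : (0:ℝ) ≤ P ^ 4 := by positivity
  have hE : ∀ m : ℤ, (X:ℤ) ≤ m → m ≤ 4 * X → ‖Ec Q X m‖ ≤ (n:ℝ) ^ c' := by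
    intro m h1 h2
    rw [hPc, Ec]
    refine (norm_sub_le _ _).trans ?_
    have a1 := hlpb m h2
    have a2 := hLb m h1 h2
    have a3 : P ≤ P ^ 2 / 8 := by nlinarith
    linarith
  have hE3 : ∀ m : ℤ, ((X / 3 : ℕ):ℤ) ≤ m → m ≤ 4 * ((X / 3 : ℕ):ℤ) → ‖Ec Q (X / 3) m‖ ≤ (n:ℝ) ^ c' := by
    intro m h1 h2
    rw [hPc, Ec]
    refine (norm_sub_le _ _).trans ?_
    have a1 := hlpb m (by omega)
    have a2 := hLb3 m h1 h2
    have a3 : P ≤ P ^ 2 / 8 := by nlinarith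
    linarith
  have hf1 : Bd (fun x : ℤ => ((f x.toNat : ℝ) : ℂ)) := by
    intro x
    show ‖((f x.toNat : ℝ) : ℂ)‖ ≤ 1
    rw [Complex.norm_real, Real.norm_eq_abs]
    exact hf _
  have hg1 : Bd (fun y : ℤ => if (Z:ℤ) ≤ y ∧ y < 2 * Z then ((g y.toNat : ℝ) : ℂ) else 0) := by
    intro y
    show ‖(if (Z:ℤ) ≤ y ∧ y < 2 * Z then ((g y.toNat : ℝ) : ℂ) else 0)‖ ≤ 1
    split_ifs
    · rw [Complex.norm_real, Real.norm_eq_abs]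
      exact hg _
    · rw [norm_zero]
      exact zero_le_one
  have hfb : ∀ r : ℕ, Bd (fb f r) := by
    intro r x
    rw [fb, Complex.norm_real, Real.norm_eq_abs]
    exact hf _
  have hgb : ∀ r : ℕ, Bd (gb Z g r) := by
    intro r y
    rw [gb]
    split_ifs
    · rw [Complex.norm_real, Real.norm_eq_abs]
      exact hg _
    · rw [norm_zero]
      exact zero_le_one
  have hWa : ∀ v : ℤ, (X:ℤ) < v → v < 4 * X → ‖Wa v‖ ≤ (n:ℝ) ^ c' := by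
    intro v hv1 hv2
    rw [hPc, Wa]
    split_ifs
    · exact (hlpb (v / 3) (by omega)).trans hP4
    · rw [norm_zero]
      exact hP4n
  have hWb : ∀ r : ℕ, ∀ v : ℤ, ((X / 3 : ℕ):ℤ) < v → v < 4 * ((X / 3 : ℕ):ℤ) → ‖Wb Q X r v‖ ≤ (n:ℝ) ^ c' := by
    intro r v hv1 hv2
    rw [hPc, Wb]
    split_ifs with hle
    · exact (hLb _ (by omega) hle).trans hPP4
    · rw [norm_zero]
      exact hP4n
  have r1 := hO n hn0 Q X hQ hlog hX1 hXn hLK hF hE Wa _ _ hWa hf1 hg1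
  have r2 := fun r : ℕ => hO n hn0 Q (X / 3) hQ hlog hX31 hX3n hLK3 hF3 hE3 (Wb Q X r) _ _ (hWb r) (hfb r) (hgb r)
  have r3 := O1_split Q X Z hX3 hZ3 hZX f g
  have r4 : |∑ x ∈ Ico (2 * X) (3 * X), ∑ y ∈ Ico Z (2 * Z),
      f x * g y * (kpC x y - kmC (Lk Q (X / Q ^ 2)) (Lk Q (X / 3 / Q ^ 2)) x y)| ≤
      (n:ℝ) ^ (2 - c') + 3 * (n:ℝ) ^ (2 - c') := by
    rw [← Real.norm_eq_abs, ← Complex.norm_real, r3]
    refine (norm_add_le _ _).trans (add_le_add r1 ?_)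
    refine (norm_sum_le _ _).trans ?_
    refine (Finset.sum_le_sum fun r _ => r2 r).trans ?_
    rw [Finset.sum_const, Finset.card_range, nsmul_eq_mul]
    push_cast
    exact le_rfl
  refine r4.trans ?_
  have r5 : (n:ℝ) ^ (2 - c' / 4) = (n:ℝ) ^ (2 - c') * P ^ 3 := by
    rw [hP, ← Real.rpow_natCast, ← Real.rpow_mul hnp.le, ← Real.rpow_add hnp]
    congr 1
    push_cast
    ring
  rw [r5]
  have r6 : 0 ≤ (n:ℝ) ^ (2 - c') := Real.rpow_nonneg hnp.le _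
  have r7 : (4:ℝ) ≤ P ^ 3 := by
    have : (8:ℝ) ^ 3 ≤ P ^ 3 := pow_le_pow_left₀ (by norm_num) hp2 3
    linarith
  nlinarith

end Pool.Agent.Lib.H59V
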