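import Pool.Agent.Lib.H59V.O2
import Pool.Agent.Lib.H9S.O3

/-!
# Project H59V, chunk O3 (S/M): the cross operator bound in the regime of the main terms
-/

open Finset

namespace Pool.Agent.Lib.H59V

open Pool.Agent.H9S
open Pool.Agent.H44W (ee)
open Pool.Agent.Lib.H68T (Lk)
open Pool.Agent.Lib.H18Q (RegP fourier_smallP)

/-- The cross operator bound, with the absolute constant `K0` in the regime. -/
def OPC (K0 : ℝ) : Prop :=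
  ∀ Cr : ℝ, 1 ≤ Cr → ∃ c : ℝ, 0 < c ∧ ∃ n0 : ℕ, ∀ n Q : ℕ, n0 ≤ n →
    K0 * Real.log Q ≤ Real.log n → Real.log n ≤ Cr * Real.log Q → ∀ X Z : ℕ, 3 ∣ X → 3 ∣ Z → RegP K0 Q X →
    RegP K0 Q (X / 3) → 1 ≤ Z → 2 * Z ≤ X → X ≤ n → ∀ f g : ℕ → ℝ, (∀ x, |f x| ≤ 1) → (∀ y, |g y| ≤ 1) →
    |∑ x ∈ Ico (2 * X) (3 * X), ∑ y ∈ Ico Z (2 * Z),
      f x * g y * (kpC x y - kmC (Lk Q (X / Q ^ 2)) (Lk Q (X / 3 / Q ^ 2)) x y)| ≤ (n:ℝ) ^ (2 - c)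

/-- Proof. As `OP_main` (`H9S/O3.lean`), with `O2_cross` for `O2_two`; the hypotheses on `X` and on `X/3` are verified in
the same way (`LK_box`, `fourier_smallP`, `BDL_bd`). -/
theorem O3_main (hI : INV) : ∃ K0 : ℝ, 1 ≤ K0 ∧ ∀ K : ℝ, K0 ≤ K → OPC K := by
  obtain ⟨K1, hK1, hbd⟩ := BDL_bd
  obtain ⟨K2, C2, hK2, hC2, hLK⟩ := Pool.Agent.Lib.H59T.LK_box
  obtain ⟨K3, hfs⟩ := fourier_smallP
  have hO2 := O2_cross (O1_op (E1_inv (K3_inv (T2_box (P2_inv hI)))))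
  refine ⟨max (max K1 K2) (max K3 4), hK1.trans ((le_max_left _ _).trans (le_max_left _ _)), fun K hK Cr hCr => ?_⟩
  have hKK1 : K1 ≤ K := ((le_max_left _ _).trans (le_max_left _ _)).trans hK
  have hKK2 : K2 ≤ K := ((le_max_right _ _).trans (le_max_left _ _)).trans hK
  have hKK3 : K3 ≤ K := ((le_max_left _ _).trans (le_max_right _ _)).trans hK
  have hKK4 : (4:ℝ) ≤ K := ((le_max_right _ _).trans (le_max_right _ _)).trans hK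
  have hK0 : 0 ≤ K := by linarith
  obtain ⟨c, hc, n1, h1⟩ := hO2 Cr C2 hCr hC2
  obtain ⟨n2, h2⟩ := hbd c hc
  refine ⟨c, hc, max (max n1 n2) 1, fun n Q hn hKQ hlog X Z hX3 hZ3 hreg hreg3 hZ hZX hXn f g hf hg => ?_⟩
  have hn1 : n1 ≤ n := by omega
  have hn2 : n2 ≤ n := by omega
  have hnp : (0:ℝ) < n := by
    have : 0 < n := by omega
    exact_mod_cast this
  have hX1 : 1 ≤ X := by omega
  have hX13 : 1 ≤ X / 3 := by omega
  have hXn3 : X / 3 ≤ n := by omega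
  have hQ4 : (4:ℝ) ≤ Q := (hreg.mono hK0 hKK4).Q_ge (by norm_num)
  have hQ2 : 2 ≤ Q := by
    have : (2:ℝ) ≤ Q := by linarith
    exact_mod_cast this
  have hQn : Q ≤ n := by
    have hlQ : 0 ≤ Real.log Q := Real.log_natCast_nonneg Q
    have h3 : Real.log Q ≤ Real.log n := by nlinarith
    have h4 : (Q:ℝ) ≤ n := (Real.log_le_log_iff (by linarith) hnp).1 h3
    exact_mod_cast h4
  have o3_L : ∀ Y : ℕ, RegP K Q Y → LKd C2 Q Y := by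
    intro Y hY Q' hQ1 hQQ W f g hW hf hg
    have h3 := hLK Q Q' Y (hY.mono hK0 hKK2) hQ1 hQQ f g W hf hg hW
    refine le_trans (le_of_eq ?_) h3
    rw [BF, Sx, Sy]
    simp only [Lc, Complex.ofReal_sub]
  have o3_F : ∀ Y : ℕ, RegP K Q Y → ∀ th : ℝ, ∀ u v : ℤ, (Y:ℤ) ≤ u → v ≤ 4 * Y →
      ‖∑ m ∈ Ico u v, Ec Q Y m * ee (th * m)‖ ≤ Y * (Q:ℝ) ^ (-(1 / 4) : ℝ) := by
    intro Y hY th u v hu hv
    have h3 := hfs Q Y (hY.mono hK0 hKK3) th u v hu hv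
    refine le_trans (le_of_eq ?_) h3
    refine congrArg norm (Finset.sum_congr rfl fun m _ => ?_)
    rw [Ec, lc, Lc, Complex.ofReal_sub, mul_comm th (m:ℝ)]
    rfl
  exact h1 n hn1 Q X Z hQ2 hlog hX3 hZ3 hZ hZX hXn (o3_L X hreg) (o3_L (X / 3) hreg3) (o3_F X hreg)
    (o3_F (X / 3) hreg3) (h2 n hn2 Q X (hreg.mono hK0 hKK1) (by omega) hQn hX1 hXn)
    (h2 n hn2 Q (X / 3) (hreg3.mono hK0 hKK1) (by omega) hQn hX13 hXn3) f g hf hg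

end Pool.Agent.Lib.H59V
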