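import Pool.Agent.Lib.H59V.WDefs

/-!
# Project H59V, chunk W1 (M): substitution modulo numbers prime to 3
-/

open Finset

namespace Pool.Agent.Lib.H59V

open Pool.Agent.Lib.H68T Pool.Agent.Lib.H18Q Pool.Agent.Lib.H59P Pool.Agent.Lib.H59T

/-- Translations and multiplications by `3` are bijections modulo `N`. Proof. `a ↦ 3 a + c` is injective on `ZMod N`
(`e` is the inverse of `3`), so bijective; `Equiv.sum_comp` (or `Function.Bijective.sum_comp`, `Finite.injective_iff_bijective`). -/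
theorem W1_bij (N : ℕ) [NeZero N] (e : ℤ) (he : (N : ℤ) ∣ 3 * e - 1) (c : ZMod N) (F : ZMod N → ℂ) :
    ∑ a : ZMod N, F (3 * a + c) = ∑ a : ZMod N, F a := by
  have h3 : (3 : ZMod N) * (e : ZMod N) = 1 := by
    have h1 := (ZMod.intCast_zmod_eq_zero_iff_dvd (3 * e - 1) N).2 he
    push_cast at h1
    exact sub_eq_zero.1 h1
  have hinj : Function.Injective (fun a : ZMod N => 3 * a + c) := by
    intro a b hab
    have h1 : 3 * a = 3 * b := add_right_cancel hab
    calc a = (3 * (e : ZMod N)) * a := by rw [h3, one_mul]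
      _ = (e : ZMod N) * (3 * a) := by ring
      _ = (e : ZMod N) * (3 * b) := by rw [h1]
      _ = (3 * (e : ZMod N)) * b := by ring
      _ = b := by rw [h3, one_mul]
  exact Function.Bijective.sum_comp (Finite.injective_iff_bijective.1 hinj) F

/-- **Substitution.** Proof. `C3_fun` for the eight functions `g i`, `g' i` (functions `Gi`, `Gi'` on `ZMod N`), then `C3_nest`
for both sides. On the left the summand at `(y, y', z, z')` is the summand of the right hand side at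
`(3y, 3y' + ρ, 3z + ρ, 3z' + ρ)`: `3y + (3z + ρ)`, `3y - (3z + ρ)`, `(3y' + ρ) + (3z + ρ) = 3y' + 3z + 2ρ`,
`e ((3y' + ρ) - (3z + ρ)) = 3 e (y' - z) = y' - z` in `ZMod N`. `W1_bij` in each of the four variables. (`Db`,
`Fin.prod_univ_four`.) -/
theorem W1_subst (N : ℕ) (hN : 0 < N) (e ρ : ℤ) (he : (N : ℤ) ∣ 3 * e - 1) (g g' : Fin 4 → ℤ → ℂ)
    (hp : ∀ i m, g i (m + N) = g i m) (hp' : ∀ i m, g' i (m + N) = g' i m) :
    S4 N (Db (mf ρ) g g') = S4 N (Db ff (sc3 e g) (sc3 e g')) := by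
  have : NeZero N := ⟨hN.ne'⟩
  have h3 : (3 : ZMod N) * (e : ZMod N) = 1 := by
    have h1 := (ZMod.intCast_zmod_eq_zero_iff_dvd (3 * e - 1) N).2 he
    push_cast at h1
    exact sub_eq_zero.1 h1
  choose G hG using fun i => C3_fun N (g i) (hp i)
  choose G' hG' using fun i => C3_fun N (g' i) (hp' i)
  set H : ZMod N → ZMod N → ZMod N → ZMod N → ℂ := fun a a' b b' =>
    (G 0 (a + b) * (starRingEnd ℂ) (G' 0 (a + b'))) * (G 1 (a - b) * (starRingEnd ℂ) (G' 1 (a - b'))) *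
      (G 2 (a' + b) * (starRingEnd ℂ) (G' 2 (a' + b'))) *
      (G 3 (e * (a' - b)) * (starRingEnd ℂ) (G' 3 (e * (a' - b')))) with hH
  have hR : Db ff (sc3 e g) (sc3 e g') = fun y y' z z' : ℤ => H (y : ZMod N) (y' : ZMod N) (z : ZMod N) (z' : ZMod N) := by
    funext y y' z z'
    rw [Db, Fin.prod_univ_four]
    show (g 0 (y + z) * (starRingEnd ℂ) (g' 0 (y + z'))) * (g 1 (y - z) * (starRingEnd ℂ) (g' 1 (y - z'))) *
      (g 2 (y' + z) * (starRingEnd ℂ) (g' 2 (y' + z'))) * (g 3 (e * (y' - z)) * (starRingEnd ℂ) (g' 3 (e * (y' - z')))) = _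
    rw [hH]
    simp only [hG, hG']
    push_cast
    rfl
  have hL : Db (mf ρ) g g' = fun y y' z z' : ℤ => (fun a a' b b' : ZMod N => H (3 * a + 0) (3 * a' + ρ) (3 * b + ρ) (3 * b' + ρ))
      (y : ZMod N) (y' : ZMod N) (z : ZMod N) (z' : ZMod N) := by
    funext y y' z z'
    rw [Db, Fin.prod_univ_four]
    show (g 0 (3 * y + 3 * z + ρ) * (starRingEnd ℂ) (g' 0 (3 * y + 3 * z' + ρ))) *
      (g 1 (3 * y - 3 * z - ρ) * (starRingEnd ℂ) (g' 1 (3 * y - 3 * z' - ρ))) *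
      (g 2 (3 * y' + 3 * z + 2 * ρ) * (starRingEnd ℂ) (g' 2 (3 * y' + 3 * z' + 2 * ρ))) *
      (g 3 (y' - z) * (starRingEnd ℂ) (g' 3 (y' - z'))) = _
    rw [hH]
    simp only [hG, hG']
    push_cast
    have e1 : ∀ a b c : ZMod N, 3 * a + 0 + (3 * b + c) = 3 * a + 3 * b + c := fun a b c => by ring
    have e2 : ∀ a b c : ZMod N, 3 * a + 0 - (3 * b + c) = 3 * a - 3 * b - c := fun a b c => by ring
    have e3 : ∀ a b c : ZMod N, 3 * a + c + (3 * b + c) = 3 * a + 3 * b + 2 * c := fun a b c => by ring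
    have e4 : ∀ a b c : ZMod N, (e : ZMod N) * (3 * a + c - (3 * b + c)) = a - b := fun a b c => by
      have e5 : (e : ZMod N) * (3 * a + c - (3 * b + c)) = (3 * (e : ZMod N)) * (a - b) := by ring
      rw [e5, h3, one_mul]
    rw [e1, e1, e2, e2, e3, e3, e4, e4]
  rw [hL, hR, C3_nest N H]
  refine (C3_nest N (fun a a' b b' : ZMod N => H (3 * a + 0) (3 * a' + ρ) (3 * b + ρ) (3 * b' + ρ))).trans ?_
  rw [W1_bij N e he 0 (fun a => ∑ a', ∑ b, ∑ b', H a (3 * a' + ρ) (3 * b + ρ) (3 * b' + ρ))]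
  refine Finset.sum_congr rfl fun y _ => ?_
  rw [W1_bij N e he ρ (fun a' => ∑ b, ∑ b', H y a' (3 * b + ρ) (3 * b' + ρ))]
  refine Finset.sum_congr rfl fun y' _ => ?_
  rw [W1_bij N e he ρ (fun b => ∑ b', H y y' b (3 * b' + ρ))]
  refine Finset.sum_congr rfl fun z _ => ?_
  rw [W1_bij N e he ρ (fun b' => H y y' z b')]

end Pool.Agent.Lib.H59V
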