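import Pool.Agent.Lib.H59V.W1

/-!
# Project H59V, chunk W2 (M): the primes different from 3
-/

open Finset

namespace Pool.Agent.Lib.H59V

open Pool.Agent.Lib.H68T Pool.Agent.Lib.H18Q Pool.Agent.Lib.H59P Pool.Agent.Lib.H59T

theorem w2_inv (N : ℕ) (h : Nat.Coprime 3 N) : ∃ e : ℤ, (N : ℤ) ∣ 3 * e - 1 := by
  have h1 : IsCoprime (3 : ℤ) (N : ℤ) := by
    have := Nat.isCoprime_iff_coprime.mpr h
    exact_mod_cast this
  obtain ⟨u, v, huv⟩ := h1
  exact ⟨u, -v, by linarith⟩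

theorem w2_cop (l : ℕ) (hl : l.Prime) (h3 : l ≠ 3) : Nat.Coprime 3 l :=
  (Nat.coprime_primes (by norm_num) hl).mpr (Ne.symm h3)

/-- A conductor. Proof. `W1_subst` with `N = l^a`, `e` an inverse of `3` modulo `l^a` (`l ≠ 3`:
`Int.isCoprime`/`ZMod` inverse). If `i0 ≠ 3`: `E2_four` for `sc3 e g`, `sc3 e g'` (`i0` is `0`, `1` or `2`, where `sc3 e g i0 = g i0`).
If `i0 = 3`: `sc3 e g 3 m = c conj χ(e m) = u c conj χ(m)`, `u = conj χ(e)`, `‖u‖ = 1` (`e` is a unit modulo `l^a`;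
`DirichletCharacter`: `norm_eq_one` on units or `χ(3) χ(e) = 1` and norms `≤ 1`). In `Db` the factor
`u conj u = 1` cancels: `Db ff (sc3 e g) (sc3 e g') = Db ff k k'` with `k 3 m = k' 3 m = c conj χ(m)`, `k i = g i`,
`k' i = g' i` for `i ≠ 3`; `E2_four`. -/
theorem W2_char (l a : ℕ) (hl : l.Prime) (h3 : l ≠ 3) (ha : 1 ≤ a) (ρ : ℤ) (χ : DirichletCharacter ℂ (l ^ a))
    (hχ : χ.IsPrimitive) (c : ℝ) (hc : |c| ≤ 2) (g g' : Fin 4 → ℤ → ℂ)
    (hp : ∀ i m, g i (m + (l ^ a : ℕ)) = g i m) (hp' : ∀ i m, g' i (m + (l ^ a : ℕ)) = g' i m)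
    (hb : ∀ i m, ‖g i m‖ ≤ 2) (hb' : ∀ i m, ‖g' i m‖ ≤ 2) (i0 : Fin 4)
    (h : ∀ m : ℤ, g i0 m = c * (starRingEnd ℂ) (χ (m : ZMod (l ^ a))))
    (h' : ∀ m : ℤ, g' i0 m = c * (starRingEnd ℂ) (χ (m : ZMod (l ^ a)))) :
    ‖S4 (l ^ a) (Db (mf ρ) g g')‖ ≤ ((l ^ a : ℕ) : ℝ) ^ 4 * (2 ^ 10 * ((l ^ a : ℕ) : ℝ) ^ (-(1 / 18 : ℝ))) := by
  have hN : 0 < l ^ a := pow_pos hl.pos _
  obtain ⟨e, he⟩ := w2_inv (l ^ a) ((w2_cop l hl h3).pow_right a)
  rw [W1_subst (l ^ a) hN e ρ he g g' hp hp']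
  have hper : ∀ (f : Fin 4 → ℤ → ℂ), (∀ i m, f i (m + (l ^ a : ℕ)) = f i m) →
      ∀ i m, sc3 e f i (m + (l ^ a : ℕ)) = sc3 e f i m := by
    intro f hf i m
    fin_cases i
    · exact hf 0 m
    · exact hf 1 m
    · exact hf 2 m
    · have h5 : Function.Periodic (f 3) ((l ^ a : ℕ) : ℤ) := hf 3
      have h6 := h5.int_mul e (e * m)
      change f 3 (e * (m + (l ^ a : ℕ))) = f 3 (e * m)
      rw [mul_add]
      exact h6
  have hbd : ∀ (f : Fin 4 → ℤ → ℂ), (∀ i m, ‖f i m‖ ≤ 2) → ∀ i m, ‖sc3 e f i m‖ ≤ 2 := by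
    intro f hf i m
    fin_cases i
    · exact hf 0 m
    · exact hf 1 m
    · exact hf 2 m
    · exact hf 3 (e * m)
  by_cases hi : i0 = 3
  · subst hi
    have hu : (starRingEnd ℂ) (χ ((e : ℤ) : ZMod (l ^ a))) * χ ((e : ℤ) : ZMod (l ^ a)) = 1 := by
      have h5 : ((3 : ℤ) : ZMod (l ^ a)) * ((e : ℤ) : ZMod (l ^ a)) = 1 := by
        have h6 := (ZMod.intCast_zmod_eq_zero_iff_dvd (3 * e - 1) (l ^ a)).mpr he
        push_cast at h6
        push_cast
        linear_combination h6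
      have h6 : χ ((3 : ℤ) : ZMod (l ^ a)) * χ ((e : ℤ) : ZMod (l ^ a)) = 1 := by
        rw [← map_mul, h5, map_one]
      have h7 := congrArg norm h6
      rw [norm_mul, norm_one] at h7
      have h8 := DirichletCharacter.norm_le_one χ ((3 : ℤ) : ZMod (l ^ a))
      have h9 := DirichletCharacter.norm_le_one χ ((e : ℤ) : ZMod (l ^ a))
      have h10 : ‖χ ((e : ℤ) : ZMod (l ^ a))‖ = 1 := by
        refine le_antisymm h9 ?_
        nlinarith [norm_nonneg (χ ((e : ℤ) : ZMod (l ^ a)))]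
      rw [mul_comm, Complex.mul_conj, Complex.normSq_eq_norm_sq, h10]
      norm_num
    have hDb : Db ff (sc3 e g) (sc3 e g') = Db ff g g' := by
      funext y y' z z'
      unfold Db
      rw [Fin.prod_univ_four, Fin.prod_univ_four]
      congr 1
      change g 3 (e * (y' - z)) * (starRingEnd ℂ) (g' 3 (e * (y' - z'))) =
        g 3 (y' - z) * (starRingEnd ℂ) (g' 3 (y' - z'))
      rw [h, h, h', h', Int.cast_mul, Int.cast_mul, map_mul χ, map_mul χ]
      simp only [map_mul, Complex.conj_conj, Complex.conj_ofReal]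
      linear_combination ((c : ℂ) * (starRingEnd ℂ) (χ ((y' - z : ℤ) : ZMod (l ^ a))) *
        (c * χ ((y' - z' : ℤ) : ZMod (l ^ a)))) * hu
    rw [hDb]
    exact E2_four l a hl ha χ hχ c hc g g' hp hp' hb hb' 3 h h'
  · refine E2_four l a hl ha χ hχ c hc (sc3 e g) (sc3 e g') (hper g hp) (hper g' hp') (hbd g hb)
      (hbd g' hb') i0 ?_ ?_
    · intro m
      rw [← h m]
      fin_cases i0
      · rfl
      · rfl
      · rfl
      · exact absurd rfl hi
    · intro m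
      rw [← h' m]
      fin_cases i0
      · rfl
      · rfl
      · rfl
      · exact absurd rfl hi

/-- No conductor. Proof. `W1_subst` with `N = l` (the functions have period `l`: `gl l m` depends only on `l ∣ m`);
`gl l (e m) = gl l m` because `l ∣ e m ↔ l ∣ m` (`l` does not divide `e`). So `sc3 e` does not change the functions and
`E5_four` applies. -/
theorem W2_gl (l : ℕ) (hl : l.Prime) (h3 : l ≠ 3) (ρ : ℤ) (s s' : Fin 4 → Prop) [DecidablePred s]
    [DecidablePred s'] (hs : ∃ i, s i ∨ s' i) :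
    ‖S4 l (Db (mf ρ) (fun i m => if s i then ((gl l m : ℝ) : ℂ) else 1)
      (fun i m => if s' i then ((gl l m : ℝ) : ℂ) else 1))‖ ≤ 7 * (l : ℝ) ^ 2 := by
  obtain ⟨e, he⟩ := w2_inv l (w2_cop l hl h3)
  have hle : ¬ (l : ℤ) ∣ e := by
    intro hd
    have h5 : (l : ℤ) ∣ 1 := by
      have h6 : (1 : ℤ) = 3 * e - (3 * e - 1) := by ring
      rw [h6]
      exact dvd_sub (Dvd.dvd.mul_left hd 3) he
    have h7 : (l : ℤ) ≤ 1 := Int.le_of_dvd one_pos h5
    have h8 := hl.two_le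
    omega
  have hlp : Prime (l : ℤ) := Nat.prime_iff_prime_int.mp hl
  have hg1 : ∀ m : ℤ, gl l (m + l) = gl l m := by
    intro m
    unfold gl
    have : ((l : ℤ) ∣ m + l) ↔ ((l : ℤ) ∣ m) := dvd_add_self_right
    simp only [this]
  have hg2 : ∀ m : ℤ, gl l (e * m) = gl l m := by
    intro m
    unfold gl
    have : ((l : ℤ) ∣ e * m) ↔ ((l : ℤ) ∣ m) :=
      ⟨fun h => (hlp.dvd_or_dvd h).resolve_left hle, fun h => Dvd.dvd.mul_left h e⟩
    simp only [this]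
  rw [W1_subst l hl.pos e ρ he _ _ (fun i m => by simp only [hg1]) (fun i m => by simp only [hg1])]
  have hsc : ∀ (t : Fin 4 → Prop) [DecidablePred t],
      sc3 e (fun i m => if t i then ((gl l m : ℝ) : ℂ) else 1) =
        fun i m => if t i then ((gl l m : ℝ) : ℂ) else 1 := by
    intro t _
    funext i m
    fin_cases i
    · rfl
    · rfl
    · rfl
    · change (if t 3 then ((gl l (e * m) : ℝ) : ℂ) else 1) = if t 3 then ((gl l m : ℝ) : ℂ) else 1
      rw [hg2]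
  rw [hsc, hsc]
  exact E5_four l hl s s' hs

end Pool.Agent.Lib.H59V
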