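import Pool.Agent.Lib.H59V.WDefs

/-!
# Project H59V, chunk W3 (S/M): sums over the multiples of 3 modulo a power of 3
-/

open Finset

namespace Pool.Agent.Lib.H59V

open Pool.Agent.Lib.H68T Pool.Agent.Lib.H18Q Pool.Agent.Lib.H59P Pool.Agent.Lib.H59T

theorem w3_ker (b : ℕ) (hb : 1 ≤ b) [NeZero (3 ^ b)] :
    (univ.filter fun z : ZMod (3 ^ b) => 3 * z = 0).card = 3 := by
  classical
  obtain ⟨a, rfl⟩ : ∃ a, b = a + 1 := ⟨b - 1, by omega⟩
  have hpos : 0 < 3 ^ a := by positivity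
  have hN : 3 ^ (a + 1) = 3 * 3 ^ a := by rw [pow_succ]; ring
  have h1 : (univ.filter fun z : ZMod (3 ^ (a + 1)) => 3 * z = 0) =
      (range 3).image (fun k => ((3 ^ a * k : ℕ) : ZMod (3 ^ (a + 1)))) := by
    ext z
    rw [mem_filter, mem_image]
    constructor
    · rintro ⟨-, hz⟩
      have h2 : ((3 * z.val : ℕ) : ZMod (3 ^ (a + 1))) = 0 := by
        push_cast
        rw [ZMod.natCast_zmod_val]
        exact hz
      rw [ZMod.natCast_eq_zero_iff] at h2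
      have h3 : 3 ^ a ∣ z.val := by
        have h2' : 3 * 3 ^ a ∣ 3 * z.val := by
          rw [← hN]
          exact h2
        exact Nat.dvd_of_mul_dvd_mul_left (by norm_num) h2'
      obtain ⟨k, hk⟩ := h3
      have h4 := ZMod.val_lt z
      refine ⟨k, ?_, ?_⟩
      · rw [mem_range]
        rw [hk] at h4
        have h5 : 3 ^ a * k < 3 ^ a * 3 := by
          calc 3 ^ a * k < 3 ^ (a + 1) := h4
            _ = 3 ^ a * 3 := by rw [pow_succ]
        exact Nat.lt_of_mul_lt_mul_left h5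
      · rw [← hk, ZMod.natCast_zmod_val]
    · rintro ⟨k, -, rfl⟩
      refine ⟨mem_univ _, ?_⟩
      have h2 : (3 : ZMod (3 ^ (a + 1))) * ((3 ^ a * k : ℕ) : ZMod (3 ^ (a + 1))) =
          ((3 ^ (a + 1) * k : ℕ) : ZMod (3 ^ (a + 1))) := by
        rw [pow_succ]
        push_cast
        ring
      rw [h2, ZMod.natCast_eq_zero_iff]
      exact dvd_mul_right _ _
  rw [h1, card_image_of_injOn, card_range]
  intro k hk k' hk' h
  rw [mem_coe, mem_range] at hk hk'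
  have h2 : ((3 ^ a * k : ℕ) : ZMod (3 ^ (a + 1))) = ((3 ^ a * k' : ℕ) : ZMod (3 ^ (a + 1))) := h
  rw [ZMod.natCast_eq_natCast_iff', Nat.mod_eq_of_lt, Nat.mod_eq_of_lt] at h2
  · exact Nat.eq_of_mul_eq_mul_left hpos h2
  · rw [pow_succ]
    exact Nat.mul_lt_mul_of_pos_left hk' hpos
  · rw [pow_succ]
    exact Nat.mul_lt_mul_of_pos_left hk hpos

theorem w3_fib (b : ℕ) (hb : 1 ≤ b) [NeZero (3 ^ b)] (c y0 : ZMod (3 ^ b)) :
    (univ.filter fun y : ZMod (3 ^ b) => 3 * y + c = 3 * y0 + c).card = 3 := by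
  classical
  refine Eq.trans ?_ (w3_ker b hb)
  refine card_nbij' (fun y => y - y0) (fun z => z + y0) ?_ ?_ ?_ ?_
  · intro y hy
    rw [mem_coe, mem_filter] at hy ⊢
    refine ⟨mem_univ _, ?_⟩
    have h1 := hy.2
    linear_combination h1
  · intro z hz
    rw [mem_coe, mem_filter] at hz ⊢
    refine ⟨mem_univ _, ?_⟩
    have h1 := hz.2
    linear_combination h1
  · intro y _
    show y - y0 + y0 = y
    ring
  · intro z _
    show z + y0 - y0 = z
    ring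

/-- Proof. The map `y ↦ 3 y + c` of `ZMod N`, `N = 3^b`, `b ≥ 1`: each `t` with `t - c ∈ 3 ZMod N` has exactly `3` preimages
(`y`, `y + N/3`, `y + 2N/3`), the other `t` none. Direct: by `Finset.sum_comp`-type fibre counting, or with natural
representatives: `∑_{y < 3M} F(3y + c) = 3 ∑_{y < M} F(3 y + c)` (`N = 3 M`, `3 (y + M) = 3 y` in `ZMod N`), and the numbers
`3 y`, `y < M`, are the multiples of `3` below `N`. Here `hF` says that `F` vanishes outside of the image. -/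
theorem W3_sum (b : ℕ) (hb : 1 ≤ b) [NeZero (3 ^ b)] (c : ZMod (3 ^ b)) (F : ZMod (3 ^ b) → ℂ)
    (hF : ∀ t : ZMod (3 ^ b), (∀ y : ZMod (3 ^ b), t ≠ 3 * y + c) → F t = 0) :
    ∑ y : ZMod (3 ^ b), F (3 * y + c) = 3 * ∑ t : ZMod (3 ^ b), F t := by
  classical
  rw [← sum_fiberwise univ (fun y : ZMod (3 ^ b) => 3 * y + c), mul_sum]
  refine sum_congr rfl fun t _ => ?_
  have h1 : ∑ y ∈ univ.filter (fun y : ZMod (3 ^ b) => 3 * y + c = t), F (3 * y + c) =
      ((univ.filter (fun y : ZMod (3 ^ b) => 3 * y + c = t)).card : ℂ) * F t := by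
    rw [← nsmul_eq_mul, ← sum_const]
    refine sum_congr rfl fun y hy => ?_
    rw [(mem_filter.1 hy).2]
  rw [h1]
  by_cases h2 : ∀ y : ZMod (3 ^ b), t ≠ 3 * y + c
  · rw [hF t h2, mul_zero, mul_zero]
  · push Not at h2
    obtain ⟨y0, rfl⟩ := h2
    rw [w3_fib b hb c y0]
    norm_num

/-- Proof. The same for nonnegative functions, as an inequality (each `t` has at most `3` preimages). -/
theorem W3_le (b : ℕ) (hb : 1 ≤ b) [NeZero (3 ^ b)] (c : ZMod (3 ^ b)) (F : ZMod (3 ^ b) → ℝ)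
    (hF : ∀ t, 0 ≤ F t) : ∑ y : ZMod (3 ^ b), F (3 * y + c) ≤ 3 * ∑ t : ZMod (3 ^ b), F t := by
  classical
  rw [← sum_fiberwise univ (fun y : ZMod (3 ^ b) => 3 * y + c), mul_sum]
  refine sum_le_sum fun t _ => ?_
  have h1 : ∑ y ∈ univ.filter (fun y : ZMod (3 ^ b) => 3 * y + c = t), F (3 * y + c) =
      ((univ.filter (fun y : ZMod (3 ^ b) => 3 * y + c = t)).card : ℝ) * F t := by
    rw [← nsmul_eq_mul, ← sum_const]
    refine sum_congr rfl fun y hy => ?_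
    rw [(mem_filter.1 hy).2]
  rw [h1]
  refine mul_le_mul_of_nonneg_right ?_ (hF t)
  by_cases h2 : ∀ y : ZMod (3 ^ b), t ≠ 3 * y + c
  · rw [filter_eq_empty_iff.2 (fun y _ h => h2 y h.symm), card_empty]
    norm_num
  · push Not at h2
    obtain ⟨y0, rfl⟩ := h2
    rw [w3_fib b hb c y0]
    norm_num

/-- Proof. `W3_le` twice. -/
theorem W3_le2 (b : ℕ) (hb : 1 ≤ b) [NeZero (3 ^ b)] (c : ZMod (3 ^ b))
    (F : ZMod (3 ^ b) → ZMod (3 ^ b) → ℝ) (hF : ∀ t t', 0 ≤ F t t') :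
    ∑ z : ZMod (3 ^ b), ∑ z' : ZMod (3 ^ b), F (3 * z + c) (3 * z' + c) ≤
      9 * ∑ t : ZMod (3 ^ b), ∑ t' : ZMod (3 ^ b), F t t' := by
  have h1 : ∀ z ∈ (univ : Finset (ZMod (3 ^ b))), ∑ z' : ZMod (3 ^ b), F (3 * z + c) (3 * z' + c) ≤
      3 * ∑ t' : ZMod (3 ^ b), F (3 * z + c) t' :=
    fun z _ => W3_le b hb c (F (3 * z + c)) (hF _)
  refine (sum_le_sum h1).trans ?_
  rw [← mul_sum]
  have h2 := W3_le b hb c (fun t => ∑ t' : ZMod (3 ^ b), F t t') (fun t => sum_nonneg fun t' _ => hF t t')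
  linarith

end Pool.Agent.Lib.H59V
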