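import Pool.Agent.Lib.H59V.W3

/-!
# Project H59V, chunk W4 (M): the prime 3, conductor at the fourth form, and the general step
-/

open Finset

namespace Pool.Agent.Lib.H59V

open Pool.Agent.Lib.H68T Pool.Agent.Lib.H18Q Pool.Agent.Lib.H59P Pool.Agent.Lib.H59T

/-- **The last step.** Proof. `E1_cs` with `A`, `B`, `M = 36`, `C = 16 q`, `q = 3^b`: at most
`10 · 16 q · 36 · q³ q^(-1/18) = 5760 q⁴ q^(-1/18) ≤ 2^13 q⁴ q^(-1/18)`. -/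
theorem W4_fin (b : ℕ) [NeZero (3 ^ b)] (A B : ZMod (3 ^ b) → ZMod (3 ^ b) → ℂ)
    (hA : ∑ z, ∑ z', ‖A z z'‖ ^ 2 ≤ 36 ^ 2 * (96 * ((3 ^ b : ℕ) : ℝ) ^ 4 * (3 : ℝ) ^ (-(b / 9 : ℝ))))
    (hB : ∀ z z', ‖B z z'‖ ≤ 16 * ((3 ^ b : ℕ) : ℝ)) :
    ‖∑ z, ∑ z', A z z' * B z z'‖ ≤
      ((3 ^ b : ℕ) : ℝ) ^ 4 * (2 ^ 13 * ((3 ^ b : ℕ) : ℝ) ^ (-(1 / 18 : ℝ))) := by
  have h3 : ((3 : ℕ) : ℝ) = 3 := by norm_num
  have hA' : ∑ z, ∑ z', ‖A z z'‖ ^ 2 ≤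
      36 ^ 2 * (96 * ((3 ^ b : ℕ) : ℝ) ^ 4 * ((3 : ℕ) : ℝ) ^ (-(b / 9 : ℝ))) := by
    rw [h3]
    exact hA
  refine (E1_cs 3 b Nat.prime_three A B 36 (16 * ((3 ^ b : ℕ) : ℝ)) (by positivity) (by norm_num) hA' hB).trans ?_
  have e4 : 10 * (16 * ((3 ^ b : ℕ) : ℝ)) * 36 * ((3 ^ b : ℕ) : ℝ) ^ 3 * ((3 ^ b : ℕ) : ℝ) ^ (-(1 / 18 : ℝ)) =
      5760 * (((3 ^ b : ℕ) : ℝ) ^ 4 * ((3 ^ b : ℕ) : ℝ) ^ (-(1 / 18 : ℝ))) := by ring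
  have e5 : ((3 ^ b : ℕ) : ℝ) ^ 4 * (2 ^ 13 * ((3 ^ b : ℕ) : ℝ) ^ (-(1 / 18 : ℝ))) =
      8192 * (((3 ^ b : ℕ) : ℝ) ^ 4 * ((3 ^ b : ℕ) : ℝ) ^ (-(1 / 18 : ℝ))) := by ring
  rw [e4, e5]
  exact mul_le_mul_of_nonneg_right (by norm_num) (by positivity)

/-- **The fourth form.** Proof. `C3_fun` for all functions, `C3_nest`: the sum is over `z, z'` of
`B(z, z') = ∑_y (forms 0 and 1)` times `A(z, z') = ∑_{y'} (G2 (3y' + 3z + 2ρ) conj G2' (3y' + 3z' + 2ρ))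
(G3 (y' - z) conj G3' (y' - z'))`. `A` is the sum in `e2_minus` (`H59T/E2.lean`, `l = 3`) for the functions
`G0 t = G2 (3 t + 2ρ)`, `G0' t = G2' (3 t + 2ρ)`, `G1 = G3 = c conj χ`, `G1' = G3'`: `∑∑ ‖A‖² ≤ 4² (96 …) ≤ 36² (96 …)`.
`‖B‖ ≤ 16 · 3^b` (four factors at most `2`). `W4_fin`. -/
theorem W4_three (b : ℕ) (hb1 : 1 ≤ b) (ρ : ℤ) (χ : DirichletCharacter ℂ (3 ^ b))
    (hχ : χ.IsPrimitive) (c : ℝ) (hc : |c| ≤ 2) (g g' : Fin 4 → ℤ → ℂ)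
    (hp : ∀ i m, g i (m + (3 ^ b : ℕ)) = g i m) (hp' : ∀ i m, g' i (m + (3 ^ b : ℕ)) = g' i m)
    (hb : ∀ i m, ‖g i m‖ ≤ 2) (hb' : ∀ i m, ‖g' i m‖ ≤ 2)
    (h : ∀ m : ℤ, g 3 m = c * (starRingEnd ℂ) (χ (m : ZMod (3 ^ b))))
    (h' : ∀ m : ℤ, g' 3 m = c * (starRingEnd ℂ) (χ (m : ZMod (3 ^ b)))) :
    ‖S4 (3 ^ b) (Db (mf ρ) g g')‖ ≤ ((3 ^ b : ℕ) : ℝ) ^ 4 * (2 ^ 13 * ((3 ^ b : ℕ) : ℝ) ^ (-(1 / 18 : ℝ))) := by
  haveI : NeZero (3 ^ b) := ⟨pow_ne_zero _ (by norm_num)⟩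
  choose G hG using fun i => C3_fun (3 ^ b) (g i) (hp i)
  choose G' hG' using fun i => C3_fun (3 ^ b) (g' i) (hp' i)
  have hs : ∀ t : ZMod (3 ^ b), ∃ m : ℤ, (m : ZMod (3 ^ b)) = t := fun t => ZMod.intCast_surjective t
  have bG : ∀ i t, ‖G i t‖ ≤ 2 := by
    intro i t
    obtain ⟨m, rfl⟩ := hs t
    rw [← hG]
    exact hb i m
  have bG' : ∀ i t, ‖G' i t‖ ≤ 2 := by
    intro i t
    obtain ⟨m, rfl⟩ := hs t
    rw [← hG']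
    exact hb' i m
  have hG3 : ∀ t, G 3 t = c * (starRingEnd ℂ) (χ t) := by
    intro t
    obtain ⟨m, rfl⟩ := hs t
    rw [← hG]
    exact h m
  have hG3' : ∀ t, G' 3 t = c * (starRingEnd ℂ) (χ t) := by
    intro t
    obtain ⟨m, rfl⟩ := hs t
    rw [← hG']
    exact h' m
  obtain ⟨F, hF⟩ : ∃ F : Fin 4 → ZMod (3 ^ b) → ℂ, F = ![fun t => G 0 (3 * t + (ρ : ZMod (3 ^ b))),
    fun t => G 1 (3 * t - (ρ : ZMod (3 ^ b))), fun t => G 2 (3 * t + 2 * (ρ : ZMod (3 ^ b))), G 3] := ⟨_, rfl⟩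
  obtain ⟨F', hF'⟩ : ∃ F' : Fin 4 → ZMod (3 ^ b) → ℂ, F' = ![fun t => G' 0 (3 * t + (ρ : ZMod (3 ^ b))),
    fun t => G' 1 (3 * t - (ρ : ZMod (3 ^ b))), fun t => G' 2 (3 * t + 2 * (ρ : ZMod (3 ^ b))), G' 3] := ⟨_, rfl⟩
  have f0 : ∀ t, F 0 t = G 0 (3 * t + (ρ : ZMod (3 ^ b))) := fun t => by rw [hF]; rfl
  have f1 : ∀ t, F 1 t = G 1 (3 * t - (ρ : ZMod (3 ^ b))) := fun t => by rw [hF]; rfl
  have f2 : ∀ t, F 2 t = G 2 (3 * t + 2 * (ρ : ZMod (3 ^ b))) := fun t => by rw [hF]; rfl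
  have f3 : ∀ t, F 3 t = G 3 t := fun t => by rw [hF]; rfl
  have f0' : ∀ t, F' 0 t = G' 0 (3 * t + (ρ : ZMod (3 ^ b))) := fun t => by rw [hF']; rfl
  have f1' : ∀ t, F' 1 t = G' 1 (3 * t - (ρ : ZMod (3 ^ b))) := fun t => by rw [hF']; rfl
  have f2' : ∀ t, F' 2 t = G' 2 (3 * t + 2 * (ρ : ZMod (3 ^ b))) := fun t => by rw [hF']; rfl
  have f3' : ∀ t, F' 3 t = G' 3 t := fun t => by rw [hF']; rfl
  have e1 : Db (mf ρ) g g' = fun y y' z z' : ℤ =>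
      (fun y y' z z' : ZMod (3 ^ b) =>
        ((F 0 (y + z) * (starRingEnd ℂ) (F' 0 (y + z'))) * (F 1 (y - z) * (starRingEnd ℂ) (F' 1 (y - z')))) *
        ((F 2 (y' + z) * (starRingEnd ℂ) (F' 2 (y' + z'))) * (F 3 (y' - z) * (starRingEnd ℂ) (F' 3 (y' - z')))))
        y y' z z' := by
    funext y y' z z'
    rw [Db, Fin.prod_univ_four]
    show (g 0 (3 * y + 3 * z + ρ) * (starRingEnd ℂ) (g' 0 (3 * y + 3 * z' + ρ))) *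
      (g 1 (3 * y - 3 * z - ρ) * (starRingEnd ℂ) (g' 1 (3 * y - 3 * z' - ρ))) *
      (g 2 (3 * y' + 3 * z + 2 * ρ) * (starRingEnd ℂ) (g' 2 (3 * y' + 3 * z' + 2 * ρ))) *
      (g 3 (y' - z) * (starRingEnd ℂ) (g' 3 (y' - z'))) = _
    simp only [hG, hG', f0, f1, f2, f3, f0', f1', f2', f3']
    push_cast
    have e1 : ∀ x u t : ZMod (3 ^ b), 3 * (x + u) + t = 3 * x + 3 * u + t := fun x u t => by ring
    have e2 : ∀ x u t : ZMod (3 ^ b), 3 * (x - u) - t = 3 * x - 3 * u - t := fun x u t => by ring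
    rw [e1, e1, e2, e2, e1, e1]
    ring
  have e2 : S4 (3 ^ b) (Db (mf ρ) g g') = ∑ z : ZMod (3 ^ b), ∑ z' : ZMod (3 ^ b),
      (∑ y : ZMod (3 ^ b), (F 0 (y + z) * (starRingEnd ℂ) (F' 0 (y + z'))) *
        (F 1 (y - z) * (starRingEnd ℂ) (F' 1 (y - z')))) *
      ∑ y' : ZMod (3 ^ b), (F 2 (y' + z) * (starRingEnd ℂ) (F' 2 (y' + z'))) *
        (F 3 (y' - z) * (starRingEnd ℂ) (F' 3 (y' - z'))) := by
    rw [e1, C3_nest (3 ^ b) (fun y y' z z' : ZMod (3 ^ b) =>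
        ((F 0 (y + z) * (starRingEnd ℂ) (F' 0 (y + z'))) * (F 1 (y - z) * (starRingEnd ℂ) (F' 1 (y - z')))) *
        ((F 2 (y' + z) * (starRingEnd ℂ) (F' 2 (y' + z'))) * (F 3 (y' - z) * (starRingEnd ℂ) (F' 3 (y' - z')))))]
    have e3 : ∀ y : ZMod (3 ^ b), ∑ y' : ZMod (3 ^ b), ∑ z : ZMod (3 ^ b), ∑ z' : ZMod (3 ^ b),
        ((F 0 (y + z) * (starRingEnd ℂ) (F' 0 (y + z'))) * (F 1 (y - z) * (starRingEnd ℂ) (F' 1 (y - z')))) *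
        ((F 2 (y' + z) * (starRingEnd ℂ) (F' 2 (y' + z'))) * (F 3 (y' - z) * (starRingEnd ℂ) (F' 3 (y' - z')))) =
        ∑ z : ZMod (3 ^ b), ∑ z' : ZMod (3 ^ b), ∑ y' : ZMod (3 ^ b),
        ((F 0 (y + z) * (starRingEnd ℂ) (F' 0 (y + z'))) * (F 1 (y - z) * (starRingEnd ℂ) (F' 1 (y - z')))) *
        ((F 2 (y' + z) * (starRingEnd ℂ) (F' 2 (y' + z'))) * (F 3 (y' - z) * (starRingEnd ℂ) (F' 3 (y' - z')))) := by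
      intro y
      rw [Finset.sum_comm]
      exact Finset.sum_congr rfl fun z _ => Finset.sum_comm
    rw [Finset.sum_congr rfl fun y _ => e3 y, Finset.sum_comm]
    refine Finset.sum_congr rfl fun z _ => ?_
    rw [Finset.sum_comm]
    refine Finset.sum_congr rfl fun z' _ => ?_
    rw [Finset.sum_mul_sum]
  have hsw : ∀ A B : ZMod (3 ^ b) → ZMod (3 ^ b) → ℂ, ∑ z, ∑ z', A z z' * B z z' = ∑ z, ∑ z', B z z' * A z z' :=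
    fun A B => Finset.sum_congr rfl fun z _ => Finset.sum_congr rfl fun z' _ => mul_comm _ _
  rw [e2, hsw]
  refine W4_fin b _ _ ?_ ?_
  · refine (e2_minus 3 b Nat.prime_three hb1 χ hχ c hc (F 2) (F' 2) (F 3) (F' 3) (fun t => by rw [f3, hG3])
      (fun t => by rw [f3', hG3']) (fun t => by rw [f2]; exact bG 2 _) (fun t => by rw [f2']; exact bG' 2 _)).trans ?_
    have h3 : ((3 : ℕ) : ℝ) = 3 := by norm_num
    rw [h3]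
    exact mul_le_mul_of_nonneg_right (by norm_num) (by positivity)
  · intro z z'
    exact e2_triv (3 ^ b) (F 0) (F' 0) (F 1) (F' 1) (fun t => by rw [f0]; exact bG 0 _)
      (fun t => by rw [f0']; exact bG' 0 _) (fun t => by rw [f1]; exact bG 1 _)
      (fun t => by rw [f1']; exact bG' 1 _) z z'

end Pool.Agent.Lib.H59V
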