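import Pool.Agent.Lib.H59V.W4

/-!
# Project H59V, chunk W5 (M): the prime 3, conductor at the first or second form
-/

open Finset

namespace Pool.Agent.Lib.H59V

open Pool.Agent.Lib.H68T Pool.Agent.Lib.H18Q Pool.Agent.Lib.H59P Pool.Agent.Lib.H59T

/-- the trivial bound -/
theorem w5_triv (q : ℕ) [NeZero q] (F0 F1 F2 F3 : ZMod q → ℂ) (b0 : ∀ t, ‖F0 t‖ ≤ 2) (b1 : ∀ t, ‖F1 t‖ ≤ 2)
    (b2 : ∀ t, ‖F2 t‖ ≤ 2) (b3 : ∀ t, ‖F3 t‖ ≤ 2) :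
    ‖∑ y : ZMod q, (F0 y * (starRingEnd ℂ) (F1 y)) * (F2 y * (starRingEnd ℂ) (F3 y))‖ ≤ 16 * (q : ℝ) := by
  calc _ ≤ ∑ y : ZMod q, ‖(F0 y * (starRingEnd ℂ) (F1 y)) * (F2 y * (starRingEnd ℂ) (F3 y))‖ := norm_sum_le _ _
    _ ≤ ∑ _y : ZMod q, (16 : ℝ) := by
      refine Finset.sum_le_sum fun y _ => ?_
      rw [norm_mul, norm_mul, norm_mul, RCLike.norm_conj, RCLike.norm_conj]
      calc _ ≤ ((2 : ℝ) * 2) * (2 * 2) :=
            mul_le_mul (mul_le_mul (b0 _) (b1 _) (norm_nonneg _) (by norm_num))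
              (mul_le_mul (b2 _) (b3 _) (norm_nonneg _) (by norm_num)) (by positivity) (by norm_num)
        _ = 16 := by norm_num
    _ = 16 * (q : ℝ) := by rw [Finset.sum_const, Finset.card_univ, ZMod.card, nsmul_eq_mul, mul_comm]

/-- the sum over the multiples of 3 -/
theorem w5_one (b : ℕ) (hb : 1 ≤ b) [NeZero (3 ^ b)] (F H : ZMod (3 ^ b) → ℂ)
    (h1 : ∀ y : ZMod (3 ^ b), F (3 * y) = H (3 * y))
    (h2 : ∀ t : ZMod (3 ^ b), (∀ y : ZMod (3 ^ b), t ≠ 3 * y) → H t = 0) :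
    ‖∑ y : ZMod (3 ^ b), F (3 * y)‖ ^ 2 = 9 * ‖∑ t : ZMod (3 ^ b), H t‖ ^ 2 := by
  have e2 := W3_sum b hb 0 H (fun t ht => by
    refine h2 t fun y hy => ht y ?_
    rw [hy, add_zero])
  have e3 : ∑ y : ZMod (3 ^ b), F (3 * y) = 3 * ∑ t : ZMod (3 ^ b), H t := by
    rw [← e2]
    refine Finset.sum_congr rfl fun y _ => ?_
    rw [h1 y, add_zero]
  rw [e3, norm_mul, mul_pow, Complex.norm_ofNat]
  ring

theorem w5_A (b : ℕ) (hb : 1 ≤ b) [NeZero (3 ^ b)] (r : ZMod (3 ^ b))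
    (F H : ZMod (3 ^ b) → ZMod (3 ^ b) → ZMod (3 ^ b) → ℂ)
    (h1 : ∀ z z' y : ZMod (3 ^ b), F (3 * z + r) (3 * z' + r) (3 * y) = H (3 * z + r) (3 * z' + r) (3 * y))
    (h2 : ∀ z z' t : ZMod (3 ^ b), (∀ y : ZMod (3 ^ b), t ≠ 3 * y) → H (3 * z + r) (3 * z' + r) t = 0)
    (C : ℝ) (hC : ∑ z : ZMod (3 ^ b), ∑ z' : ZMod (3 ^ b), ‖∑ y : ZMod (3 ^ b), H z z' y‖ ^ 2 ≤ 4 ^ 2 * C) :
    ∑ z : ZMod (3 ^ b), ∑ z' : ZMod (3 ^ b), ‖∑ y : ZMod (3 ^ b), F (3 * z + r) (3 * z' + r) (3 * y)‖ ^ 2 ≤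
      36 ^ 2 * C := by
  have e1 : ∀ z z' : ZMod (3 ^ b), ‖∑ y : ZMod (3 ^ b), F (3 * z + r) (3 * z' + r) (3 * y)‖ ^ 2 =
      9 * ‖∑ y : ZMod (3 ^ b), H (3 * z + r) (3 * z' + r) y‖ ^ 2 := fun z z' =>
    w5_one b hb _ _ (h1 z z') (h2 z z')
  have e2 := W3_le2 b hb r (fun t t' => 9 * ‖∑ y : ZMod (3 ^ b), H t t' y‖ ^ 2) (fun t t' => by positivity)
  have e3 : ∑ z : ZMod (3 ^ b), ∑ z' : ZMod (3 ^ b), ‖∑ y : ZMod (3 ^ b), F (3 * z + r) (3 * z' + r) (3 * y)‖ ^ 2 =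
      ∑ z : ZMod (3 ^ b), ∑ z' : ZMod (3 ^ b), 9 * ‖∑ y : ZMod (3 ^ b), H (3 * z + r) (3 * z' + r) y‖ ^ 2 :=
    Finset.sum_congr rfl fun z _ => Finset.sum_congr rfl fun z' _ => e1 z z'
  have e4 : ∑ t : ZMod (3 ^ b), ∑ t' : ZMod (3 ^ b), 9 * ‖∑ y : ZMod (3 ^ b), H t t' y‖ ^ 2 =
      9 * ∑ t : ZMod (3 ^ b), ∑ t' : ZMod (3 ^ b), ‖∑ y : ZMod (3 ^ b), H t t' y‖ ^ 2 := by
    rw [Finset.mul_sum]
    exact Finset.sum_congr rfl fun z _ => by rw [Finset.mul_sum]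
  rw [e3]
  refine e2.trans ?_
  rw [e4]
  linarith

/-- **The first two forms.** Proof. `C3_fun`, `C3_nest`: the sum is over `z, z'` of
`A(z, z') = ∑_y (G0 (3y + 3z + ρ) conj G0' (3y + 3z' + ρ)) (G1 (3y - 3z - ρ) conj G1' (3y - 3z' - ρ))` times
`B(z, z') = ∑_{y'} (forms 2 and 3)`, `‖B‖ ≤ 16 · 3^b`. Let `Z = 3z + ρ`, `Z' = 3z' + ρ`. Case `i0 = 0`: put
`H1 t = G1 t` if `t + ρ` is a multiple of `3` in `ZMod (3^b)` (`∃ s, t + ρ = 3 * s`), `0` else, `H1'` likewise. For `Y = 3y` the number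
`Y - Z + ρ = 3 (y - z)` is a multiple of `3`, and `H1 (Y - Z) = 0` if `Y` is not a multiple of `3`. So by `W3_sum` (`c = 0`)
`A(z, z') = 3 Ã(Z, Z')`, `Ã(Z, Z') = ∑_Y (G0 (Y + Z) conj G0' (Y + Z')) (H1 (Y - Z) conj H1' (Y - Z'))`, the sum in
`e2_plus` (`H59T/E2.lean`, `l = 3`), and by `W3_le2` (`c = ρ`) `∑∑ ‖A‖² ≤ 9 · 9 · ∑∑ ‖Ã‖² ≤ 81 · 4² (96 …) = 36² (96 …)`.
Case `i0 = 1`: the same with `H0 t = G0 t` if `t - ρ` is a multiple of `3`, `0` else, and `e2_minus`. `W4_fin`. -/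
theorem W5_three (b : ℕ) (hb1 : 1 ≤ b) (ρ : ℤ) (χ : DirichletCharacter ℂ (3 ^ b))
    (hχ : χ.IsPrimitive) (c : ℝ) (hc : |c| ≤ 2) (g g' : Fin 4 → ℤ → ℂ)
    (hp : ∀ i m, g i (m + (3 ^ b : ℕ)) = g i m) (hp' : ∀ i m, g' i (m + (3 ^ b : ℕ)) = g' i m)
    (hb : ∀ i m, ‖g i m‖ ≤ 2) (hb' : ∀ i m, ‖g' i m‖ ≤ 2) (i0 : Fin 4) (hi0 : i0 = 0 ∨ i0 = 1)
    (h : ∀ m : ℤ, g i0 m = c * (starRingEnd ℂ) (χ (m : ZMod (3 ^ b))))
    (h' : ∀ m : ℤ, g' i0 m = c * (starRingEnd ℂ) (χ (m : ZMod (3 ^ b)))) :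
    ‖S4 (3 ^ b) (Db (mf ρ) g g')‖ ≤ ((3 ^ b : ℕ) : ℝ) ^ 4 * (2 ^ 13 * ((3 ^ b : ℕ) : ℝ) ^ (-(1 / 18 : ℝ))) := by
  classical
  have : NeZero (3 ^ b) := ⟨pow_ne_zero _ (by norm_num)⟩
  choose G hG using fun i => C3_fun (3 ^ b) (g i) (hp i)
  choose G' hG' using fun i => C3_fun (3 ^ b) (g' i) (hp' i)
  have hs : ∀ t : ZMod (3 ^ b), ∃ m : ℤ, (m : ZMod (3 ^ b)) = t := fun t => ZMod.intCast_surjective t
  have bG : ∀ i t, ‖G i t‖ ≤ 2 := by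
    intro i t
    obtain ⟨m, rfl⟩ := hs t
    rw [← hG]
    exact hb i m
  have bG' : ∀ i t, ‖G' i t‖ ≤ 2 := by
    intro i t
    obtain ⟨m, rfl⟩ := hs t
    rw [← hG']
    exact hb' i m
  have hG0 : ∀ t, G i0 t = c * (starRingEnd ℂ) (χ t) := by
    intro t
    obtain ⟨m, rfl⟩ := hs t
    rw [← hG]
    exact h m
  have hG0' : ∀ t, G' i0 t = c * (starRingEnd ℂ) (χ t) := by
    intro t
    obtain ⟨m, rfl⟩ := hs t
    rw [← hG']
    exact h' m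
  obtain ⟨r, hr⟩ : ∃ r : ZMod (3 ^ b), r = (ρ : ZMod (3 ^ b)) := ⟨_, rfl⟩
  have e1 : Db (mf ρ) g g' = fun y y' z z' : ℤ =>
      (fun y y' z z' : ZMod (3 ^ b) =>
        ((G 0 (3 * y + (3 * z + r)) * (starRingEnd ℂ) (G' 0 (3 * y + (3 * z' + r)))) *
          (G 1 (3 * y - (3 * z + r)) * (starRingEnd ℂ) (G' 1 (3 * y - (3 * z' + r))))) *
        ((G 2 (3 * y' + 3 * z + 2 * r) * (starRingEnd ℂ) (G' 2 (3 * y' + 3 * z' + 2 * r))) *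
          (G 3 (y' - z) * (starRingEnd ℂ) (G' 3 (y' - z')))))
        y y' z z' := by
    funext y y' z z'
    unfold Db
    rw [Fin.prod_univ_four]
    simp only [mf, hG, hG', Matrix.cons_val_zero, Matrix.cons_val_one, Matrix.cons_val]
    push_cast
    rw [← hr]
    have a1 : ∀ y z : ZMod (3 ^ b), 3 * y + 3 * z + r = 3 * y + (3 * z + r) := fun y z => by ring
    have a2 : ∀ y z : ZMod (3 ^ b), 3 * y - 3 * z - r = 3 * y - (3 * z + r) := fun y z => by ring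
    rw [a1, a1, a2, a2]
    ring
  have e2 : S4 (3 ^ b) (Db (mf ρ) g g') = ∑ z : ZMod (3 ^ b), ∑ z' : ZMod (3 ^ b),
      (∑ y : ZMod (3 ^ b), (G 0 (3 * y + (3 * z + r)) * (starRingEnd ℂ) (G' 0 (3 * y + (3 * z' + r)))) *
          (G 1 (3 * y - (3 * z + r)) * (starRingEnd ℂ) (G' 1 (3 * y - (3 * z' + r))))) *
      ∑ y' : ZMod (3 ^ b), (G 2 (3 * y' + 3 * z + 2 * r) * (starRingEnd ℂ) (G' 2 (3 * y' + 3 * z' + 2 * r))) *
          (G 3 (y' - z) * (starRingEnd ℂ) (G' 3 (y' - z'))) := by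
    rw [e1, C3_nest (3 ^ b) (fun y y' z z' : ZMod (3 ^ b) =>
        ((G 0 (3 * y + (3 * z + r)) * (starRingEnd ℂ) (G' 0 (3 * y + (3 * z' + r)))) *
          (G 1 (3 * y - (3 * z + r)) * (starRingEnd ℂ) (G' 1 (3 * y - (3 * z' + r))))) *
        ((G 2 (3 * y' + 3 * z + 2 * r) * (starRingEnd ℂ) (G' 2 (3 * y' + 3 * z' + 2 * r))) *
          (G 3 (y' - z) * (starRingEnd ℂ) (G' 3 (y' - z')))))]
    have e3 : ∀ F : ZMod (3 ^ b) → ZMod (3 ^ b) → ZMod (3 ^ b) → ZMod (3 ^ b) → ℂ,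
        ∑ y, ∑ y', ∑ z, ∑ z', F y y' z z' = ∑ z, ∑ z', ∑ y, ∑ y', F y y' z z' := by
      intro F
      have e4 : ∀ y, ∑ y', ∑ z, ∑ z', F y y' z z' = ∑ z, ∑ z', ∑ y', F y y' z z' := by
        intro y
        rw [Finset.sum_comm]
        exact Finset.sum_congr rfl fun z _ => Finset.sum_comm
      rw [Finset.sum_congr rfl fun y _ => e4 y, Finset.sum_comm]
      exact Finset.sum_congr rfl fun z _ => Finset.sum_comm
    rw [e3]
    refine Finset.sum_congr rfl fun z _ => Finset.sum_congr rfl fun z' _ => ?_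
    rw [Finset.sum_mul_sum]
  rw [e2]
  refine W4_fin b _ _ ?_ (fun z z' => w5_triv (3 ^ b) (fun y' => G 2 (3 * y' + 3 * z + 2 * r))
    (fun y' => G' 2 (3 * y' + 3 * z' + 2 * r)) (fun y' => G 3 (y' - z)) (fun y' => G' 3 (y' - z'))
    (fun _ => bG 2 _) (fun _ => bG' 2 _) (fun _ => bG 3 _) (fun _ => bG' 3 _))
  rcases hi0 with rfl | rfl
  · obtain ⟨K, hK⟩ : ∃ K : ZMod (3 ^ b) → ℂ, K = fun t => if ∃ s, t + r = 3 * s then G 1 t else 0 := ⟨_, rfl⟩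
    obtain ⟨K', hK'⟩ : ∃ K : ZMod (3 ^ b) → ℂ, K = fun t => if ∃ s, t + r = 3 * s then G' 1 t else 0 := ⟨_, rfl⟩
    refine w5_A b hb1 r
      (fun u v y => (G 0 (y + u) * (starRingEnd ℂ) (G' 0 (y + v))) * (G 1 (y - u) * (starRingEnd ℂ) (G' 1 (y - v))))
      (fun u v y => (G 0 (y + u) * (starRingEnd ℂ) (G' 0 (y + v))) * (K (y - u) * (starRingEnd ℂ) (K' (y - v))))
      (fun z z' y => ?_) (fun z z' t ht => ?_) _ ?_
    · have a1 : ∃ s, 3 * y - (3 * z + r) + r = 3 * s := ⟨y - z, by ring⟩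
      have a2 : ∃ s, 3 * y - (3 * z' + r) + r = 3 * s := ⟨y - z', by ring⟩
      rw [hK, hK']
      simp only [if_pos a1, if_pos a2]
    · have a1 : ¬ ∃ s, t - (3 * z + r) + r = 3 * s := by
        rintro ⟨s, hs'⟩
        exact ht (s + z) (by linear_combination hs')
      rw [hK]
      simp only [if_neg a1, zero_mul, mul_zero]
    · have h5 := e2_plus 3 b Nat.prime_three hb1 χ hχ c hc (G 0) (G' 0) K K' hG0 hG0' (fun t => by
        rw [hK]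
        beta_reduce
        split_ifs
        · exact bG 1 t
        · rw [norm_zero]; norm_num) (fun t => by
        rw [hK']
        beta_reduce
        split_ifs
        · exact bG' 1 t
        · rw [norm_zero]; norm_num)
      rw [Nat.cast_ofNat] at h5
      exact h5
  · obtain ⟨K, hK⟩ : ∃ K : ZMod (3 ^ b) → ℂ, K = fun t => if ∃ s, t - r = 3 * s then G 0 t else 0 := ⟨_, rfl⟩
    obtain ⟨K', hK'⟩ : ∃ K : ZMod (3 ^ b) → ℂ, K = fun t => if ∃ s, t - r = 3 * s then G' 0 t else 0 := ⟨_, rfl⟩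
    refine w5_A b hb1 r
      (fun u v y => (G 0 (y + u) * (starRingEnd ℂ) (G' 0 (y + v))) * (G 1 (y - u) * (starRingEnd ℂ) (G' 1 (y - v))))
      (fun u v y => (K (y + u) * (starRingEnd ℂ) (K' (y + v))) * (G 1 (y - u) * (starRingEnd ℂ) (G' 1 (y - v))))
      (fun z z' y => ?_) (fun z z' t ht => ?_) _ ?_
    · have a1 : ∃ s, 3 * y + (3 * z + r) - r = 3 * s := ⟨y + z, by ring⟩
      have a2 : ∃ s, 3 * y + (3 * z' + r) - r = 3 * s := ⟨y + z', by ring⟩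
      rw [hK, hK']
      simp only [if_pos a1, if_pos a2]
    · have a1 : ¬ ∃ s, t + (3 * z + r) - r = 3 * s := by
        rintro ⟨s, hs'⟩
        exact ht (s - z) (by linear_combination hs')
      rw [hK]
      simp only [if_neg a1, zero_mul]
    · have h5 := e2_minus 3 b Nat.prime_three hb1 χ hχ c hc K K' (G 1) (G' 1) hG0 hG0' (fun t => by
        rw [hK]
        beta_reduce
        split_ifs
        · exact bG 0 t
        · rw [norm_zero]; norm_num) (fun t => by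
        rw [hK']
        beta_reduce
        split_ifs
        · exact bG' 0 t
        · rw [norm_zero]; norm_num)
      rw [Nat.cast_ofNat] at h5
      exact h5

end Pool.Agent.Lib.H59V
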