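import Pool.Agent.Lib.H59V.W4

/-!
# Project H59V, chunk W6 (M): the prime 3, conductor at the third form
-/

open Finset

namespace Pool.Agent.Lib.H59V

open Pool.Agent.Lib.H68T Pool.Agent.Lib.H18Q Pool.Agent.Lib.H59P Pool.Agent.Lib.H59T

/-- A function of period `3^(b-1)`, read at the multiples of `3` modulo `3^b`. -/
theorem w6_fun (b : ℕ) (hb1 : 1 ≤ b) [NeZero (3 ^ b)] (f : ℤ → ℂ)
    (hq : ∀ m, f (m + (3 ^ (b - 1) : ℕ)) = f m) (hb : ∀ m, ‖f m‖ ≤ 2) :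
    ∃ H : ZMod (3 ^ b) → ℂ, (∀ m : ℤ, H (3 * (m : ZMod (3 ^ b))) = f m) ∧ (∀ t, ‖H t‖ ≤ 2) ∧
      ∀ t, (∀ s : ZMod (3 ^ b), t ≠ 3 * s) → H t = 0 := by
  classical
  have hN : 3 ^ b = 3 * 3 ^ (b - 1) := by
    obtain ⟨c, rfl⟩ : ∃ c, b = c + 1 := ⟨b - 1, by omega⟩
    rw [Nat.add_sub_cancel, pow_succ, mul_comm]
  have h1 : ∀ (k : ℕ) (m : ℤ), f (m + (k : ℤ) * (3 ^ (b - 1) : ℕ)) = f m := by
    intro k
    induction k with
    | zero => intro m; simp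
    | succ k ih =>
      intro m
      have : m + ((k + 1 : ℕ) : ℤ) * (3 ^ (b - 1) : ℕ) =
          (m + (k : ℤ) * (3 ^ (b - 1) : ℕ)) + (3 ^ (b - 1) : ℕ) := by push_cast; ring
      rw [this, hq, ih]
  refine ⟨fun t => if 3 ∣ t.val then f ((t.val / 3 : ℕ) : ℤ) else 0, ?_, ?_, ?_⟩
  · intro m
    obtain ⟨n, hn⟩ : ∃ n : ℕ, ((n : ℕ) : ZMod (3 ^ b)) = (m : ZMod (3 ^ b)) ∧ f m = f n := by
      refine ⟨(m % ((3 ^ b : ℕ) : ℤ)).toNat, ?_, ?_⟩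
      · have hpos : (0 : ℤ) < ((3 ^ b : ℕ) : ℤ) := by positivity
        have h0 : 0 ≤ m % ((3 ^ b : ℕ) : ℤ) := Int.emod_nonneg _ hpos.ne'
        have : (((m % ((3 ^ b : ℕ) : ℤ)).toNat : ℕ) : ZMod (3 ^ b)) =
            ((m % ((3 ^ b : ℕ) : ℤ) : ℤ) : ZMod (3 ^ b)) := by
          conv_rhs => rw [← Int.toNat_of_nonneg h0]
          rw [Int.cast_natCast]
        rw [this, ZMod.intCast_mod]
      · have hpos : (0 : ℤ) < ((3 ^ b : ℕ) : ℤ) := by positivity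
        have h0 : 0 ≤ m % ((3 ^ b : ℕ) : ℤ) := Int.emod_nonneg _ hpos.ne'
        rw [Int.toNat_of_nonneg h0]
        have h2 : ∀ (k m : ℤ), f (m + k * (3 ^ (b - 1) : ℕ)) = f m := by
          intro k m
          obtain ⟨n, rfl | rfl⟩ := k.eq_nat_or_neg
          · exact h1 n m
          · have := h1 n (m + (-(n : ℤ)) * (3 ^ (b - 1) : ℕ))
            rw [← this]
            congr 1
            ring
        have h3 : m = m % ((3 ^ b : ℕ) : ℤ) + (m / ((3 ^ b : ℕ) : ℤ) * 3) * ((3 ^ (b - 1) : ℕ) : ℤ) := by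
          have h4 := Int.emod_add_mul_ediv m ((3 ^ b : ℕ) : ℤ)
          have h5 : ((3 ^ b : ℕ) : ℤ) = 3 * ((3 ^ (b - 1) : ℕ) : ℤ) := by exact_mod_cast hN
          calc m = m % ((3 ^ b : ℕ) : ℤ) + ((3 ^ b : ℕ) : ℤ) * (m / ((3 ^ b : ℕ) : ℤ)) := h4.symm
            _ = m % ((3 ^ b : ℕ) : ℤ) + (3 * ((3 ^ (b - 1) : ℕ) : ℤ)) * (m / ((3 ^ b : ℕ) : ℤ)) := by
              rw [← h5]
            _ = _ := by ring
        conv_lhs => rw [h3]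
        exact h2 _ _
    obtain ⟨hn1, hn2⟩ := hn
    have hv : ((3 : ZMod (3 ^ b)) * (m : ZMod (3 ^ b))).val = 3 * (n % 3 ^ (b - 1)) := by
      have : (3 : ZMod (3 ^ b)) * (m : ZMod (3 ^ b)) = ((3 * n : ℕ) : ZMod (3 ^ b)) := by
        rw [← hn1]; push_cast; ring
      rw [this, ZMod.val_natCast, hN, Nat.mul_mod_mul_left]
    simp only
    rw [hv, if_pos (dvd_mul_right 3 _), Nat.mul_div_cancel_left _ (by norm_num : 0 < 3), hn2]
    have h6 := h1 (n / 3 ^ (b - 1)) ((n % 3 ^ (b - 1) : ℕ) : ℤ)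
    rw [← h6]
    congr 1
    have h7 := Nat.mod_add_div n (3 ^ (b - 1))
    have h8 : ((n % 3 ^ (b - 1) : ℕ) : ℤ) + ((3 ^ (b - 1) : ℕ) : ℤ) * ((n / 3 ^ (b - 1) : ℕ) : ℤ) = (n : ℤ) := by
      exact_mod_cast h7
    rw [← h8]
    ring
  · intro t
    simp only
    split_ifs
    · exact hb _
    · simp
  · intro t ht
    simp only
    rw [if_neg]
    intro hd
    obtain ⟨k, hk⟩ := hd
    refine ht (k : ZMod (3 ^ b)) ?_
    rw [← ZMod.natCast_zmod_val t, hk]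
    push_cast
    ring

/-- **The third form.** Here the fourth function has the smaller period `3^(b-1)`. Proof. `C3_fun`, `C3_nest`: the sum is over
`z, z'` of `B(z, z') = ∑_y (forms 0 and 1)`, `‖B‖ ≤ 16 · 3^b`, times
`A(z, z') = ∑_{y'} (G2 (3y' + 3z + 2ρ) conj G2' (3y' + 3z' + 2ρ)) (g 3 (y' - z) conj (g' 3 (y' - z')))`.
Define `H3 : ZMod (3^b) → ℂ` by `H3 t = g 3 (t.val / 3)` if `3 ∣ t.val`, `0` else; then `H3 (3 s) = g 3 s` for all integers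
`s` (the number `(3 s mod 3^b)/3` is `s` modulo `3^(b-1)`, period of `g 3`), and `H3 t = 0` if `t` is not a multiple of `3`;
`H3'` likewise. With `Z = 3z + ρ`, `Z' = 3z' + ρ`, `Y' = 3y' + ρ`: `Y' + Z = 3y' + 3z + 2ρ`, `Y' - Z = 3 (y' - z)`. The product
vanishes unless `Y' - Z` is a multiple of `3`, i.e. unless `Y' = 3y' + ρ` for some `y'`; by `W3_sum` (`c = ρ`)
`A(z, z') = 3 Ã(Z, Z')`, `Ã(Z, Z') = ∑_{Y'} (G2 (Y' + Z) conj G2' (Y' + Z')) (H3 (Y' - Z) conj H3' (Y' - Z'))`, the sum in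
`e2_plus` (`l = 3`); `W3_le2` (`c = ρ`), `W4_fin` as in `W5_three`. -/
theorem W6_three (b : ℕ) (hb2 : 2 ≤ b) (ρ : ℤ) (χ : DirichletCharacter ℂ (3 ^ b))
    (hχ : χ.IsPrimitive) (c : ℝ) (hc : |c| ≤ 2) (g g' : Fin 4 → ℤ → ℂ)
    (hp : ∀ i m, g i (m + (3 ^ b : ℕ)) = g i m) (hp' : ∀ i m, g' i (m + (3 ^ b : ℕ)) = g' i m)
    (hq : ∀ m, g 3 (m + (3 ^ (b - 1) : ℕ)) = g 3 m) (hq' : ∀ m, g' 3 (m + (3 ^ (b - 1) : ℕ)) = g' 3 m)
    (hb : ∀ i m, ‖g i m‖ ≤ 2) (hb' : ∀ i m, ‖g' i m‖ ≤ 2)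
    (h : ∀ m : ℤ, g 2 m = c * (starRingEnd ℂ) (χ (m : ZMod (3 ^ b))))
    (h' : ∀ m : ℤ, g' 2 m = c * (starRingEnd ℂ) (χ (m : ZMod (3 ^ b)))) :
    ‖S4 (3 ^ b) (Db (mf ρ) g g')‖ ≤ ((3 ^ b : ℕ) : ℝ) ^ 4 * (2 ^ 13 * ((3 ^ b : ℕ) : ℝ) ^ (-(1 / 18 : ℝ))) := by
  haveI : NeZero (3 ^ b) := ⟨pow_ne_zero _ (by norm_num)⟩
  choose G hG using fun i => C3_fun (3 ^ b) (g i) (hp i)
  choose G' hG' using fun i => C3_fun (3 ^ b) (g' i) (hp' i)
  obtain ⟨H, hH1, hH2, hH3⟩ := w6_fun b (by omega) (g 3) hq (hb 3)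
  obtain ⟨H', hH1', hH2', hH3'⟩ := w6_fun b (by omega) (g' 3) hq' (hb' 3)
  have hs : ∀ t : ZMod (3 ^ b), ∃ m : ℤ, (m : ZMod (3 ^ b)) = t := fun t => ZMod.intCast_surjective t
  have bG : ∀ i t, ‖G i t‖ ≤ 2 := by
    intro i t
    obtain ⟨m, rfl⟩ := hs t
    rw [← hG]
    exact hb i m
  have bG' : ∀ i t, ‖G' i t‖ ≤ 2 := by
    intro i t
    obtain ⟨m, rfl⟩ := hs t
    rw [← hG']
    exact hb' i m
  have hG0 : ∀ t, G 2 t = c * (starRingEnd ℂ) (χ t) := by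
    intro t
    obtain ⟨m, rfl⟩ := hs t
    rw [← hG]
    exact h m
  have hG0' : ∀ t, G' 2 t = c * (starRingEnd ℂ) (χ t) := by
    intro t
    obtain ⟨m, rfl⟩ := hs t
    rw [← hG']
    exact h' m
  have hH : ∀ s : ZMod (3 ^ b), H (3 * s) = G 3 s := by
    intro s
    obtain ⟨m, rfl⟩ := hs s
    rw [hH1, hG]
  have hH' : ∀ s : ZMod (3 ^ b), H' (3 * s) = G' 3 s := by
    intro s
    obtain ⟨m, rfl⟩ := hs s
    rw [hH1', hG']
  obtain ⟨r, hr⟩ : ∃ r : ZMod (3 ^ b), r = (ρ : ZMod (3 ^ b)) := ⟨_, rfl⟩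
  have e1 : Db (mf ρ) g g' = fun y y' z z' : ℤ =>
      (fun y y' z z' : ZMod (3 ^ b) =>
        ((G 0 (3 * (y + z) + r) * (starRingEnd ℂ) (G' 0 (3 * (y + z') + r))) *
          (G 1 (3 * (y - z) - r) * (starRingEnd ℂ) (G' 1 (3 * (y - z') - r)))) *
        ((G 2 (3 * y' + r + (3 * z + r)) * (starRingEnd ℂ) (G' 2 (3 * y' + r + (3 * z' + r)))) *
          (H (3 * y' + r - (3 * z + r)) * (starRingEnd ℂ) (H' (3 * y' + r - (3 * z' + r))))))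
        y y' z z' := by
    funext y y' z z'
    unfold Db
    rw [Fin.prod_univ_four]
    have k1 : ∀ u v : ZMod (3 ^ b), 3 * u + r - (3 * v + r) = 3 * (u - v) := fun u v => by ring
    simp only [mf, k1, hH, hH', Matrix.cons_val_zero, Matrix.cons_val_one, Matrix.cons_val]
    have k2 : ∀ u v : ℤ, ((3 * u + 3 * v + ρ : ℤ) : ZMod (3 ^ b)) = 3 * ((u : ZMod (3 ^ b)) + v) + r := by
      intro u v; rw [hr]; push_cast; ring
    have k3 : ∀ u v : ℤ, ((3 * u - 3 * v - ρ : ℤ) : ZMod (3 ^ b)) = 3 * ((u : ZMod (3 ^ b)) - v) - r := by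
      intro u v; rw [hr]; push_cast; ring
    have k4 : ∀ u v : ℤ, ((3 * u + 3 * v + 2 * ρ : ℤ) : ZMod (3 ^ b)) =
        3 * (u : ZMod (3 ^ b)) + r + (3 * (v : ZMod (3 ^ b)) + r) := by
      intro u v; rw [hr]; push_cast; ring
    have k5 : ∀ u v : ℤ, ((u - v : ℤ) : ZMod (3 ^ b)) = (u : ZMod (3 ^ b)) - v := by
      intro u v; push_cast; ring
    rw [hG, hG, hG, hG, hG', hG', hG', hG', k2, k2, k3, k3, k4, k4, k5, k5]
    ring
  let B : ZMod (3 ^ b) → ZMod (3 ^ b) → ℂ := fun z z' => ∑ y : ZMod (3 ^ b),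
    (G 0 (3 * (y + z) + r) * (starRingEnd ℂ) (G' 0 (3 * (y + z') + r))) *
      (G 1 (3 * (y - z) - r) * (starRingEnd ℂ) (G' 1 (3 * (y - z') - r)))
  let At : ZMod (3 ^ b) → ZMod (3 ^ b) → ℂ := fun t t' => ∑ y : ZMod (3 ^ b),
    (G 2 (y + t) * (starRingEnd ℂ) (G' 2 (y + t'))) * (H (y - t) * (starRingEnd ℂ) (H' (y - t')))
  let A : ZMod (3 ^ b) → ZMod (3 ^ b) → ℂ := fun z z' => ∑ y' : ZMod (3 ^ b),
    (G 2 (3 * y' + r + (3 * z + r)) * (starRingEnd ℂ) (G' 2 (3 * y' + r + (3 * z' + r)))) *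
          (H (3 * y' + r - (3 * z + r)) * (starRingEnd ℂ) (H' (3 * y' + r - (3 * z' + r))))
  have hAt : ∀ z z', A z z' = 3 * At (3 * z + r) (3 * z' + r) := by
    intro z z'
    have := W3_sum b (by omega) r (fun y => (G 2 (y + (3 * z + r)) * (starRingEnd ℂ) (G' 2 (y + (3 * z' + r)))) *
      (H (y - (3 * z + r)) * (starRingEnd ℂ) (H' (y - (3 * z' + r))))) (by
        intro t ht
        have : H (t - (3 * z + r)) = 0 := by
          refine hH3 _ fun s hs2 => ht (s + z) ?_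
          rw [eq_add_of_sub_eq hs2]
          ring
        simp only [this, zero_mul, mul_zero])
    exact this
  have e2 : S4 (3 ^ b) (Db (mf ρ) g g') = ∑ z : ZMod (3 ^ b), ∑ z' : ZMod (3 ^ b), A z z' * B z z' := by
    rw [e1, C3_nest (3 ^ b) (fun y y' z z' : ZMod (3 ^ b) =>
        ((G 0 (3 * (y + z) + r) * (starRingEnd ℂ) (G' 0 (3 * (y + z') + r))) *
          (G 1 (3 * (y - z) - r) * (starRingEnd ℂ) (G' 1 (3 * (y - z') - r)))) *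
        ((G 2 (3 * y' + r + (3 * z + r)) * (starRingEnd ℂ) (G' 2 (3 * y' + r + (3 * z' + r)))) *
          (H (3 * y' + r - (3 * z + r)) * (starRingEnd ℂ) (H' (3 * y' + r - (3 * z' + r))))))]
    have e3 : ∀ y : ZMod (3 ^ b), ∑ y' : ZMod (3 ^ b), ∑ z : ZMod (3 ^ b), ∑ z' : ZMod (3 ^ b),
        ((G 0 (3 * (y + z) + r) * (starRingEnd ℂ) (G' 0 (3 * (y + z') + r))) *
          (G 1 (3 * (y - z) - r) * (starRingEnd ℂ) (G' 1 (3 * (y - z') - r)))) *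
        ((G 2 (3 * y' + r + (3 * z + r)) * (starRingEnd ℂ) (G' 2 (3 * y' + r + (3 * z' + r)))) *
          (H (3 * y' + r - (3 * z + r)) * (starRingEnd ℂ) (H' (3 * y' + r - (3 * z' + r))))) =
        ∑ z : ZMod (3 ^ b), ∑ z' : ZMod (3 ^ b), ∑ y' : ZMod (3 ^ b),
        ((G 0 (3 * (y + z) + r) * (starRingEnd ℂ) (G' 0 (3 * (y + z') + r))) *
          (G 1 (3 * (y - z) - r) * (starRingEnd ℂ) (G' 1 (3 * (y - z') - r)))) *
        ((G 2 (3 * y' + r + (3 * z + r)) * (starRingEnd ℂ) (G' 2 (3 * y' + r + (3 * z' + r)))) *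
          (H (3 * y' + r - (3 * z + r)) * (starRingEnd ℂ) (H' (3 * y' + r - (3 * z' + r))))) := by
      intro y
      rw [Finset.sum_comm]
      exact Finset.sum_congr rfl fun z _ => Finset.sum_comm
    rw [Finset.sum_congr rfl fun y _ => e3 y, Finset.sum_comm]
    refine Finset.sum_congr rfl fun z _ => ?_
    rw [Finset.sum_comm]
    refine Finset.sum_congr rfl fun z' _ => ?_
    rw [mul_comm (A z z'), Finset.sum_mul_sum]
  have hB : ∀ z z', ‖B z z'‖ ≤ 16 * ((3 ^ b : ℕ) : ℝ) := fun z z' =>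
    e2_triv (3 ^ b) (fun t => G 0 (3 * t + r)) (fun t => G' 0 (3 * t + r)) (fun t => G 1 (3 * t - r))
      (fun t => G' 1 (3 * t - r)) (fun t => bG 0 _) (fun t => bG' 0 _) (fun t => bG 1 _) (fun t => bG' 1 _) z z'
  have hA : ∑ z, ∑ z', ‖A z z'‖ ^ 2 ≤ 36 ^ 2 * (96 * ((3 ^ b : ℕ) : ℝ) ^ 4 * (3 : ℝ) ^ (-(b / 9 : ℝ))) := by
    have a1 := e2_plus 3 b Nat.prime_three (by omega) χ hχ c hc (G 2) (G' 2) H H' hG0 hG0' hH2 hH2'
    have a2 := W3_le2 b (by omega) r (fun t t' => ‖At t t'‖ ^ 2) (fun t t' => by positivity)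
    have a3 : ∀ z z', ‖A z z'‖ ^ 2 = 9 * ‖At (3 * z + r) (3 * z' + r)‖ ^ 2 := by
      intro z z'
      rw [hAt, norm_mul, mul_pow]
      norm_num
    calc ∑ z, ∑ z', ‖A z z'‖ ^ 2 = 9 * ∑ z, ∑ z', ‖At (3 * z + r) (3 * z' + r)‖ ^ 2 := by
          rw [Finset.mul_sum]
          refine Finset.sum_congr rfl fun z _ => ?_
          rw [Finset.mul_sum]
          exact Finset.sum_congr rfl fun z' _ => a3 z z'
      _ ≤ 9 * (9 * ∑ t, ∑ t', ‖At t t'‖ ^ 2) := by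
          exact mul_le_mul_of_nonneg_left a2 (by norm_num)
      _ ≤ 9 * (9 * (4 ^ 2 * (96 * ((3 ^ b : ℕ) : ℝ) ^ 4 * ((3 : ℕ) : ℝ) ^ (-(b / 9 : ℝ))))) := by
          exact mul_le_mul_of_nonneg_left (mul_le_mul_of_nonneg_left a1 (by norm_num)) (by norm_num)
      _ = 36 ^ 2 * (96 * ((3 ^ b : ℕ) : ℝ) ^ 4 * (3 : ℝ) ^ (-(b / 9 : ℝ))) := by
          rw [Nat.cast_ofNat]
          ring
  rw [e2]
  exact W4_fin b A B hA hB

end Pool.Agent.Lib.H59V
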