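import Pool.Agent.Lib.H59V.W2
import Pool.Agent.Lib.H59V.W5
import Pool.Agent.Lib.H59V.W6

/-!
# Project H59V, chunk W7 (M): the local bounds for the mixed forms
-/

open Finset

namespace Pool.Agent.Lib.H59V

open Pool.Agent.Lib.H68T Pool.Agent.Lib.H18Q Pool.Agent.Lib.H59P Pool.Agent.Lib.H59T

/-- **Local bounds.** Proof. Compare `E7_four` (`H59T/E7.lean`). First part (`l ∣ Rm p`, `b = (Rm p).factorization l ≥ 1`):
`l ≠ 3`: `E7_attained`, `L4_char`, `L4_per`, `L4_norm`, `W2_char` (`2^10 ≤ 2^13`).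
`l = 3`, `b = 1`: trivially at most `3^4 · 2^8` (`C3_triv`, `L4_norm`), and `2^8 ≤ 2^13 3^(-1/18)`.
`l = 3`, `b ≥ 2`: if `(p 3).1.factorization 3 = b` then (`3 ∣ (p 3).1` as `b ≥ 1`) `L4_char` for `i = 3` and `W4_three`. Otherwise
`(p 3).1.factorization 3 ≤ b - 1`, so the fourth functions have period `3^(b-1)` (`L4_per` with `b - 1 ≥ 1`), and the index
`i0` of `E7_attained` is `0`, `1` (`W5_three`) or `2` (`W6_three`).
Second part (`l` does not divide `Rm p`): `lf = gl` or `1` as in `E7_four`; `l ≠ 3`: `W2_gl`, `7 l² ≤ l⁴ (2^13/l²)`;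
`l = 3`: trivially at most `3^4 · 2^8 ≤ 3^4 (2^13/9)` (`2^8 · 9 = 2304`). -/
theorem W7_loc (ρ : ℤ) : LocB (mf ρ) 13 (1 / 18) := by
  intro p hp κ κ' hκ hκ' l hl
  have hl2 : (2 : ℝ) ≤ l := by exact_mod_cast hl.two_le
  have hn : ∀ (y y' z z' : ℤ), ‖Db (mf ρ) (fun i => lf (p i) (κ i) l) (fun i => lf (p i) (κ' i) l) y y' z z'‖ ≤ 2 ^ 8 := by
    intro y y' z z'
    unfold Db
    rw [norm_prod]
    have h1 : ∀ i ∈ (univ : Finset (Fin 4)), ‖lf (p i) (κ i) l (mf ρ i y y' z) *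
        (starRingEnd ℂ) (lf (p i) (κ' i) l (mf ρ i y y' z'))‖ ≤ 4 := by
      intro i _
      rw [norm_mul, RCLike.norm_conj]
      have h2 := L4_norm (p i) (κ i) l hl (mf ρ i y y' z)
      have h3 := L4_norm (p i) (κ' i) l hl (mf ρ i y y' z')
      nlinarith [norm_nonneg (lf (p i) (κ i) l (mf ρ i y y' z)), norm_nonneg (lf (p i) (κ' i) l (mf ρ i y y' z'))]
    refine (Finset.prod_le_prod (fun i _ => norm_nonneg _) h1).trans ?_
    rw [Finset.prod_const, Finset.card_univ, Fintype.card_fin]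
    norm_num
  refine ⟨fun hd => ?_, fun hd hex => ?_⟩
  · obtain ⟨h1, h2, i0, h3, h4⟩ := E7_attained p hp l hl hd
    have hch := L4_char (p i0) (hp i0).1 (hp i0).2 l hl h4
    rw [h3] at hch
    obtain ⟨χ, hχ, hlf⟩ := hch
    have hc : |(l : ℝ) / ((l : ℝ) - 1)| ≤ 2 := by
      rw [abs_of_nonneg (by apply div_nonneg <;> linarith), div_le_iff₀ (by linarith)]
      linarith
    have hper : ∀ (K : Fin 4 → ℕ) (i : Fin 4) (m : ℤ),
        lf (p i) (K i) l (m + ((l ^ (Rm p).factorization l : ℕ) : ℤ)) = lf (p i) (K i) l m := by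
      intro K i m
      have := L4_per (p i) (hp i).1 (hp i).2 (K i) l ((Rm p).factorization l) hl h1 (h2 i) m 1
      rw [mul_one] at this
      rw [← this]
      push_cast
      rfl
    by_cases hl3 : l = 3
    · subst hl3
      generalize hbdef : (Rm p).factorization 3 = b at *
      by_cases hb1 : b = 1
      · subst hb1
        refine (C3_triv _ _ _ hn).trans ?_
        refine mul_le_mul_of_nonneg_left ?_ (by positivity)
        have h5 : (3 : ℝ) ^ (-1 : ℝ) ≤ (3 : ℝ) ^ (-(1 / 18 : ℝ)) :=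
          Real.rpow_le_rpow_of_exponent_le (by norm_num) (by norm_num)
        rw [Real.rpow_neg_one] at h5
        have h6 : (((3 ^ 1 : ℕ) : ℝ)) = 3 := by norm_num
        rw [h6]
        have h7 : (2 : ℝ) ^ 13 * (3 : ℝ)⁻¹ ≤ 2 ^ 13 * (3 : ℝ) ^ (-(1 / 18 : ℝ)) :=
          mul_le_mul_of_nonneg_left h5 (by positivity)
        refine le_trans ?_ h7
        norm_num
      · have hb2 : 2 ≤ b := by omega
        by_cases h33 : (p 3).1.factorization 3 = b
        · have hd3 : 3 ∣ (p 3).1 := by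
            rw [hl.dvd_iff_one_le_factorization (hp 3).1.ne', h33]
            exact h1
          have hch3 := L4_char (p 3) (hp 3).1 (hp 3).2 3 hl hd3
          rw [h33] at hch3
          obtain ⟨χ3, hχ3, hlf3⟩ := hch3
          exact W4_three b h1 ρ χ3 hχ3 _ hc (fun i => lf (p i) (κ i) 3) (fun i => lf (p i) (κ' i) 3)
            (fun i m => hper κ i m) (fun i m => hper κ' i m) (fun i m => L4_norm _ _ _ hl m) (fun i m => L4_norm _ _ _ hl m)
            (fun m => hlf3 (κ 3) m) (fun m => hlf3 (κ' 3) m)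
        · have h34 : (p 3).1.factorization 3 ≤ b - 1 := by
            have := h2 3
            omega
          have hq : ∀ (K : Fin 4 → ℕ) (m : ℤ),
              lf (p 3) (K 3) 3 (m + ((3 ^ (b - 1) : ℕ) : ℤ)) = lf (p 3) (K 3) 3 m := by
            intro K m
            have := L4_per (p 3) (hp 3).1 (hp 3).2 (K 3) 3 (b - 1) hl (by omega) h34 m 1
            rw [mul_one] at this
            rw [← this]
            push_cast
            rfl
          have hcase : i0 = 0 ∨ i0 = 1 ∨ i0 = 2 ∨ i0 = 3 := by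
            fin_cases i0 <;> simp
          rcases hcase with h5 | h5 | h5 | h5
          · exact W5_three b h1 ρ χ hχ _ hc (fun i => lf (p i) (κ i) 3) (fun i => lf (p i) (κ' i) 3)
              (fun i m => hper κ i m) (fun i m => hper κ' i m) (fun i m => L4_norm _ _ _ hl m) (fun i m => L4_norm _ _ _ hl m)
              i0 (Or.inl h5) (fun m => hlf (κ i0) m) (fun m => hlf (κ' i0) m)
          · exact W5_three b h1 ρ χ hχ _ hc (fun i => lf (p i) (κ i) 3) (fun i => lf (p i) (κ' i) 3)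
              (fun i m => hper κ i m) (fun i m => hper κ' i m) (fun i m => L4_norm _ _ _ hl m) (fun i m => L4_norm _ _ _ hl m)
              i0 (Or.inr h5) (fun m => hlf (κ i0) m) (fun m => hlf (κ' i0) m)
          · subst h5
            exact W6_three b hb2 ρ χ hχ _ hc (fun i => lf (p i) (κ i) 3) (fun i => lf (p i) (κ' i) 3)
              (fun i m => hper κ i m) (fun i m => hper κ' i m) (fun m => hq κ m) (fun m => hq κ' m)
              (fun i m => L4_norm _ _ _ hl m) (fun i m => L4_norm _ _ _ hl m)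
              (fun m => hlf (κ 2) m) (fun m => hlf (κ' 2) m)
          · subst h5
            exact absurd h3 h33
    · refine (W2_char l ((Rm p).factorization l) hl hl3 h1 ρ χ hχ _ hc (fun i => lf (p i) (κ i) l) (fun i => lf (p i) (κ' i) l)
        (fun i m => hper κ i m) (fun i m => hper κ' i m) (fun i m => L4_norm _ _ _ hl m) (fun i m => L4_norm _ _ _ hl m) i0
        (fun m => hlf (κ i0) m) (fun m => hlf (κ' i0) m)).trans ?_
      refine mul_le_mul_of_nonneg_left ?_ (by positivity)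
      refine mul_le_mul_of_nonneg_right ?_ (by positivity)
      norm_num
  · by_cases hl3 : l = 3
    · subst hl3
      refine (C3_triv _ _ _ hn).trans ?_
      refine mul_le_mul_of_nonneg_left ?_ (by positivity)
      norm_num
    · have hnd : ∀ i, ¬ l ∣ (p i).1 := fun i h => hd (h.trans (Finset.dvd_lcm (Finset.mem_univ i)))
      have hg : ∀ (K : Fin 4 → ℕ), (fun i => lf (p i) (K i) l) =
          (fun i (m : ℤ) => if l ∣ K i then ((gl l m : ℝ) : ℂ) else 1) := by
        intro K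
        funext i m
        unfold lf
        rw [if_neg (hnd i)]
      rw [hg κ, hg κ']
      have h5 := W2_gl l hl hl3 ρ (fun i => l ∣ κ i) (fun i => l ∣ κ' i) hex
      refine h5.trans ?_
      have h6 : (l : ℝ) ^ 4 * (2 ^ 13 / (l : ℝ) ^ 2) = 2 ^ 13 * (l : ℝ) ^ 2 := by
        have : (l : ℝ) ≠ 0 := by positivity
        field_simp
      rw [h6]
      have h7 : 0 ≤ (l : ℝ) ^ 2 := by positivity
      nlinarith

/-- Proof. As `E7_cp`: differences of the values are multiples of `q`. -/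
theorem W7_cp (ρ : ℤ) : CpF (mf ρ) := by
  intro i q y y' z
  fin_cases i
  · show q ∣ (3 * (y + q) + 3 * z + ρ) - (3 * y + 3 * z + ρ) ∧ q ∣ (3 * y + 3 * z + ρ) - (3 * y + 3 * z + ρ) ∧
      q ∣ (3 * y + 3 * (z + q) + ρ) - (3 * y + 3 * z + ρ)
    exact ⟨⟨3, by ring⟩, ⟨0, by ring⟩, ⟨3, by ring⟩⟩
  · show q ∣ (3 * (y + q) - 3 * z - ρ) - (3 * y - 3 * z - ρ) ∧ q ∣ (3 * y - 3 * z - ρ) - (3 * y - 3 * z - ρ) ∧
      q ∣ (3 * y - 3 * (z + q) - ρ) - (3 * y - 3 * z - ρ)
    exact ⟨⟨3, by ring⟩, ⟨0, by ring⟩, ⟨-3, by ring⟩⟩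
  · show q ∣ (3 * y' + 3 * z + 2 * ρ) - (3 * y' + 3 * z + 2 * ρ) ∧ q ∣ (3 * (y' + q) + 3 * z + 2 * ρ) - (3 * y' + 3 * z + 2 * ρ) ∧
      q ∣ (3 * y' + 3 * (z + q) + 2 * ρ) - (3 * y' + 3 * z + 2 * ρ)
    exact ⟨⟨0, by ring⟩, ⟨3, by ring⟩, ⟨3, by ring⟩⟩
  · show q ∣ (y' - z) - (y' - z) ∧ q ∣ ((y' + q) - z) - (y' - z) ∧ q ∣ (y' - (z + q)) - (y' - z)
    exact ⟨⟨0, by ring⟩, ⟨1, by ring⟩, ⟨-1, by ring⟩⟩

end Pool.Agent.Lib.H59V
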