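import Pool.Agent.Lib.H59T.F3
import Pool.Agent.Lib.H59T.E7

/-!
# Project H59V: the mixed forms

`x = 3 y`, `x' = 3 y' + ρ`, common neighbour `3 z + ρ`: the forms `x ± (3z + ρ)`, `x' + (3z + ρ)`, `(x' - (3z + ρ))/3`.
-/

open Finset

namespace Pool.Agent.Lib.H59V

open Pool.Agent.Lib.H68T Pool.Agent.Lib.H18Q Pool.Agent.Lib.H59P Pool.Agent.Lib.H59T

noncomputable section

/-- The forms `3y + 3z + ρ`, `3y - 3z - ρ`, `3y' + 3z + 2ρ`, `y' - z`. -/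
def mf (ρ : ℤ) : Fm 4 := ![fun y _ z => 3 * y + 3 * z + ρ, fun y _ z => 3 * y - 3 * z - ρ,
  fun _ y' z => 3 * y' + 3 * z + 2 * ρ, fun _ y' z => y' - z]

/-- The functions `g 0, g 1, g 2` and `m ↦ g 3 (e m)`. -/
def sc3 (e : ℤ) (g : Fin 4 → ℤ → ℂ) : Fin 4 → ℤ → ℂ := ![g 0, g 1, g 2, fun m => g 3 (e * m)]

end

end Pool.Agent.Lib.H59V
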