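import Pool.Agent.Lib.H59V.W7
import Pool.Agent.Lib.H59V.M0
import Pool.Agent.Lib.H59T.F6

/-!
# Project H59V, chunk X1 (S/M): the property FG for the mixed forms
-/

open Finset

namespace Pool.Agent.Lib.H59V

open Pool.Agent.Lib.H68T Pool.Agent.Lib.H18Q Pool.Agent.Lib.H59P Pool.Agent.Lib.H24P
  Pool.Agent.Lib.H24Q Pool.Agent.Lib.H59T

/-- **FG.** Proof. As `F4_four` (`H59T/F4.lean`) and `F6_FG` (`H59T/F6.lean`): `F3_gen 4 13 (1/18)` with `W7_cp ρ`, `W7_loc ρ`;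
`f6_two`, `f6_card2`, `f6_log`; `(LM ρ).map ![x, x'] i n = mf ρ i x x' n` for `i = 0, 1, 2, 3` (`Fin.prod_univ_four` or
`fin_cases i`, `push_cast`, `ring`). -/
theorem X1_FG (ρ : ℤ) : ∃ C : ℝ, 1 ≤ C ∧ ∀ Q : ℕ, 2 ≤ Q → ∀ b s : Fin 2 → ℕ, (∀ j, Q ^ 40 ≤ s j) →
    FG C (1 / 36) Q (Q ^ 40) (cub b s) (LM ρ).map := by
  obtain ⟨C0, hC0, h0⟩ := F3_gen 4 13 (1 / 18) (by norm_num) (by norm_num)
  have h := h0 (mf ρ) (W7_cp ρ) (W7_loc ρ)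
  refine ⟨max 1 C0, le_max_left _ _, ?_⟩
  intro Q hQ b s hs p hp T hT D hD hTD a H hH
  have h1 := h Q D hD p hp T hT hTD (b 0) (b 1) a (s 0) (s 1) H (hs 0) (hs 1) hH
  have e0 : -(1 / 18 / 2 : ℝ) = -(1 / 36 : ℝ) := by norm_num
  rw [e0] at h1
  rw [f6_two, f6_card2]
  have e1 : ∑ x ∈ Ico (b 0) (b 0 + s 0), ∑ x' ∈ Ico (b 1) (b 1 + s 1),
      ‖∑ n ∈ Ico a (a + H), ∑ κ ∈ T, ∏ i, gk (p i) (κ i) ((LM ρ).map ![x, x'] i (n : ℤ))‖ ^ 2 =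
      ∑ y ∈ Ico (b 0) (b 0 + s 0), ∑ y' ∈ Ico (b 1) (b 1 + s 1), ‖∑ z ∈ Ico a (a + H), ∑ κ ∈ T,
      ∏ i, gk (p i) (κ i) (mf ρ i (y : ℤ) (y' : ℤ) (z : ℤ))‖ ^ 2 := by
    refine sum_congr rfl fun x _ => sum_congr rfl fun x' _ => ?_
    have e2 : ∀ (n : ℕ) (i : Fin 4), (LM ρ).map ![x, x'] i (n : ℤ) =
        mf ρ i (x : ℤ) (x' : ℤ) (n : ℤ) := by
      intro n i
      fin_cases i <;> simp [LF.map, LM, mf] <;> ring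
    simp only [e2]
  rw [e1]
  refine h1.trans ?_
  have h2 := f6_log C0 Q hQ (((s 0 : ℝ) * s 1 * H ^ 2) * (D : ℝ) ^ (-(1 / 36 : ℝ))) (by positivity)
  calc _ = C0 * (((s 0 : ℝ) * s 1 * H ^ 2) * (D : ℝ) ^ (-(1 / 36 : ℝ))) := by ring
    _ ≤ _ := h2
    _ = _ := by ring

end Pool.Agent.Lib.H59V
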