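import Pool.Agent.Lib.H59V.M0
import Pool.Agent.Lib.H24Q.D0

/-!
# Project H59V, chunk X2 (S/M): local factors and fixed divisors of the mixed forms
-/

open Finset

namespace Pool.Agent.Lib.H59V

open Pool.Agent.Lib.H68T Pool.Agent.Lib.H18Q Pool.Agent.Lib.H59P Pool.Agent.Lib.H24P
  Pool.Agent.Lib.H24Q

theorem x2_map (ρ : ℤ) (ω : Fin 2 → ℕ) :
    (∀ n : ℤ, (LM ρ).map ω 0 n = 3 * (ω 0 : ℤ) + 3 * n + ρ) ∧ (∀ n : ℤ, (LM ρ).map ω 1 n = 3 * (ω 0 : ℤ) - 3 * n - ρ) ∧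
      (∀ n : ℤ, (LM ρ).map ω 2 n = 3 * (ω 1 : ℤ) + 3 * n + 2 * ρ) ∧ (∀ n : ℤ, (LM ρ).map ω 3 n = (ω 1 : ℤ) - n) := by
  refine ⟨fun n => ?_, fun n => ?_, fun n => ?_, fun n => ?_⟩
  · show (3 : ℤ) * (ω 0 : ℤ) + 3 * n + ρ = _
    ring
  · show (3 : ℤ) * (ω 0 : ℤ) + (-3) * n + (-ρ) = _
    ring
  · show (3 : ℤ) * (ω 1 : ℤ) + 3 * n + 2 * ρ = _
    ring
  · show (1 : ℤ) * (ω 1 : ℤ) + (-1) * n + 0 = _
    ring

theorem x2_lin (l : ℕ) (hl : l.Prime) (f : ℤ → ℤ) (v w : ℤ) (hf : ∀ n, f n = v * n + w) (hv : ¬ (l : ℤ) ∣ v) :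
    ((range l).filter (fun n : ℕ => (l : ℤ) ∣ f n)).card ≤ 1 := by
  rw [Finset.card_le_one]
  intro a ha b hb
  obtain ⟨ha1, ha2⟩ := mem_filter.1 ha
  obtain ⟨hb1, hb2⟩ := mem_filter.1 hb
  rw [hf] at ha2 hb2
  refine d0_eq l a b (mem_range.1 ha1) (mem_range.1 hb1) ?_
  have h3 := dvd_sub ha2 hb2
  have h4 : (v * (a : ℤ) + w) - (v * (b : ℤ) + w) = v * ((a : ℤ) - b) := by ring
  rw [h4] at h3
  exact ((Nat.prime_iff_prime_int.1 hl).dvd_or_dvd h3).resolve_left hv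

theorem x2_free {m : ℕ} (φ : Fin m → ℤ → ℤ) (l : ℕ) (hm : m < l)
    (h : ∀ i, ((range l).filter (fun n : ℕ => (l : ℤ) ∣ φ i n)).card ≤ 1) :
    ∃ n : ℤ, ∀ i, ¬ (l : ℤ) ∣ φ i n := by
  classical
  have h1 : (univ.biUnion (fun i : Fin m => (range l).filter
      (fun n : ℕ => (l : ℤ) ∣ φ i n))).card ≤ m := by
    refine card_biUnion_le.trans ?_
    calc ∑ i : Fin m, ((range l).filter (fun n : ℕ => (l : ℤ) ∣ φ i n)).card
        ≤ ∑ _i : Fin m, 1 := Finset.sum_le_sum fun i _ => h i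
      _ = m := by
          rw [Finset.sum_const, card_univ, Fintype.card_fin, smul_eq_mul, mul_one]
  have h2 : ∃ n ∈ range l, n ∉ univ.biUnion (fun i : Fin m => (range l).filter
      (fun n : ℕ => (l : ℤ) ∣ φ i n)) := by
    by_contra hc
    push Not at hc
    have h3 := card_le_card (show range l ⊆ _ from hc)
    rw [card_range] at h3
    omega
  obtain ⟨n, hn, hn2⟩ := h2
  refine ⟨(n : ℤ), fun i hi => hn2 ?_⟩
  exact mem_biUnion.2 ⟨i, mem_univ i, mem_filter.2 ⟨hn, hi⟩⟩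

/-- Proof. `i = 3`: `ω 1 - n`, one class. `i = 0, 1, 2`: `± 3 n + w`: for `l ≠ 3` one class (if `l ∣ 3 (n - n')` then
`l ∣ n - n'`, `d0_eq` of `H24Q/D0.lean`), for `l = 3` the value is `≡ ρ, -ρ, 2ρ` modulo `3`, not divisible by `3`. -/
theorem X2_one (ρ : ℤ) (hρ : ¬ (3:ℤ) ∣ ρ) (ω : Fin 2 → ℕ) (i : Fin 4) (l : ℕ) (hl : l.Prime) :
    ((range l).filter (fun n : ℕ => (l : ℤ) ∣ (LM ρ).map ω i n)).card ≤ 1 := by
  obtain ⟨e0, e1, e2, e3⟩ := x2_map ρ ω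
  have h3 : (∃ v w : ℤ, (v = 3 ∨ v = -3) ∧ ¬ (3:ℤ) ∣ w ∧ ∀ n, (LM ρ).map ω i n = v * n + w) →
      ((range l).filter (fun n : ℕ => (l : ℤ) ∣ (LM ρ).map ω i n)).card ≤ 1 := by
    rintro ⟨v, w, hv, hw, hfv⟩
    by_cases hl3 : l = 3
    · subst hl3
      have h4 : (range 3).filter (fun n : ℕ => ((3 : ℕ) : ℤ) ∣ (LM ρ).map ω i n) = ∅ := by
        refine Finset.filter_eq_empty_iff.2 fun n _ hn => ?_
        rw [hfv] at hn
        rcases hv with rfl | rfl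
        · omega
        · omega
      rw [h4, Finset.card_empty]
      exact Nat.zero_le _
    · refine x2_lin l hl _ v w hfv fun hd => hl3 ?_
      have h5 : (l : ℤ) ∣ ((3 : ℕ) : ℤ) := by
        rcases hv with rfl | rfl
        · exact_mod_cast hd
        · have h6 : (l : ℤ) ∣ 3 := (dvd_neg).1 hd
          exact_mod_cast h6
      exact (Nat.prime_dvd_prime_iff_eq hl Nat.prime_three).1 (Int.natCast_dvd_natCast.1 h5)
  have hcase : i = 0 ∨ i = 1 ∨ i = 2 ∨ i = 3 := by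
    fin_cases i <;> simp
  rcases hcase with rfl | rfl | rfl | rfl
  · exact h3 ⟨3, 3 * (ω 0 : ℤ) + ρ, Or.inl rfl, by omega, fun n => by rw [e0]; ring⟩
  · exact h3 ⟨-3, 3 * (ω 0 : ℤ) - ρ, Or.inr rfl, by omega, fun n => by rw [e1]; ring⟩
  · exact h3 ⟨3, 3 * (ω 1 : ℤ) + 2 * ρ, Or.inl rfl, by omega, fun n => by rw [e2]; ring⟩
  · refine x2_lin l hl _ (-1) (ω 1 : ℤ) (fun n => by rw [e3]; ring) fun hd => ?_
    have h5 : (l : ℤ) ∣ ((1 : ℕ) : ℤ) := by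
      have h6 : (l : ℤ) ∣ 1 := (dvd_neg).1 hd
      exact_mod_cast h6
    exact hl.one_lt.ne' (Nat.dvd_one.1 (Int.natCast_dvd_natCast.1 h5))

/-- Proof. `D0_tp 4`, `D0_cp`, `X2_one` (compare `D0_fb4`). -/
theorem X2_fb (ρ : ℤ) (hρ : ¬ (3:ℤ) ∣ ρ) : ∃ C : ℝ, 1 ≤ C ∧ ∀ S : Finset (Fin 2 → ℕ), FB C S (LM ρ).map := by
  obtain ⟨C, hC, h⟩ := D0_tp 4
  exact ⟨C, hC, fun S => ⟨fun ω _ => D0_cp (LM ρ) ω, fun ω _ l hl => h _ (fun i l hl => X2_one ρ hρ ω i l hl) l hl⟩⟩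

/-- Proof. Let `l` be a prime. `l = 2`: the forms are modulo `2` congruent to `ω 0 + n + ρ`, `ω 0 + n + ρ`, `ω 1 + n`,
`ω 1 + n`; by hypothesis `ω 0 ≡ ω 1 + ρ`, so `n = ω 1 + 1` works. `l = 3`: the first three forms are never divisible by `3`,
`n = ω 1 + 1`. `l ≥ 5`: each form is divisible by `l` for at most one `n < l` (`X2_one`), so some `n < l` is left
(count; compare `d5_free` in `H24Q/D5.lean`). -/
theorem X2_fix (ρ : ℤ) (hρ : ¬ (3:ℤ) ∣ ρ) (ω : Fin 2 → ℕ) (h2 : (2:ℤ) ∣ (ω 0 : ℤ) - ω 1 - ρ) :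
    NoFix ((LM ρ).map ω) := by
  intro l hl
  rcases Nat.lt_or_ge l 5 with h5 | h5
  · have h6 : l = 2 ∨ l = 3 := by
      have := hl.two_le
      interval_cases l
      · exact Or.inl rfl
      · exact Or.inr rfl
      · exact absurd hl (by norm_num)
    obtain ⟨e0, e1, e2, e3⟩ := x2_map ρ ω
    refine ⟨(ω 1 : ℤ) + 1, fun i => ?_⟩
    have hcase : i = 0 ∨ i = 1 ∨ i = 2 ∨ i = 3 := by
      fin_cases i <;> simp
    rcases h6 with rfl | rfl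
    · rcases hcase with rfl | rfl | rfl | rfl
      · rw [e0]; omega
      · rw [e1]; omega
      · rw [e2]; omega
      · rw [e3]; omega
    · rcases hcase with rfl | rfl | rfl | rfl
      · rw [e0]; omega
      · rw [e1]; omega
      · rw [e2]; omega
      · rw [e3]; omega
  · exact x2_free _ l (by omega) fun i => X2_one ρ hρ ω i l hl

end Pool.Agent.Lib.H59V
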