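import Pool.Agent.Lib.H59V.M0

/-!
# Project H59V, chunk X3 (S/M): geometry of the mixed forms
-/

open Finset

namespace Pool.Agent.Lib.H59V

open Pool.Agent.Lib.H68T Pool.Agent.Lib.H18Q Pool.Agent.Lib.H59P Pool.Agent.Lib.H24P
  Pool.Agent.Lib.H24Q

theorem x3_LM (ρ : ℤ) (ω : Fin 2 → ℕ) (n : ℤ) :
    (LM ρ).map ω 0 n = 3 * (ω 0 : ℤ) + 3 * n + ρ ∧
    (LM ρ).map ω 1 n = 3 * (ω 0 : ℤ) - 3 * n - ρ ∧
    (LM ρ).map ω 2 n = 3 * (ω 1 : ℤ) + 3 * n + 2 * ρ ∧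
    (LM ρ).map ω 3 n = (ω 1 : ℤ) - n := by
  refine ⟨?_, ?_, ?_, ?_⟩
  · show (3 : ℤ) * (ω 0 : ℤ) + 3 * n + ρ = _
    ring
  · show (3 : ℤ) * (ω 0 : ℤ) + (-3) * n + (-ρ) = _
    ring
  · show (3 : ℤ) * (ω 1 : ℤ) + 3 * n + 2 * ρ = _
    ring
  · show (1 : ℤ) * (ω 1 : ℤ) + (-1) * n + 0 = _
    ring

theorem x3_sq (N z a : ℕ) (h1 : N ≤ z ^ 2) (h2 : z ≤ a) : N ≤ a ^ 2 :=
  h1.trans (Nat.pow_le_pow_left h2 2)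

theorem x3_dvd (Q m : ℕ) (h : 3 * Q ^ 40 ∣ m) : Q ^ 40 ∣ m / 3 ∧ 3 * (m / 3) = m := by
  obtain ⟨c, hc⟩ := h
  have h1 : m / 3 = Q ^ 40 * c := by
    rw [hc, mul_assoc, Nat.mul_div_cancel_left _ (by norm_num)]
  refine ⟨⟨c, h1⟩, ?_⟩
  rw [h1, hc, mul_assoc]

/-- **Geometry.** Proof. As `D5_Gm4` (`H24Q/D5.lean`). Write `Z = 3 z`, `X = 3 a`, `X' = 3 a'` (`Q^40` divides `z`, `a`, `a'`); `N ≤ z²`
from `9 N ≤ 9 z²`, `2 z ≤ a`, `2 z ≤ a'`. For `s ∈ [2a, 3a)`, `s' ∈ [2a', 3a')`, `n ∈ [z, 2z)`: `3n + ρ ≤ 2Z - 1 < X`, so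
`X ≤ 3s ± (3n + ρ) < 4X`; `X' ≤ 3s' + 3n + 2ρ ≤ 3X' - 3 + 2Z - 3 + 4 < 4X'`; `a' ≤ s' - n < 4a'`. Coefficients:
`3 a = X`, `3 z = Z ≤ X`, etc. (`fin_cases` on the indices, `omega`, `nlinarith` for the squares.) -/
theorem X3_Gq (ρ : ℤ) (hρ : ρ = 1 ∨ ρ = 2) (Q N Z X X' : ℕ) (hZ : 3 * Q ^ 40 ∣ Z) (hX : 3 * Q ^ 40 ∣ X)
    (hX' : 3 * Q ^ 40 ∣ X') (h1 : 9 * N ≤ Z ^ 2) (h2 : 2 * Z ≤ X) (h3 : 2 * Z ≤ X') (h4 : X ≤ N)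
    (h5 : X' ≤ N) : Gq (LM ρ) Q N (Z / 3) ![X / 3, X' / 3] ![X, X, X', X' / 3] := by
  obtain ⟨dZ, eZ⟩ := x3_dvd Q Z hZ
  obtain ⟨dX, eX⟩ := x3_dvd Q X hX
  obtain ⟨dX', eX'⟩ := x3_dvd Q X' hX'
  obtain ⟨z, hz⟩ : ∃ z, z = Z / 3 := ⟨_, rfl⟩
  obtain ⟨a, ha⟩ : ∃ a, a = X / 3 := ⟨_, rfl⟩
  obtain ⟨a', ha'⟩ : ∃ a', a' = X' / 3 := ⟨_, rfl⟩
  rw [← hz] at dZ eZ
  rw [← ha] at dX eX
  rw [← ha'] at dX' eX'
  rw [← hz, ← ha, ← ha']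
  clear hz ha ha' hZ hX hX'
  subst eZ eX eX'
  have k1 : N ≤ z ^ 2 := by nlinarith
  have k2 : 2 * z ≤ a := by omega
  have k3 : 2 * z ≤ a' := by omega
  have ka : N ≤ a ^ 2 := x3_sq N z a k1 (by omega)
  have ka' : N ≤ a' ^ 2 := x3_sq N z a' k1 (by omega)
  have kX : N ≤ (3 * a) ^ 2 := x3_sq N z (3 * a) k1 (by omega)
  have kX' : N ≤ (3 * a') ^ 2 := x3_sq N z (3 * a') k1 (by omega)
  have hNN : N ≤ N ^ 2 := Nat.le_self_pow (by norm_num) N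
  have hρ0 : 0 ≤ ρ ∧ ρ ≤ 2 := by rcases hρ with rfl | rfl <;> omega
  refine ⟨dZ, ?_, k1, by omega, ?_, ?_, ?_, ?_, ?_, ?_, ?_, ?_⟩
  · intro j
    fin_cases j
    · exact dX
    · exact dX'
  · intro j
    fin_cases j
    · exact ka
    · exact ka'
  · intro j
    fin_cases j
    · show a ≤ N
      omega
    · show a' ≤ N
      omega
  · intro i
    fin_cases i
    · exact kX
    · exact kX
    · exact kX'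
    · exact ka'
  · intro i
    fin_cases i
    · exact h4.trans hNN
    · exact h4.trans hNN
    · exact h5.trans hNN
    · show a' ≤ N ^ 2
      omega
  · intro i
    fin_cases i
    · show |(3 : ℤ)| * ((a : ℕ) : ℤ) ≤ 4 * ((3 * a : ℕ) : ℤ)
      rw [abs_of_pos (by norm_num)]
      omega
    · show |(3 : ℤ)| * ((a : ℕ) : ℤ) ≤ 4 * ((3 * a : ℕ) : ℤ)
      rw [abs_of_pos (by norm_num)]
      omega
    · show |(3 : ℤ)| * ((a' : ℕ) : ℤ) ≤ 4 * ((3 * a' : ℕ) : ℤ)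
      rw [abs_of_pos (by norm_num)]
      omega
    · show |(1 : ℤ)| * ((a' : ℕ) : ℤ) ≤ 4 * ((a' : ℕ) : ℤ)
      rw [abs_one]
      omega
  · intro i
    fin_cases i
    · show |(3 : ℤ)| * ((z : ℕ) : ℤ) ≤ 4 * ((3 * a : ℕ) : ℤ)
      rw [abs_of_pos (by norm_num)]
      omega
    · show |(-3 : ℤ)| * ((z : ℕ) : ℤ) ≤ 4 * ((3 * a : ℕ) : ℤ)
      rw [abs_neg, abs_of_pos (by norm_num)]
      omega
    · show |(3 : ℤ)| * ((z : ℕ) : ℤ) ≤ 4 * ((3 * a' : ℕ) : ℤ)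
      rw [abs_of_pos (by norm_num)]
      omega
    · show |(-1 : ℤ)| * ((z : ℕ) : ℤ) ≤ 4 * ((a' : ℕ) : ℤ)
      rw [abs_neg, abs_one]
      omega
  · intro i ω hω n hn
    have w0 := mem_Ico.1 (Fintype.mem_piFinset.1 hω 0)
    have w1 := mem_Ico.1 (Fintype.mem_piFinset.1 hω 1)
    have hn' := mem_Ico.1 hn
    have w0' : 2 * a ≤ ω 0 ∧ ω 0 < 2 * a + a := w0
    have w1' : 2 * a' ≤ ω 1 ∧ ω 1 < 2 * a' + a' := w1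
    obtain ⟨a0, a1, a2, a3⟩ := x3_LM ρ ω (n : ℤ)
    fin_cases i
    · show ((3 * a : ℕ) : ℤ) ≤ (LM ρ).map ω 0 (n : ℤ)
      rw [a0]
      push_cast
      omega
    · show ((3 * a : ℕ) : ℤ) ≤ (LM ρ).map ω 1 (n : ℤ)
      rw [a1]
      push_cast
      omega
    · show ((3 * a' : ℕ) : ℤ) ≤ (LM ρ).map ω 2 (n : ℤ)
      rw [a2]
      push_cast
      omega
    · show ((a' : ℕ) : ℤ) ≤ (LM ρ).map ω 3 (n : ℤ)
      rw [a3]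
      omega
  · intro i ω hω n hn
    have w0 := mem_Ico.1 (Fintype.mem_piFinset.1 hω 0)
    have w1 := mem_Ico.1 (Fintype.mem_piFinset.1 hω 1)
    have hn' := mem_Ico.1 hn
    have w0' : 2 * a ≤ ω 0 ∧ ω 0 < 2 * a + a := w0
    have w1' : 2 * a' ≤ ω 1 ∧ ω 1 < 2 * a' + a' := w1
    obtain ⟨a0, a1, a2, a3⟩ := x3_LM ρ ω (n : ℤ)
    fin_cases i
    · show (LM ρ).map ω 0 (n : ℤ) < 4 * ((3 * a : ℕ) : ℤ)
      rw [a0]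
      push_cast
      omega
    · show (LM ρ).map ω 1 (n : ℤ) < 4 * ((3 * a : ℕ) : ℤ)
      rw [a1]
      push_cast
      omega
    · show (LM ρ).map ω 2 (n : ℤ) < 4 * ((3 * a' : ℕ) : ℤ)
      rw [a2]
      push_cast
      omega
    · show (LM ρ).map ω 3 (n : ℤ) < 4 * ((a' : ℕ) : ℤ)
      rw [a3]
      omega

end Pool.Agent.Lib.H59V
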