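import Pool.Agent.Lib.H59V.X2
import Pool.Agent.Lib.H59V.X3

/-!
# Project H59V, chunk X4 (M): the mixed correlations as sums MF
-/

open Finset

namespace Pool.Agent.Lib.H59V

open Pool.Agent.Lib.H68T Pool.Agent.Lib.H18Q Pool.Agent.Lib.H59P Pool.Agent.Lib.H24P
  Pool.Agent.Lib.H24Q

/-- Proof. `x = 3 s`, `x' = 3 s' + r`, `Z = 3 z`. `KC Q X' x' y = 0` unless `y ≡ r` modulo `3`; the `y ∈ [Z, 2Z)` with
`y % 3 = r` are the numbers `3 n + r`, `n ∈ [z, 2z)` (`Finset.sum_nbij'` with `y ↦ y / 3` after restriction to the filter). For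
`y = 3 n + r`: `x + y = 3s + 3n + r`, `x - y = 3s - 3n - r`, `x' + y = 3s' + 3n + 2r`, `(x' - y)/3 = s' - n`: the four
factors of `MF` (`Fin.prod_univ_four`, definitions of `KL`, `KC`, `LM`, `LF.map`). -/
theorem X4_MF (r : ℕ) (hr : r = 1 ∨ r = 2) (Q Z X X' s s' : ℕ) (hZ : 3 ∣ Z) :
    ∑ y ∈ Ico Z (2 * Z), KL Q X (3 * s) y * KC Q X' (3 * s' + r) y =
      MF (LM r) Q (Z / 3) ![X, X, X', X' / 3] ![s, s'] := by
  classical
  obtain ⟨z, rfl⟩ := hZ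
  have hz : 3 * z / 3 = z := by omega
  rw [hz]
  have hsub : (Ico z (2 * z)).image (fun n => 3 * n + r) ⊆ Ico (3 * z) (2 * (3 * z)) := by
    intro y hy
    obtain ⟨n, hn, rfl⟩ := mem_image.1 hy
    rw [mem_Ico] at hn ⊢
    rcases hr with rfl | rfl <;> constructor <;> omega
  rw [← Finset.sum_subset hsub, Finset.sum_image]
  · unfold MF
    refine Finset.sum_congr rfl fun n _ => ?_
    rw [Fin.prod_univ_four]
    have h3 : (3:ℤ) ∣ ((3 * s' + r : ℕ) : ℤ) - ((3 * n + r : ℕ) : ℤ) := ⟨(s' : ℤ) - n, by push_cast; ring⟩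
    have h4 : (((3 * s' + r : ℕ) : ℤ) - ((3 * n + r : ℕ) : ℤ)) / 3 = (s' : ℤ) - n := by
      rw [show ((3 * s' + r : ℕ) : ℤ) - ((3 * n + r : ℕ) : ℤ) = 3 * ((s' : ℤ) - n) by push_cast; ring]
      exact Int.mul_ediv_cancel_left _ (by norm_num)
    have m0 : (LM r).map ![s, s'] 0 n = ((3 * s : ℕ) : ℤ) + ((3 * n + r : ℕ) : ℤ) := by
      change (3:ℤ) * (s : ℤ) + 3 * n + (r : ℤ) = _
      push_cast; ring
    have m1 : (LM r).map ![s, s'] 1 n = ((3 * s : ℕ) : ℤ) - ((3 * n + r : ℕ) : ℤ) := by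
      change (3:ℤ) * (s : ℤ) + (-3) * n + (-(r : ℤ)) = _
      push_cast; ring
    have m2 : (LM r).map ![s, s'] 2 n = ((3 * s' + r : ℕ) : ℤ) + ((3 * n + r : ℕ) : ℤ) := by
      change (3:ℤ) * (s' : ℤ) + 3 * n + (2 * (r : ℤ)) = _
      push_cast; ring
    have m3 : (LM r).map ![s, s'] 3 n = (s' : ℤ) - n := by
      change (1:ℤ) * (s' : ℤ) + (-1) * n + 0 = _
      ring
    rw [m0, m1, m2, m3]
    unfold KL KC
    rw [if_pos h3, h4]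
    change _ = Lk Q (X / Q ^ 2) _ * Lk Q (X / Q ^ 2) _ * Lk Q (X' / Q ^ 2) _ * Lk Q (X' / 3 / Q ^ 2) _
    ring
  · intro a _ b _ hab
    have : 3 * a + r = 3 * b + r := hab
    omega
  · intro y hy hy'
    have h3 : ¬ (3:ℤ) ∣ ((3 * s' + r : ℕ) : ℤ) - (y : ℤ) := by
      rintro ⟨c, hc⟩
      apply hy'
      rw [mem_Ico] at hy
      rw [mem_image]
      refine ⟨y / 3, ?_, ?_⟩
      · rw [mem_Ico]
        rcases hr with rfl | rfl <;> constructor <;> omega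
      · change 3 * (y / 3) + r = y
        rcases hr with rfl | rfl <;> omega
    unfold KC
    rw [if_neg h3, mul_zero]

theorem x4_one (r : ℕ) (hr : r = 1 ∨ r = 2) (Q N : ℕ) (c b : ℝ) (h : LowV (LM r) Q N c b) (Z X X' : ℕ)
    (hZ : 3 * Q ^ 40 ∣ Z) (hX : 3 * Q ^ 40 ∣ X) (hX' : 3 * Q ^ 40 ∣ X') (h9 : 9 * N ≤ Z ^ 2) (hZX : 2 * Z ≤ X)
    (hZX' : 2 * Z ≤ X') (hXN : X ≤ N) (hXN' : X' ≤ N) :
    ∃ Bad : Finset (ℕ × ℕ), Bad ⊆ Ico (2 * X) (3 * X) ×ˢ Ico (2 * X') (3 * X') ∧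
      (Bad.card : ℝ) ≤ X / 3 * (X' / 3) * (Q : ℝ) ^ (-c) ∧
      ∀ x ∈ Ico (2 * X) (3 * X), ∀ x' ∈ Ico (2 * X') (3 * X'), (x, x') ∉ Bad → x % 2 = x' % 2 →
        3 ∣ x → x' % 3 = r →
        Z / 3 * (Q : ℝ) ^ (-b) ≤ ∑ y ∈ Ico Z (2 * Z), KL Q X x y * KC Q X' x' y := by
  classical
  have hG := X3_Gq (r : ℤ) (by rcases hr with rfl | rfl <;> simp) Q N Z X X' hZ hX hX' h9 hZX hZX' hXN hXN'
  obtain ⟨Bad, hB1, hB2, hB3⟩ := h _ _ _ hG
  have hZ3 : 3 ∣ Z := (Dvd.intro _ rfl).trans hZ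
  obtain ⟨a, rfl⟩ : 3 ∣ X := (Dvd.intro _ rfl).trans hX
  obtain ⟨a', rfl⟩ : 3 ∣ X' := (Dvd.intro _ rfl).trans hX'
  have ea : 3 * a / 3 = a := by omega
  have ea' : 3 * a' / 3 = a' := by omega
  rw [ea, ea'] at hB1 hB2 hB3
  have hmem : ∀ s s' : ℕ, ![s, s'] ∈ cub (fun j => 2 * ![a, a'] j) ![a, a'] ↔
      (2 * a ≤ s ∧ s < 2 * a + a) ∧ (2 * a' ≤ s' ∧ s' < 2 * a' + a') := by
    intro s s'
    unfold cub
    rw [Fintype.mem_piFinset, Fin.forall_fin_two, mem_Ico, mem_Ico]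
    rfl
  have hform : ∀ ω : Fin 2 → ℕ, ω = ![ω 0, ω 1] := by
    intro ω
    funext j
    fin_cases j <;> rfl
  refine ⟨Bad.image (fun ω => (3 * ω 0, 3 * ω 1 + r)), ?_, ?_, ?_⟩
  · intro p hp
    obtain ⟨ω, hω, rfl⟩ := mem_image.1 hp
    have h1 := hB1 hω
    rw [hform ω, hmem] at h1
    rw [mem_product, mem_Ico, mem_Ico]
    rcases hr with rfl | rfl
    · refine ⟨⟨?_, ?_⟩, ⟨?_, ?_⟩⟩ <;> dsimp only <;> omega
    · refine ⟨⟨?_, ?_⟩, ⟨?_, ?_⟩⟩ <;> dsimp only <;> omega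
  · have h1 : ((Bad.image (fun ω => (3 * ω 0, 3 * ω 1 + r))).card : ℝ) ≤ Bad.card := by
      exact_mod_cast card_image_le
    refine h1.trans (hB2.trans (le_of_eq ?_))
    have h2 : vol ![a, a'] = (a : ℝ) * a' := by
      unfold vol
      rw [Fin.prod_univ_two]
      rfl
    rw [h2]
    push_cast
    ring
  · intro x hx x' hx' hxB hpar h3 h3'
    obtain ⟨s, rfl⟩ := h3
    obtain ⟨s', rfl⟩ : ∃ s', x' = 3 * s' + r := ⟨x' / 3, by omega⟩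
    rw [mem_Ico] at hx hx'
    have hω : ![s, s'] ∈ cub (fun j => 2 * ![a, a'] j) ![a, a'] := by
      rw [hmem]
      rcases hr with rfl | rfl
      · refine ⟨⟨?_, ?_⟩, ⟨?_, ?_⟩⟩ <;> omega
      · refine ⟨⟨?_, ?_⟩, ⟨?_, ?_⟩⟩ <;> omega
    have hωB : ![s, s'] ∉ Bad := by
      intro hb
      apply hxB
      rw [mem_image]
      exact ⟨_, hb, rfl⟩
    have hNF : NoFix ((LM (r : ℤ)).map ![s, s']) := by
      refine X2_fix (r : ℤ) ?_ _ ?_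
      · rcases hr with rfl | rfl <;> norm_num
      · change (2:ℤ) ∣ (s : ℤ) - (s' : ℤ) - (r : ℤ)
        omega
    have h4 := hB3 _ hω hωB hNF
    have h5 := X4_MF r hr Q Z (3 * a) (3 * a') s s' hZ3
    rw [ea'] at h5
    rw [← h5] at h4
    have hZc : ((Z / 3 : ℕ) : ℝ) = (Z : ℝ) / 3 := by
      obtain ⟨z, rfl⟩ := hZ3
      rw [show 3 * z / 3 = z by omega]
      push_cast
      ring
    rw [hZc] at h4
    exact h4

/-- **MixLow.** Proof. For `r = 1, 2` let `Bad_r` be the exceptional set of `LowV (LM r)` for `Z/3`, `![X/3, X'/3]`,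
`![X, X, X', X'/3]` (`X3_Gq`). `Bad` = the union of the images of `Bad_1`, `Bad_2` under `ω ↦ (3 ω 0, 3 ω 1 + r)`: it is contained
in the product of the intervals, and has at most `2 (X/3)(X'/3) Q^(-c) ≤ X X' Q^(-c)` elements (`vol ![a, a'] = a a'`). For
`x = 3 s`, `x' = 3 s' + r` (`r = x' % 3`) of the same parity, `(x, x')` not in `Bad`: `![s, s']` is in the box `cub` and not in
`Bad_r`; `X2_fix`: `3 s ≡ 3 s' + r` modulo `2`; `X4_MF`. -/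
theorem X4_mix (Q N : ℕ) (c b : ℝ) (h1 : LowV (LM 1) Q N c b) (h2 : LowV (LM 2) Q N c b) : MixLow Q N c b := by
  classical
  intro Z X X' a1 a2 a3 a4 a5 a6 a7 a8
  obtain ⟨B1, p1, p2, p3⟩ := x4_one 1 (Or.inl rfl) Q N c b h1 Z X X' a1 a2 a3 a4 a5 a6 a7 a8
  obtain ⟨B2, q1, q2, q3⟩ := x4_one 2 (Or.inr rfl) Q N c b h2 Z X X' a1 a2 a3 a4 a5 a6 a7 a8
  refine ⟨B1 ∪ B2, union_subset p1 q1, ?_, ?_⟩
  · have h3 : ((B1 ∪ B2).card : ℝ) ≤ B1.card + B2.card := by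
      exact_mod_cast card_union_le _ _
    have h4 : (0:ℝ) ≤ X * X' * (Q : ℝ) ^ (-c) := by positivity
    have h5 : (X:ℝ) / 3 * (X' / 3) * (Q : ℝ) ^ (-c) = 1 / 9 * (X * X' * (Q : ℝ) ^ (-c)) := by ring
    rw [h5] at p2 q2
    linarith
  · intro x hx x' hx' hB hp h3 h3'
    rw [mem_union, not_or] at hB
    have h6 : x' % 3 = 1 ∨ x' % 3 = 2 := by omega
    rcases h6 with h6 | h6
    · exact p3 x hx x' hx' hB.1 hp h3 h6
    · exact q3 x hx x' hx' hB.2 hp h3 h6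

end Pool.Agent.Lib.H59V
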