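import Pool.Agent.Lib.H59V.MD4
import Pool.Agent.Lib.H59V.X1
import Pool.Agent.Lib.H59V.X4

/-!
# Project H59V, chunk X5 (S/M): the two cases for the mixed forms
-/

open Finset

namespace Pool.Agent.Lib.H59V

open Pool.Agent.Lib.H68T Pool.Agent.Lib.H18Q Pool.Agent.Lib.H59P Pool.Agent.Lib.H24P
  Pool.Agent.Lib.H24Q

/-- Proof. `D0_HF` (`H24Q/D0.lean`) with `B = 40`, `X1_FG`, `X2_fb`. -/
theorem X5_HF (ρ : ℤ) (hρ : ¬ (3:ℤ) ∣ ρ) : ∃ C : ℝ, 1 ≤ C ∧ HF C (1 / 36) 80 (LM ρ) := by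
  obtain ⟨C, hC, h⟩ := X1_FG ρ
  obtain ⟨C0, hC0, hfb⟩ := X2_fb ρ hρ
  exact ⟨max C C0, hC.trans (le_max_left _ _), D0_HF (LM ρ) C (1 / 36) C0 40 hC hC0 hfb h⟩

/-- Proof. `MD4_A` for `LM 1` and `LM 2` (`X5_HF`), `c1` the smaller one of the two constants, `K` the larger one; `LowV_mono`;
`X4_mix`. -/
theorem X5_A : ∃ c1 K : ℝ, 0 < c1 ∧ 1 ≤ K ∧ ∀ c6 ε : ℝ, 0 < c6 → 0 < ε → 4 * c6 + 2 * ε < c1 →
    ∃ Q0 : ℕ, ∀ Q N : ℕ, Q0 ≤ Q → K * Real.log Q ≤ Real.log N → LvA Q N (1 / 16) c6 →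
      MixLow Q N c1 (4 * c6 + 2 * ε) := by
  obtain ⟨Ca, hCa, hFa⟩ := X5_HF 1 (by norm_num)
  obtain ⟨Cb, hCb, hFb⟩ := X5_HF 2 (by norm_num)
  obtain ⟨c1, K1, hc1, hK1, h1⟩ := MD4_A 4 2 80 le_rfl (LM 1) Ca (1 / 36) hCa (by norm_num) hFa
  obtain ⟨c2, K2, hc2, hK2, h2⟩ := MD4_A 4 2 80 le_rfl (LM 2) Cb (1 / 36) hCb (by norm_num) hFb
  refine ⟨min c1 c2, max K1 K2, lt_min hc1 hc2, hK1.trans (le_max_left _ _), fun c6 ε hc6 hε hlt => ?_⟩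
  obtain ⟨Q1, hQ1⟩ := h1 c6 ε hc6 hε (lt_of_eq_of_lt (by norm_num) (lt_of_lt_of_le hlt (min_le_left _ _)))
  obtain ⟨Q2, hQ2⟩ := h2 c6 ε hc6 hε (lt_of_eq_of_lt (by norm_num) (lt_of_lt_of_le hlt (min_le_right _ _)))
  refine ⟨max (max Q1 Q2) 1, fun Q N hQ hK hLv => ?_⟩
  have q1 : Q1 ≤ Q := (le_max_left _ _).trans ((le_max_left _ _).trans hQ)
  have q2 : Q2 ≤ Q := (le_max_right _ _).trans ((le_max_left _ _).trans hQ)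
  have q3 : 1 ≤ Q := (le_max_right _ _).trans hQ
  have hl : 0 ≤ Real.log Q := Real.log_natCast_nonneg Q
  refine X4_mix Q N _ _ ?_ ?_
  · refine LowV_mono q3 (hQ1 Q N q1 ((mul_le_mul_of_nonneg_right (le_max_left _ _) hl).trans hK) hLv) (min_le_left _ _) ?_
    norm_num
  · refine LowV_mono q3 (hQ2 Q N q2 ((mul_le_mul_of_nonneg_right (le_max_right _ _) hl).trans hK) hLv) (min_le_right _ _) ?_
    norm_num

/-- Proof. `MD4_B` for `LM 1` and `LM 2`, likewise (`c = 1/36`; `min c1 (c c6/2)/2` is monotone in `c1`; `1 ≤ Q`). -/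
theorem X5_B : ∃ c1 K : ℝ, 0 < c1 ∧ 1 ≤ K ∧ ∀ c6 ε : ℝ, 0 < c6 → 0 < ε → 2 * ε < c1 →
    ∃ Q0 : ℕ, ∀ Q N : ℕ, Q0 ≤ Q → K * Real.log Q ≤ Real.log N → LvB Q N (1 / 16) c6 →
      MixLow Q N (min c1 (1 / 36 * c6 / 2) / 2) (2 * ε) := by
  obtain ⟨Ca, hCa, hFa⟩ := X5_HF 1 (by norm_num)
  obtain ⟨Cb, hCb, hFb⟩ := X5_HF 2 (by norm_num)
  obtain ⟨c1, K1, hc1, hK1, h1⟩ := MD4_B 4 2 80 le_rfl (LM 1) Ca (1 / 36) hCa (by norm_num) hFa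
  obtain ⟨c2, K2, hc2, hK2, h2⟩ := MD4_B 4 2 80 le_rfl (LM 2) Cb (1 / 36) hCb (by norm_num) hFb
  refine ⟨min c1 c2, max K1 K2, lt_min hc1 hc2, hK1.trans (le_max_left _ _), fun c6 ε hc6 hε hlt => ?_⟩
  obtain ⟨Q1, hQ1⟩ := h1 c6 ε hc6 hε (lt_of_lt_of_le hlt (min_le_left _ _))
  obtain ⟨Q2, hQ2⟩ := h2 c6 ε hc6 hε (lt_of_lt_of_le hlt (min_le_right _ _))
  refine ⟨max (max Q1 Q2) 1, fun Q N hQ hK hLv => ?_⟩
  have q1 : Q1 ≤ Q := (le_max_left _ _).trans ((le_max_left _ _).trans hQ)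
  have q2 : Q2 ≤ Q := (le_max_right _ _).trans ((le_max_left _ _).trans hQ)
  have q3 : 1 ≤ Q := (le_max_right _ _).trans hQ
  have hl : 0 ≤ Real.log Q := Real.log_natCast_nonneg Q
  refine X4_mix Q N _ _ ?_ ?_
  · refine LowV_mono q3 (hQ1 Q N q1 ((mul_le_mul_of_nonneg_right (le_max_left _ _) hl).trans hK) hLv) ?_ le_rfl
    exact div_le_div_of_nonneg_right (min_le_min_right _ (min_le_left _ _)) (by norm_num)
  · refine LowV_mono q3 (hQ2 Q N q2 ((mul_le_mul_of_nonneg_right (le_max_right _ _) hl).trans hK) hLv) ?_ le_rfl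
    exact div_le_div_of_nonneg_right (min_le_min_right _ (min_le_right _ _)) (by norm_num)

/-- Proof. Directly (`1 ≤ Q`). -/
theorem X5_mono {Q N : ℕ} (hQ : 1 ≤ Q) {c c' b b' : ℝ} (h : MixLow Q N c b) (hc : c' ≤ c) (hb : b ≤ b') :
    MixLow Q N c' b' := by
  intro Z X X' a1 a2 a3 a4 a5 a6 a7 a8
  obtain ⟨Bad, hB1, hB2, hB3⟩ := h Z X X' a1 a2 a3 a4 a5 a6 a7 a8
  have hQr : (1 : ℝ) ≤ Q := by exact_mod_cast hQ
  refine ⟨Bad, hB1, hB2.trans ?_, fun x hx x' hx' hB hp h3 h3' => le_trans ?_ (hB3 x hx x' hx' hB hp h3 h3')⟩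
  · exact mul_le_mul_of_nonneg_left (Real.rpow_le_rpow_of_exponent_le hQr (by linarith))
      (mul_nonneg (Nat.cast_nonneg _) (Nat.cast_nonneg _))
  · exact mul_le_mul_of_nonneg_left (Real.rpow_le_rpow_of_exponent_le hQr (by linarith))
      (by positivity)

end Pool.Agent.Lib.H59V
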